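import Pool.Agent.Lib.MP_87c685_nt_CS.InertFive

/-!
# The fourth family when five is inert
-/

set_option autoImplicit false

open NumberField IsDedekindDomain

namespace CS87

variable {K : Type*} [Field K] [NumberField K]

theorem coprime_rat (l : ℚ) : IsCoprime l.num (l.den : ℤ) := by
  rw [Int.isCoprime_iff_gcd_eq_one]
  exact l.reduced

theorem fourthA (h2 : Module.finrank ℚ K = 2) (h5 : (Ideal.span {(5 : 𝓞 K)}).IsPrime)
    (r r' s s' : K) (hrr : r * r' = 9) (hss : s * s' = -1) (hsum : r + r' + s + s' + 5 = 0)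
    (ρ : ℚ) (hρ : r * s + 4 = ρ * (s - 2)) :
    (∃ q : ℚ, s = q) ∨ ∃ q : ℚ, r * s = q := by
  by_cases hρ0 : ρ = 0
  · right
    exact ⟨-4, by rw [hρ0] at hρ; push_cast at hρ ⊢; linear_combination hρ⟩
  by_cases hs2 : s = 2
  · left; exact ⟨2, by rw [hs2]; push_cast; rfl⟩
  have hρK : (ρ : K) ≠ 0 := by exact_mod_cast hρ0
  have hs2' : s - 2 ≠ 0 := sub_ne_zero.2 hs2
  have hcurve : r ^ 2 * s + 9 * s + r * s ^ 2 - r + 5 * r * s = 0 := by
    linear_combination r * s * hsum - s * hrr - r * hss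
  have e1 : ρ * (2 * s + 2 * r + 5) = -5 * (r + 2) := by
    apply mul_left_cancel₀ hs2'
    linear_combination -(2 * s + 2 * r + 5) * hρ + 2 * hcurve
  obtain ⟨l, hl⟩ : ∃ l : ℚ, l = -5 / ρ - 2 := ⟨_, rfl⟩
  have hlK : (l : K) = -5 / ρ - 2 := by rw [hl]; push_cast; ring
  have e2 : 2 * s + 1 = l * (r + 2) := by
    rw [hlK]
    field_simp
    linear_combination e1
  by_cases hr2 : r + 2 = 0
  · left
    refine ⟨-1 / 2, ?_⟩
    rw [hr2, mul_zero] at e2
    push_cast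
    linear_combination e2 / 2
  have hQ : (l : K) * (l + 2) * r ^ 2 + (2 * l ^ 2 + 8 * l - 2) * r + 9 * (2 * l - 1) = 0 := by
    apply mul_left_cancel₀ hr2
    have hm : s = (l * (r + 2) - 1) / 2 := by linear_combination e2 / 2
    rw [hm] at hcurve
    linear_combination 4 * hcurve
  obtain ⟨a, ha⟩ : ∃ a : ℤ, a = l.num := ⟨_, rfl⟩
  obtain ⟨b, hb⟩ : ∃ b : ℤ, b = (l.den : ℤ) := ⟨_, rfl⟩
  have hb0 : (b : K) ≠ 0 := by
    rw [hb]; exact_mod_cast l.den_nz
  have hlab : (l : K) = a / b := by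
    rw [ha, hb]
    have : l = (l.num : ℚ) / (l.den : ℚ) := (Rat.num_div_den l).symm
    conv_lhs => rw [this]
    push_cast; ring
  have hQ' : (a : K) * (a + 2 * b) * r ^ 2 + (2 * a ^ 2 + 8 * a * b - 2 * b ^ 2) * r +
      9 * (2 * a - b) * b = 0 := by
    have h1 : (b : K) ^ 2 * ((l : K) * (l + 2) * r ^ 2 + (2 * l ^ 2 + 8 * l - 2) * r +
      9 * (2 * l - 1)) = 0 := by rw [hQ, mul_zero]
    rw [hlab] at h1
    field_simp at h1
    linear_combination h1
  have hδ : ((a : K) * (a + 2 * b) * r + (a ^ 2 + 4 * a * b - b ^ 2)) ^ 2 =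
      (((a ^ 2 + a * b - b ^ 2) * (a ^ 2 - 11 * a * b - b ^ 2) : ℤ) : K) := by
    push_cast
    linear_combination (a : K) * (a + 2 * b) * hQ'
  have hab : IsCoprime a b := by rw [ha, hb]; exact coprime_rat l
  obtain ⟨q, hq⟩ := FA h2 h5 a b hab _ hδ
  left
  by_cases hl0 : l = 0
  · refine ⟨-1 / 2, ?_⟩
    rw [hl0] at e2
    push_cast at e2 ⊢
    linear_combination e2 / 2
  have hl2 : l + 2 ≠ 0 := by
    rw [hl]
    have : (-5 : ℚ) / ρ ≠ 0 := div_ne_zero (by norm_num) hρ0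
    intro h; apply this; linear_combination h
  have hl0K : (l : K) ≠ 0 := by exact_mod_cast hl0
  have hl2K : (l : K) + 2 ≠ 0 := by exact_mod_cast hl2
  have ha0 : (a : K) ≠ 0 := by
    intro h; apply hl0K; rw [hlab, h, zero_div]
  have ha2 : (a : K) + 2 * b ≠ 0 := by
    intro h; apply hl2K; rw [hlab]; field_simp; linear_combination h
  have hr : r = (((q - (a ^ 2 + 4 * a * b - b ^ 2)) / (a * (a + 2 * b)) : ℚ) : K) := by
    push_cast
    rw [eq_div_iff (mul_ne_zero ha0 ha2)]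
    linear_combination hq
  refine ⟨(l * ((q - (a ^ 2 + 4 * a * b - b ^ 2)) / (a * (a + 2 * b)) + 2) - 1) / 2, ?_⟩
  have hm : s = (l * (r + 2) - 1) / 2 := by linear_combination e2 / 2
  rw [hm, hr]
  push_cast
  ring

theorem fourthB (h2 : Module.finrank ℚ K = 2) (h5 : (Ideal.span {(5 : 𝓞 K)}).IsPrime)
    (r r' s s' : K) (hrr : r * r' = 5) (hss : s * s' = 3) (hsum : r + r' + s + s' + 1 = 0)
    (ρ : ℚ) (hρ : r * s + 4 = ρ * (s - 2)) :
    (∃ q : ℚ, s = q) ∨ ∃ q : ℚ, r * s = q := by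
  by_cases hρ0 : ρ = 0
  · right
    exact ⟨-4, by rw [hρ0] at hρ; push_cast at hρ ⊢; linear_combination hρ⟩
  by_cases hs2 : s = 2
  · left; exact ⟨2, by rw [hs2]; push_cast; rfl⟩
  have hρK : (ρ : K) ≠ 0 := by exact_mod_cast hρ0
  have hs2' : s - 2 ≠ 0 := sub_ne_zero.2 hs2
  have hcurve : r ^ 2 * s + 5 * s + r * s ^ 2 + 3 * r + r * s = 0 := by
    linear_combination r * s * hsum - s * hrr - r * hss
  have e1 : ρ * (2 * s + 2 * r + 1) = -(r + 2) := by
    apply mul_left_cancel₀ hs2'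
    linear_combination -(2 * s + 2 * r + 1) * hρ + 2 * hcurve
  obtain ⟨l, hl⟩ : ∃ l : ℚ, l = -1 / ρ - 2 := ⟨_, rfl⟩
  have hlK : (l : K) = -1 / ρ - 2 := by rw [hl]; push_cast; ring
  have e2 : 2 * s - 3 = l * (r + 2) := by
    rw [hlK]
    field_simp
    linear_combination e1
  by_cases hr2 : r + 2 = 0
  · left
    refine ⟨3 / 2, ?_⟩
    rw [hr2, mul_zero] at e2
    push_cast
    linear_combination e2 / 2
  have hQ : (l : K) * (l + 2) * (r + 2) ^ 2 + (6 - 2 * l ^ 2) * (r + 2) + (3 + 2 * l) = 0 := by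
    apply mul_left_cancel₀ hr2
    have hm : s = (l * (r + 2) + 3) / 2 := by linear_combination e2 / 2
    rw [hm] at hcurve
    linear_combination 4 * hcurve
  obtain ⟨a, ha⟩ : ∃ a : ℤ, a = l.num := ⟨_, rfl⟩
  obtain ⟨b, hb⟩ : ∃ b : ℤ, b = (l.den : ℤ) := ⟨_, rfl⟩
  have hb0 : (b : K) ≠ 0 := by
    rw [hb]; exact_mod_cast l.den_nz
  have hlab : (l : K) = a / b := by
    rw [ha, hb]
    have : l = (l.num : ℚ) / (l.den : ℚ) := (Rat.num_div_den l).symm
    conv_lhs => rw [this]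
    push_cast; ring
  have hQ' : (a : K) * (a + 2 * b) * (r + 2) ^ 2 + (6 * b ^ 2 - 2 * a ^ 2) * (r + 2) +
      (3 * b + 2 * a) * b = 0 := by
    have h1 : (b : K) ^ 2 * ((l : K) * (l + 2) * (r + 2) ^ 2 + (6 - 2 * l ^ 2) * (r + 2) +
      (3 + 2 * l)) = 0 := by rw [hQ, mul_zero]
    rw [hlab] at h1
    field_simp at h1
    linear_combination h1
  have hδ : ((a : K) * (a + 2 * b) * (r + 2) + (3 * b ^ 2 - a ^ 2)) ^ 2 =
      (((a ^ 2 - a * b + 3 * b ^ 2) ^ 2 - 20 * (a * b) ^ 2 : ℤ) : K) := by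
    push_cast
    linear_combination (a : K) * (a + 2 * b) * hQ'
  have hab : IsCoprime a b := by rw [ha, hb]; exact coprime_rat l
  obtain ⟨q, hq⟩ := FB h2 h5 a b hab _ hδ
  left
  by_cases hl0 : l = 0
  · refine ⟨3 / 2, ?_⟩
    rw [hl0] at e2
    push_cast at e2 ⊢
    linear_combination e2 / 2
  have hl2 : l + 2 ≠ 0 := by
    rw [hl]
    have : (-1 : ℚ) / ρ ≠ 0 := div_ne_zero (by norm_num) hρ0
    intro h; apply this; linear_combination h
  have hl0K : (l : K) ≠ 0 := by exact_mod_cast hl0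
  have hl2K : (l : K) + 2 ≠ 0 := by exact_mod_cast hl2
  have ha0 : (a : K) ≠ 0 := by
    intro h; apply hl0K; rw [hlab, h, zero_div]
  have ha2 : (a : K) + 2 * b ≠ 0 := by
    intro h; apply hl2K; rw [hlab]; field_simp; linear_combination h
  have hr : r + 2 = (((q - (3 * b ^ 2 - a ^ 2)) / (a * (a + 2 * b)) : ℚ) : K) := by
    push_cast
    rw [eq_div_iff (mul_ne_zero ha0 ha2)]
    linear_combination hq
  refine ⟨(l * ((q - (3 * b ^ 2 - a ^ 2)) / (a * (a + 2 * b))) + 3) / 2, ?_⟩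
  have hm : s = (l * (r + 2) + 3) / 2 := by linear_combination e2 / 2
  rw [hm, hr]
  push_cast
  ring

end CS87
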