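import Pool.Agent.Lib.MP_87c685_nt_CS.TwoAny
import Pool.Agent.Lib.MP_87c685_nt_CS.Fourth

/-!
# Potentially good reduction above two when five is inert
-/

set_option autoImplicit false

open NumberField IsDedekindDomain

namespace CS87

variable {K : Type*} [Field K] [NumberField K]

theorem two_lt_of_mem (w : HeightOneSpectrum (𝓞 K)) (hw : (2 : 𝓞 K) ∈ w.asIdeal) :
    w.valuation K (2 : K) < 1 := by
  have h2 : w.valuation K (algebraMap (𝓞 K) K 2) < 1 :=
    (HeightOneSpectrum.valuation_lt_one_iff_mem (K := K) w (2 : 𝓞 K)).2 hw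
  rwa [map_ofNat] at h2

/-- the four families of conjugate pairs -/
def Fam (r s s' : K) : Prop :=
  (∃ q : ℚ, s = q) ∨ (∃ q : ℚ, r * s = q) ∨ (∃ q : ℚ, r * s' = q) ∨
    ∃ ρ : ℚ, r * s + 4 = ρ * (s - 2)

theorem potTwoA' (j G k : K)
    (h5 : k * j = (k ^ 2 + 10 * k + 5) ^ 3) (h3 : G * j = (G + 27) * (G + 3) ^ 3)
    (r r' s s' : K) (hrr : r * r' = 9) (hss : s * s' = -1) (hsum : r + r' + s + s' + 5 = 0)
    (hG : G * (r ^ 3 * s ^ 2) = 729)
    (hs : s * ((G + 3) * (k ^ 2 + 4 * k - 1)) = G ^ 2 + 18 * G - 3 * k * (k ^ 2 + 13 * k + 35))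
    (hF : Fam r s s')
    (w : HeightOneSpectrum (𝓞 K)) (hw : (2 : 𝓞 K) ∈ w.asIdeal)
    (hj : w.valuation K j ≤ 1) :
    (¬ ∃ q : ℚ, r * s = q) ∧ ((∃ q : ℚ, s = q) ∨ ∃ ρ : ℚ, r * s + 4 = ρ * (s - 2)) := by
  have hv2 := two_lt_of_mem w hw
  have v9 : w.valuation K (9 : K) = 1 := by
    have := v_oddN (w.valuation K) hv2 4
    norm_num at this
    exact this
  have v5 : w.valuation K (5 : K) = 1 := by
    have := v_oddN (w.valuation K) hv2 2
    norm_num at this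
    exact this
  have i1 : w.valuation K (r * s) ≤ 1 := by
    by_contra h
    exact absurd (RG.cuspA1 (w.valuation K) h3 h5 hrr hss hsum hG hs (not_le.1 h)).1
      (not_lt.2 hj)
  have i2 : w.valuation K (r' * s) ≤ 1 := by
    by_contra h
    exact absurd (RG.cuspA2 (w.valuation K) h3 h5 hrr hss hsum hG hs (not_le.1 h)).1
      (not_lt.2 hj)
  have i3 : w.valuation K (r * s') ≤ 1 := by
    by_contra h
    exact absurd (RG.cuspA3 (w.valuation K) h3 hrr hss hsum hG hs (not_le.1 h)).1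
      (not_lt.2 hj)
  have i4 : w.valuation K (r' * s') ≤ 1 := by
    by_contra h
    exact absurd (RG.cuspA4 (w.valuation K) h3 h5 hrr hss hsum hG hs (not_le.1 h)).1
      (not_lt.2 hj)
  have v1 : w.valuation K (-1 : K) = 1 := by rw [Valuation.map_neg, map_one]
  obtain ⟨a1, a2, a3, a4⟩ := v_int_all (w.valuation K) v9.le v1.le v5.le hrr hss hsum
    i1 i2 i3 i4
  obtain ⟨u1, u2⟩ := v_unit_of_mul (w.valuation K) hrr v9 a1 a2
  obtain ⟨u3, u4⟩ := v_unit_of_mul (w.valuation K) hss v1 a3 a4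
  have va : w.valuation K ((9 : K) - 1) < 1 := by
    have := v_even_int (w.valuation K) hv2 8 (by norm_num)
    push_cast at this
    have e : (9 : K) - 1 = 8 := by norm_num
    rw [e]; exact this
  have vb : w.valuation K ((-1 : K) - 1) < 1 := by
    have := v_even_int (w.valuation K) hv2 (-2) (by norm_num)
    push_cast at this
    have e : (-1 : K) - 1 = -2 := by norm_num
    rw [e]; exact this
  have noR1 : ¬ ∃ q : ℚ, r * s = q := fun ⟨q, hq⟩ =>
    no_R1 (w.valuation K) hv2 va vb v5 hrr hss hsum u1 u2 u3 q hq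
  have noR2 : ¬ ∃ q : ℚ, r * s' = q := fun ⟨q, hq⟩ =>
    no_R1 (w.valuation K) hv2 va vb v5 hrr (show s' * s = -1 by rw [mul_comm]; exact hss)
      (show r + r' + s' + s + 5 = 0 by linear_combination hsum) u1 u2 u4 q hq
  refine ⟨noR1, ?_⟩
  rcases hF with h | h | h | h
  · exact Or.inl h
  · exact absurd h noR1
  · exact absurd h noR2
  · exact Or.inr h

theorem potTwoA (h2 : Module.finrank ℚ K = 2) (j G k : K)
    (h5 : k * j = (k ^ 2 + 10 * k + 5) ^ 3) (h3 : G * j = (G + 27) * (G + 3) ^ 3)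
    (r r' s s' : K) (hrr : r * r' = 9) (hss : s * s' = -1) (hsum : r + r' + s + s' + 5 = 0)
    (hG : G * (r ^ 3 * s ^ 2) = 729)
    (hs : s * ((G + 3) * (k ^ 2 + 4 * k - 1)) = G ^ 2 + 18 * G - 3 * k * (k ^ 2 + 13 * k + 35))
    (hF : Fam r s s')
    (w : HeightOneSpectrum (𝓞 K)) (hw : (2 : 𝓞 K) ∈ w.asIdeal)
    (hj : w.valuation K j ≤ 1) (hI : (Ideal.span {(5 : 𝓞 K)}).IsPrime) :
    ∃ q : ℚ, s = q := by
  obtain ⟨hn, h | ⟨ρ, h⟩⟩ := potTwoA' j G k h5 h3 r r' s s' hrr hss hsum hG hs hF w hw hj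
  · exact h
  · rcases fourthA h2 hI r r' s s' hrr hss hsum ρ h with h | h
    · exact h
    · exact absurd h hn

theorem potTwoB' (j c t k : K)
    (h5 : k * j = (k ^ 2 + 10 * k + 5) ^ 3) (h3 : c ^ 3 = j)
    (r r' s s' : K) (hrr : r * r' = 5) (hss : s * s' = 3) (hsum : r + r' + s + s' + 1 = 0)
    (hk : k = r ^ 3) (hc : c = r ^ 5 + 10 * r ^ 2 + r')
    (ht1 : s' * (r ^ 4 - r ^ 3 + 2 * r ^ 2 + r + 1) = -(3 * t + 3 * r * (r ^ 2 - 2 * r + 2)))
    (ht2 : t * (s * (r ^ 4 - r ^ 3 + 2 * r ^ 2 + r + 1) + 3 * r * (r ^ 2 - 2 * r + 2)) = 9)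
    (hF : Fam r s s')
    (w : HeightOneSpectrum (𝓞 K)) (hw : (2 : 𝓞 K) ∈ w.asIdeal)
    (hj : w.valuation K j ≤ 1) :
    (¬ ∃ q : ℚ, r * s = q) ∧ ((∃ q : ℚ, s = q) ∨ ∃ ρ : ℚ, r * s + 4 = ρ * (s - 2)) := by
  have hv2 := two_lt_of_mem w hw
  have v5 : w.valuation K (5 : K) = 1 := by
    have := v_oddN (w.valuation K) hv2 2
    norm_num at this
    exact this
  have v3 : w.valuation K (3 : K) = 1 := by
    have := v_oddN (w.valuation K) hv2 1
    norm_num at this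
    exact this
  have i1 : w.valuation K (r * s) ≤ 1 := by
    by_contra h
    exact absurd (RG.cuspB1 (w.valuation K) h5 hrr hss hsum hk ht2 (not_le.1 h)).1
      (not_lt.2 hj)
  have i2 : w.valuation K (r' * s) ≤ 1 := by
    by_contra h
    exact absurd (RG.cuspB2 (w.valuation K) hrr hss hsum hk h3 hc ht2 (not_le.1 h)).1
      (not_lt.2 hj)
  have i3 : w.valuation K (r * s') ≤ 1 := by
    by_contra h
    exact absurd (RG.cuspB3 (w.valuation K) h5 hrr hss hsum hk ht1 (not_le.1 h)).1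
      (not_lt.2 hj)
  have i4 : w.valuation K (r' * s') ≤ 1 := by
    by_contra h
    exact absurd (RG.cuspB4 (w.valuation K) hrr hss hsum hk h3 hc ht1 (not_le.1 h)).1
      (not_lt.2 hj)
  have v1 : w.valuation K (1 : K) = 1 := by rw [map_one]
  obtain ⟨a1, a2, a3, a4⟩ := v_int_all (w.valuation K) v5.le v3.le v1.le hrr hss hsum
    i1 i2 i3 i4
  obtain ⟨u1, u2⟩ := v_unit_of_mul (w.valuation K) hrr v5 a1 a2
  obtain ⟨u3, u4⟩ := v_unit_of_mul (w.valuation K) hss v3 a3 a4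
  have va : w.valuation K ((5 : K) - 1) < 1 := by
    have := v_even_int (w.valuation K) hv2 4 (by norm_num)
    push_cast at this
    have e : (5 : K) - 1 = 4 := by norm_num
    rw [e]; exact this
  have vb : w.valuation K ((3 : K) - 1) < 1 := by
    have := v_even_int (w.valuation K) hv2 2 (by norm_num)
    push_cast at this
    have e : (3 : K) - 1 = 2 := by norm_num
    rw [e]; exact this
  have noR1 : ¬ ∃ q : ℚ, r * s = q := fun ⟨q, hq⟩ =>
    no_R1 (w.valuation K) hv2 va vb v1 hrr hss hsum u1 u2 u3 q hq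
  have noR2 : ¬ ∃ q : ℚ, r * s' = q := fun ⟨q, hq⟩ =>
    no_R1 (w.valuation K) hv2 va vb v1 hrr (show s' * s = 3 by rw [mul_comm]; exact hss)
      (show r + r' + s' + s + 1 = 0 by linear_combination hsum) u1 u2 u4 q hq
  refine ⟨noR1, ?_⟩
  rcases hF with h | h | h | h
  · exact Or.inl h
  · exact absurd h noR1
  · exact absurd h noR2
  · exact Or.inr h

theorem potTwoB (h2 : Module.finrank ℚ K = 2) (j c t k : K)
    (h5 : k * j = (k ^ 2 + 10 * k + 5) ^ 3) (h3 : c ^ 3 = j)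
    (r r' s s' : K) (hrr : r * r' = 5) (hss : s * s' = 3) (hsum : r + r' + s + s' + 1 = 0)
    (hk : k = r ^ 3) (hc : c = r ^ 5 + 10 * r ^ 2 + r')
    (ht1 : s' * (r ^ 4 - r ^ 3 + 2 * r ^ 2 + r + 1) = -(3 * t + 3 * r * (r ^ 2 - 2 * r + 2)))
    (ht2 : t * (s * (r ^ 4 - r ^ 3 + 2 * r ^ 2 + r + 1) + 3 * r * (r ^ 2 - 2 * r + 2)) = 9)
    (hF : Fam r s s')
    (w : HeightOneSpectrum (𝓞 K)) (hw : (2 : 𝓞 K) ∈ w.asIdeal)
    (hj : w.valuation K j ≤ 1) (hI : (Ideal.span {(5 : 𝓞 K)}).IsPrime) :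
    ∃ q : ℚ, s = q := by
  obtain ⟨hn, h | ⟨ρ, h⟩⟩ :=
    potTwoB' j c t k h5 h3 r r' s s' hrr hss hsum hk hc ht1 ht2 hF w hw hj
  · exact h
  · rcases fourthB h2 hI r r' s s' hrr hss hsum ρ h with h | h
    · exact h
    · exact absurd h hn

end CS87
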