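import Pool.Agent.Lib.MP_87c685_nt_CS.RatA
import Pool.Agent.Lib.MP_87c685_nt_RG.CK

/-!
# The third point on the line through a point and its conjugate
-/

set_option autoImplicit false

open NumberField

namespace CS87

theorem eq_or_neg {a b : ℚ} (h : a ^ 2 = b ^ 2) : a = b ∨ a = -b := sq_eq_sq_iff_eq_or_eq_neg.1 h

/-- `T`, `N` trace and norm of `x`, `y = α x + β` -/
theorem cubic (A B T N α β : ℚ) (h1 : -4 * (T ^ 2 - N) + A * T + B = α ^ 2 * T + 2 * α * β)
    (h0 : 4 * T * N - A * N = -(α ^ 2 * N) + β ^ 2) :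
    -4 * N * ((A - α ^ 2) / 4 - T) = β ^ 2 ∧
    (α * ((A - α ^ 2) / 4 - T) + β) ^ 2 = ((A - α ^ 2) / 4 - T) *
      (-4 * ((A - α ^ 2) / 4 - T) ^ 2 + A * ((A - α ^ 2) / 4 - T) + B) := by
  constructor
  · linear_combination h0
  · linear_combination -h0 - ((A - α ^ 2) / 4 - T) * h1

section over_K

variable {K : Type*} [Field K] [NumberField K]

/-- the equations for trace, norm and slope -/
theorem line [IsTotallyComplex K] (h2 : Module.finrank ℚ K = 2) (A B : ℚ) (x y : K)
    (hx : ∀ q : ℚ, x ≠ q) (h : y ^ 2 = -4 * x ^ 3 + A * x ^ 2 + B * x) :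
    ∃ T N α β : ℚ, y = α * x + β ∧ 0 < N ∧ T ^ 2 < 4 * N ∧
      -4 * N * ((A - α ^ 2) / 4 - T) = β ^ 2 ∧
      (α * ((A - α ^ 2) / 4 - T) + β) ^ 2 = ((A - α ^ 2) / 4 - T) *
      (-4 * ((A - α ^ 2) / 4 - T) ^ 2 + A * ((A - α ^ 2) / 4 - T) + B) ∧
      4 * N = 4 * T ^ 2 - A * T - B + α ^ 2 * T + 2 * α * β := by
  obtain ⟨φ⟩ : Nonempty (K →+* ℂ) := inferInstance
  obtain ⟨T, N, hTN, hT, hN⟩ := RG.exists_trace_norm h2 φ x
  obtain ⟨β, α, hy⟩ := RG.span_of h2 x hx y
  have hx0 : x ≠ 0 := by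
    have := hx 0
    simpa using this
  have hNpos : 0 < N := by
    have h1 : 0 < Complex.normSq (φ x) := Complex.normSq_pos.2 ((map_ne_zero φ).2 hx0)
    rw [hN] at h1
    exact_mod_cast h1
  have hdisc : T ^ 2 < 4 * N := by
    by_contra hd
    push Not at hd
    obtain ⟨q, hq⟩ := RG.rat_of_disc h2 x (-T) N (by push_cast; linear_combination hTN)
      (by nlinarith)
    exact hx q hq
  have key : (((4 * T * N - A * N + α ^ 2 * N - β ^ 2 : ℚ)) : K) +
      (((-4 * (T ^ 2 - N) + A * T + B - α ^ 2 * T - 2 * α * β : ℚ)) : K) * x = 0 := by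
    push_cast
    rw [hy] at h
    linear_combination -h + ((α : K) ^ 2 - A + 4 * (x + T)) * hTN
  obtain ⟨k0, k1⟩ := RG.lin_indep hx _ _ key
  obtain ⟨c1, c2⟩ := cubic A B T N α β (by linear_combination k1) (by linear_combination k0)
  exact ⟨T, N, α, β, by rw [hy]; ring, hNpos, hdisc, c1, c2, by linear_combination k1⟩

theorem thirdA [IsTotallyComplex K] (h2 : Module.finrank ℚ K = 2) (r r' s s' : K)
    (hrr : r * r' = 9) (hss : s * s' = -1) (hsum : r + r' + s + s' + 5 = 0) :
    (∃ q : ℚ, s = q) ∨ (∃ q : ℚ, r * s = q) ∨ (∃ q : ℚ, r * s' = q) ∨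
      ∃ ρ : ℚ, r * s + 4 = ρ * (s - 2) := by
  by_cases hx : ∃ q : ℚ, r * s = q
  · exact Or.inr (Or.inl hx)
  push Not at hx
  have hs0 : s ≠ 0 := by
    rintro rfl; rw [zero_mul] at hss; norm_num at hss
  have hr0 : r ≠ 0 := by
    rintro rfl; rw [zero_mul] at hrr; norm_num at hrr
  obtain ⟨x, hxd⟩ : ∃ x, x = r * s := ⟨_, rfl⟩
  rw [← hxd] at hx ⊢
  -- the equation of the curve
  have hc : (x + 9) * s ^ 2 + 5 * x * s + x * (x - 1) = 0 := by
    rw [hxd]
    linear_combination (-s ^ 2 : K) * hrr - r * s * hss + r * s ^ 2 * hsum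
  have hne : ∀ q : ℚ, x - q ≠ 0 := fun q h => hx q (sub_eq_zero.1 h)
  obtain ⟨T, N, α, β, hy, hN, hD, h4, h5, h6⟩ := line h2 (-7) 36 x (2 * (x + 9) * s + 5 * x) hx
    (by push_cast; linear_combination 4 * (x + 9) * hc)
  obtain ⟨ρ, hρ⟩ : ∃ ρ, ρ = (-7 - α ^ 2) / 4 - T := ⟨_, rfl⟩
  rw [← hρ] at h4 h5
  have h7 := ratA (-4 * ρ) (4 * (α * ρ + β)) (by linear_combination 16 * h5)
  rcases h7 with h7 | h7 | h7 | h7 | h7
  · -- ρ = 0
    exfalso
    have e : ρ = 0 := by linarith
    rw [e] at h4 hρ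
    have hβ : β = 0 := by
      have : β ^ 2 = 0 := by rw [← h4]; ring
      exact pow_eq_zero_iff (two_ne_zero) |>.1 this
    rw [hβ] at h6
    have : 4 * N = -36 := by rw [h6]; linear_combination (4 * T) * hρ
    linarith
  · -- ρ = 9/4
    exfalso
    have e : ρ = 9 / 4 := by linarith
    rw [e] at h4
    nlinarith [sq_nonneg β]
  · -- ρ = -4
    have e : ρ = -4 := by linarith
    rw [e] at h5
    have h8 : β = 4 * α := by
      have : (α * (-4) + β) ^ 2 = 0 := by rw [h5]; norm_num
      have := pow_eq_zero_iff (two_ne_zero) |>.1 this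
      linarith
    rw [h8] at hy
    push_cast at hy
    have hx4 : x + 4 ≠ 0 := by
      have := hne (-4)
      push_cast at this
      rwa [sub_neg_eq_add] at this
    have key : (α + 9) * s ^ 2 + (α - 1) * x = (0 : K) := by
      apply mul_left_cancel₀ hx4
      rw [mul_zero]
      linear_combination (2 * s + 4) * hc - (s ^ 2 + x) * hy
    have hα : α - 1 ≠ 0 := by
      intro h
      have h9 : α = 1 := by linarith
      rw [h9] at key
      push_cast at key
      have : (10 : K) * s ^ 2 = 0 := by linear_combination key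
      exact mul_ne_zero (by norm_num) (pow_ne_zero 2 hs0) this
    right; right; left
    refine ⟨(α + 9) / (α - 1), ?_⟩
    have hαK : (α : K) - 1 ≠ 0 := by exact_mod_cast hα
    push_cast
    rw [eq_div_iff hαK]
    apply mul_left_cancel₀ (pow_ne_zero 2 hs0)
    rw [hxd] at key
    linear_combination r * s * (α - 1) * hss - key
  · -- ρ = -9
    have e : ρ = -9 := by linarith
    rw [e] at h5
    have hx9 : x + 9 ≠ 0 := by
      have := hne (-9)
      push_cast at this
      rwa [sub_neg_eq_add] at this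
    rcases eq_or_neg (show (α * (-9) + β) ^ 2 = 45 ^ 2 by rw [h5]; norm_num) with h8 | h8
    · right; right; right
      have h9 : β = 9 * α + 45 := by linarith
      rw [h9] at hy
      push_cast at hy
      refine ⟨-(α + 9) / 2, ?_⟩
      push_cast
      apply mul_left_cancel₀ hx9
      linear_combination hc - (s - 2) / 2 * hy
    · left
      have h9 : β = 9 * α - 45 := by linarith
      rw [h9] at hy
      push_cast at hy
      refine ⟨(α - 5) / 2, ?_⟩
      push_cast
      apply mul_left_cancel₀ hx9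
      linear_combination (1 / 2) * hy
  · -- ρ = 1
    exfalso
    have e : ρ = 1 := by linarith
    rw [e] at h4
    nlinarith [sq_nonneg β]

theorem thirdB [IsTotallyComplex K] (h2 : Module.finrank ℚ K = 2) (r r' s s' : K)
    (hrr : r * r' = 5) (hss : s * s' = 3) (hsum : r + r' + s + s' + 1 = 0) :
    (∃ q : ℚ, s = q) ∨ (∃ q : ℚ, r * s = q) ∨ (∃ q : ℚ, r * s' = q) ∨
      ∃ ρ : ℚ, r * s + 4 = ρ * (s - 2) := by
  by_cases hx : ∃ q : ℚ, r * s = q
  · exact Or.inr (Or.inl hx)
  push Not at hx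
  have hs0 : s ≠ 0 := by
    rintro rfl; rw [zero_mul] at hss; norm_num at hss
  have hr0 : r ≠ 0 := by
    rintro rfl; rw [zero_mul] at hrr; norm_num at hrr
  obtain ⟨x, hxd⟩ : ∃ x, x = r * s := ⟨_, rfl⟩
  rw [← hxd] at hx ⊢
  have hc : (x + 5) * s ^ 2 + x * s + x * (x + 3) = 0 := by
    rw [hxd]
    linear_combination (-s ^ 2 : K) * hrr - r * s * hss + r * s ^ 2 * hsum
  have hne : ∀ q : ℚ, x - q ≠ 0 := fun q h => hx q (sub_eq_zero.1 h)
  obtain ⟨T, N, α, β, hy, hN, hD, h4, h5, h6⟩ := line h2 (-31) (-60) x (2 * (x + 5) * s + x) hx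
    (by push_cast; linear_combination 4 * (x + 5) * hc)
  obtain ⟨ρ, hρ⟩ : ∃ ρ, ρ = (-31 - α ^ 2) / 4 - T := ⟨_, rfl⟩
  rw [← hρ] at h4 h5
  have h7 := ratB (-4 * ρ - 16) (4 * (α * ρ + β)) (by linear_combination 16 * h5)
  rcases h7 with h7 | h7 | h7 | h7 | h7
  · -- ρ = -4
    have e : ρ = -4 := by linarith
    rw [e] at h5
    have h8 : β = 4 * α := by
      have : (α * (-4) + β) ^ 2 = 0 := by rw [h5]; norm_num
      have := pow_eq_zero_iff (two_ne_zero) |>.1 this
      linarith
    rw [h8] at hy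
    push_cast at hy
    have hx4 : x + 4 ≠ 0 := by
      have := hne (-4)
      push_cast at this
      rwa [sub_neg_eq_add] at this
    have key : (α + 5) * s ^ 2 + (α + 3) * x = (0 : K) := by
      apply mul_left_cancel₀ hx4
      rw [mul_zero]
      linear_combination (2 * s + 4) * hc - (s ^ 2 + x) * hy
    have hα : α + 3 ≠ 0 := by
      intro h
      have h9 : α = -3 := by linarith
      rw [h9] at key
      push_cast at key
      have : (2 : K) * s ^ 2 = 0 := by linear_combination key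
      exact mul_ne_zero (by norm_num) (pow_ne_zero 2 hs0) this
    right; right; left
    refine ⟨-3 * (α + 5) / (α + 3), ?_⟩
    have hαK : (α : K) + 3 ≠ 0 := by exact_mod_cast hα
    push_cast
    rw [eq_div_iff hαK]
    apply mul_left_cancel₀ (pow_ne_zero 2 hs0)
    rw [hxd] at key
    linear_combination r * s * (α + 3) * hss + 3 * key
  · -- ρ = -15/4
    exfalso
    have e : ρ = -15 / 4 := by linarith
    rw [e] at h4 h5
    have h8 : β = 15 / 4 * α := by
      have : (α * (-15 / 4) + β) ^ 2 = 0 := by rw [h5]; norm_num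
      have := pow_eq_zero_iff (two_ne_zero) |>.1 this
      linarith
    have hT : T = -(16 + α ^ 2) / 4 := by linarith
    rw [h8] at h4
    have hN' : N = 15 / 16 * α ^ 2 := by linarith
    rw [hT, hN'] at hD
    nlinarith [sq_nonneg (α ^ 2 - 14)]
  · -- ρ = 0
    exfalso
    have e : ρ = 0 := by linarith
    rw [e] at h4 hρ
    have hβ : β = 0 := by
      have : β ^ 2 = 0 := by rw [← h4]; ring
      exact pow_eq_zero_iff (two_ne_zero) |>.1 this
    rw [hβ] at h6
    have hN' : N = 15 := by linarith [show 4 * N = 60 by rw [h6]; linear_combination (4 * T) * hρ]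
    have hT : T = -(31 + α ^ 2) / 4 := by linarith
    rw [hT, hN'] at hD
    nlinarith [sq_nonneg α, sq_nonneg (α ^ 2)]
  · -- ρ = -5
    have e : ρ = -5 := by linarith
    rw [e] at h5
    have hx5 : x + 5 ≠ 0 := by
      have := hne (-5)
      push_cast at this
      rwa [sub_neg_eq_add] at this
    rcases eq_or_neg (show (α * (-5) + β) ^ 2 = 5 ^ 2 by rw [h5]; norm_num) with h8 | h8
    · right; right; right
      have h9 : β = 5 * α + 5 := by linarith
      rw [h9] at hy
      push_cast at hy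
      refine ⟨-(α + 5) / 2, ?_⟩
      push_cast
      apply mul_left_cancel₀ hx5
      linear_combination hc - (s - 2) / 2 * hy
    · left
      have h9 : β = 5 * α - 5 := by linarith
      rw [h9] at hy
      push_cast at hy
      refine ⟨(α - 1) / 2, ?_⟩
      push_cast
      apply mul_left_cancel₀ hx5
      linear_combination (1 / 2) * hy
  · -- ρ = -3
    exfalso
    have e : ρ = -3 := by linarith
    rw [e] at h4 h5
    have hT : T = -(19 + α ^ 2) / 4 := by linarith
    have hN' : N = β ^ 2 / 12 := by linarith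
    rw [hT, hN'] at hD
    rcases eq_or_neg (show (α * (-3) + β) ^ 2 = 3 ^ 2 by rw [h5]; norm_num) with h8 | h8
    · have h9 : β = 3 * α + 3 := by linarith
      rw [h9] at hD
      nlinarith [sq_nonneg (α ^ 2 - 12), sq_nonneg (14 * α - 48)]
    · have h9 : β = 3 * α - 3 := by linarith
      rw [h9] at hD
      nlinarith [sq_nonneg (α ^ 2 - 12), sq_nonneg (14 * α + 48)]

end over_K

end CS87
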