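import Pool.Agent.Lib.MP_87c685_nt_CS.NormTwo
import Pool.Agent.Lib.MP_87c685_nt_CS.PotTwo
import Pool.Agent.Lib.MP_87c685_nt_CS.Third
import Pool.Agent.Lib.MP_87c685_nt_RG.Final

/-!
# Potentially good reduction at a prime above two
-/

set_option autoImplicit false

open NumberField IsDedekindDomain

namespace CS87

variable {K : Type*} [Field K] [NumberField K]

/-- the end of the argument when `s` is rational -/
theorem endA (h2 : Module.finrank ℚ K = 2) (j G : K)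
    (h3 : G * j = (G + 27) * (G + 3) ^ 3) (r r' s s' : K)
    (hrr : r * r' = 9) (hss : s * s' = -1) (hsum : r + r' + s + s' + 5 = 0)
    (hG : G * (r ^ 3 * s ^ 2) = 729) (h : ∃ q : ℚ, s = q) :
    (∃ q : ℚ, j = q) ∨
      ∃ σ : K ≃ₐ[ℚ] K, σ ≠ 1 ∧ ∃ j1 : K, RG.Iso5 j j1 ∧ RG.Iso3 (σ j) j1 := by
  obtain ⟨σ, hσ⟩ := RG.exists_conj h2
  rcases RG.qA h2 σ hσ j G r r' s s' hrr hss hsum hG h3 h with h | h
  · exact Or.inl h
  · exact Or.inr ⟨σ, hσ, h⟩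

theorem endB (h2 : Module.finrank ℚ K = 2) (j k : K)
    (h5 : k * j = (k ^ 2 + 10 * k + 5) ^ 3) (r r' s s' : K)
    (hrr : r * r' = 5) (hss : s * s' = 3) (hsum : r + r' + s + s' + 1 = 0)
    (hk : k = r ^ 3) (h : ∃ q : ℚ, s = q) :
    (∃ q : ℚ, j = q) ∨ ∃ σ : K ≃ₐ[ℚ] K, σ ≠ 1 ∧ RG.Iso5 j (σ j) := by
  obtain ⟨σ, hσ⟩ := RG.exists_conj h2
  have hr0 : r ≠ 0 := by
    rintro rfl; rw [zero_mul] at hrr; norm_num at hrr
  obtain ⟨q, hq⟩ := h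
  have hs0 : s ≠ 0 := by
    rintro rfl; rw [zero_mul] at hss; norm_num at hss
  have er : 5 / r = r' := by rw [div_eq_iff hr0, mul_comm]; exact hrr.symm
  have es : s' = 3 / s := by rw [eq_div_iff hs0, mul_comm]; exact hss
  rcases RG.qB h2 σ hσ j k r hr0 hk h5 (-1 - q - 3 / q) (by
    rw [er]; push_cast; rw [← hq, ← es]; linear_combination hsum) with h | h
  · exact Or.inl h
  · exact Or.inr ⟨σ, hσ, h⟩

theorem altA [IsTotallyComplex K] (h2 : Module.finrank ℚ K = 2) (j G k : K)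
    (h5 : j * k = (k ^ 2 + 10 * k + 5) ^ 3) (h3 : j * G = (G + 27) * (G + 3) ^ 3)
    (w : HeightOneSpectrum (𝓞 K)) (hw : (2 : 𝓞 K) ∈ w.asIdeal)
    (hj : w.valuation K j ≤ 1)
    (hc : Ideal.absNorm w.asIdeal = 2 ∨ (Ideal.span {(5 : 𝓞 K)}).IsPrime) :
    (∃ q : ℚ, j = q) ∨
      ∃ σ : K ≃ₐ[ℚ] K, σ ≠ 1 ∧ ∃ j1 : K, RG.Iso5 j j1 ∧ RG.Iso3 (σ j) j1 := by
  have h5' : k * j = (k ^ 2 + 10 * k + 5) ^ 3 := by rw [mul_comm]; exact h5
  have h3' : G * j = (G + 27) * (G + 3) ^ 3 := by rw [mul_comm]; exact h3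
  rcases hc with hc | hI
  · exact (normTwoA h2 j G k h5' h3' w hc hj).elim
  · obtain ⟨r, r', s, s', hrr, hss, hsum, hG, hs⟩ := RG.dictA h2 j G k h5' h3'
    exact endA h2 j G h3' r r' s s' hrr hss hsum hG
      (potTwoA h2 j G k h5' h3' r r' s s' hrr hss hsum hG hs
        (thirdA h2 r r' s s' hrr hss hsum) w hw hj hI)

theorem altB [IsTotallyComplex K] (h2 : Module.finrank ℚ K = 2) (j c x k : K)
    (h5 : j * k = (k ^ 2 + 10 * k + 5) ^ 3) (h3 : c ^ 3 = j)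
    (hx : c * x = (x + 3) * (x - 9))
    (w : HeightOneSpectrum (𝓞 K)) (hw : (2 : 𝓞 K) ∈ w.asIdeal)
    (hj : w.valuation K j ≤ 1)
    (hc : Ideal.absNorm w.asIdeal = 2 ∨ (Ideal.span {(5 : 𝓞 K)}).IsPrime) :
    (∃ q : ℚ, j = q) ∨ ∃ σ : K ≃ₐ[ℚ] K, σ ≠ 1 ∧ RG.Iso5 j (σ j) := by
  have h5' : k * j = (k ^ 2 + 10 * k + 5) ^ 3 := by rw [mul_comm]; exact h5
  have ht : c * (x / 3) = 3 * (x / 3 + 1) * (x / 3 - 3) := by
    linear_combination (1 / 3) * hx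
  rcases hc with hc | hI
  · exact (normTwoB h2 j c (x / 3) k h5' h3 ht w hc hj).elim
  · obtain ⟨r, r', s, s', hrr, hss, hsum, hk, hcc, ht1, ht2⟩ := RG.dictB h2 j c (x / 3) k h5' h3 ht
    exact endB h2 j k h5' r r' s s' hrr hss hsum hk
      (potTwoB h2 j c (x / 3) k h5' h3 r r' s s' hrr hss hsum hk hcc ht1 ht2
        (thirdB h2 r r' s s' hrr hss hsum) w hw hj hI)

end CS87
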