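import Pool.Agent.Lib.MP_87c685_nt_CS.Fin

/-!
# A prime of non-integrality of `j` and of its conjugate
-/

set_option autoImplicit false
set_option linter.unusedSimpArgs false

open NumberField IsDedekindDomain

namespace CS87

section val

variable {K : Type*} [Field K] [CharZero K] {Γ₀ : Type*} [LinearOrderedCommGroupWithZero Γ₀]
  (v : Valuation K Γ₀)

theorem multA {j G r r' s s' : K} (h3 : j * G = (G + 27) * (G + 3) ^ 3)
    (hrr : r * r' = 9) (hss : s * s' = -1) (hsum : r + r' + s + s' + 5 = 0)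
    (hG : G * (r ^ 3 * s ^ 2) = 729) (hj : 1 < v j) : Mult v r r' s s' := by
  apply mult_of v (a := 9) (b := -1) (c := 5) (RG.v_ofNat v 9)
    (by rw [Valuation.map_neg, map_one]) (RG.v_ofNat v 5) hrr hss hsum
  intro h
  exact absurd (jA_int v h3 (RG.G_eq hrr hss hG) hG h) (not_le.2 hj)

theorem multB {j k r r' s s' : K} (h5 : j * k = (k ^ 2 + 10 * k + 5) ^ 3)
    (hrr : r * r' = 5) (hss : s * s' = 3) (hsum : r + r' + s + s' + 1 = 0)
    (hk : k = r ^ 3) (hj : 1 < v j) : Mult v r r' s s' := by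
  have hr0 : r ≠ 0 := by
    rintro rfl; rw [zero_mul] at hrr; norm_num at hrr
  have hk0 : k ≠ 0 := by rw [hk]; exact pow_ne_zero 3 hr0
  apply mult_of v (a := 5) (b := 3) (c := 1) (RG.v_ofNat v 5)
    (RG.v_ofNat v 3) (by rw [map_one]) hrr hss hsum
  intro h
  exact absurd (jB_int v h5 hk hk0 hrr h.1 h.2.1) (not_le.2 hj)

end val

variable {K : Type*} [Field K] [NumberField K]

section A

variable (h2 : Module.finrank ℚ K = 2) (σ : K ≃ₐ[ℚ] K) (hσ : σ ≠ 1)

include h2 hσ

/-- the last family has no odd prime at which both `j` and its conjugate are not integral -/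
theorem r4A {r r' s s' : K} (hrr : r * r' = 9) (hss : s * s' = -1)
    (hsum : r + r' + s + s' + 5 = 0) (hs : ∀ q : ℚ, s ≠ q)
    (hx : ∃ ρ : ℚ, r * s + 4 = ρ * (s - 2)) (w : HeightOneSpectrum (𝓞 K))
    (h22 : w.valuation K 2 = 1) (hm : Mult (w.valuation K) r r' s s')
    (hm' : Mult (w.valuation K) (σ r) (σ r') (σ s) (σ s')) : False := by
  obtain ⟨ρ, hρ⟩ := hx
  have hs2 : s - 2 ≠ 0 := by
    intro h
    exact hs 2 (by push_cast; linear_combination h)
  have hc : (r * s + 9) * s ^ 2 + 5 * (r * s) * s + r * s * (r * s - 1) = 0 := by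
    linear_combination (-s ^ 2 : K) * hrr - r * s * hss + r * s ^ 2 * hsum
  have hq : (ρ : K) * s ^ 2 + (ρ ^ 2 + 5 * ρ + 5) * s + (-((2 * ρ + 5) * (ρ + 2))) = 0 := by
    apply mul_left_cancel₀ hs2
    rw [mul_zero, ← hc]
    linear_combination (-(s ^ 2) - 5 * s - (r * s) - ρ * (s - 2) + 5) * hρ
  obtain ⟨e1, e2⟩ := quad_conj h2 σ hσ s _ _ _ (by simp only [map_add, map_sub, map_mul, map_pow, map_neg, map_ratCast, map_ofNat, map_one])
    (by simp only [map_add, map_sub, map_mul, map_pow, map_neg, map_ratCast, map_ofNat, map_one])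
    (by simp only [map_add, map_sub, map_mul, map_pow, map_neg, map_ratCast, map_ofNat, map_one]) hq hs
  refine locA1 (w.valuation K) hrr hss hsum (R := σ r) (R' := σ r') (S := σ s) (S' := σ s')
    ?_ ?_ ?_ hρ ?_ e1 e2 ?_ hm hm' (fun h => absurd h22 (ne_of_lt h))
  · rw [← map_mul, hrr, map_ofNat]
  · rw [← map_mul, hss, map_neg, map_one]
  · have e := congrArg σ hsum
    simp only [map_add, map_ofNat, map_one, map_zero] at e
    exact e
  · have e := congrArg σ hρ
    simp only [map_add, map_mul, map_sub, map_ratCast, map_ofNat] at e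
    exact e
  · intro h5 h
    have := disc_q (w.valuation K) (p := 5) (by norm_num) (by exact_mod_cast h5) ρ h
    exact_mod_cast this

theorem r4B {r r' s s' : K} (hrr : r * r' = 5) (hss : s * s' = 3)
    (hsum : r + r' + s + s' + 1 = 0) (hs : ∀ q : ℚ, s ≠ q)
    (hx : ∃ ρ : ℚ, r * s + 4 = ρ * (s - 2)) (w : HeightOneSpectrum (𝓞 K))
    (h22 : w.valuation K 2 = 1) (hm : Mult (w.valuation K) r r' s s')
    (hm' : Mult (w.valuation K) (σ r) (σ r') (σ s) (σ s')) : False := by
  obtain ⟨ρ, hρ⟩ := hx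
  have hs2 : s - 2 ≠ 0 := by
    intro h
    exact hs 2 (by push_cast; linear_combination h)
  have hc : (r * s + 5) * s ^ 2 + (r * s) * s + r * s * (r * s + 3) = 0 := by
    linear_combination (-s ^ 2 : K) * hrr - r * s * hss + r * s ^ 2 * hsum
  have hq : (ρ : K) * s ^ 2 + (ρ ^ 2 + 1 * ρ + 1) * s + (-((2 * ρ + 1) * (ρ + 2))) = 0 := by
    apply mul_left_cancel₀ hs2
    rw [mul_zero, ← hc]
    linear_combination (-(s ^ 2) - s - (r * s) - ρ * (s - 2) + 1) * hρ
  obtain ⟨e1, e2⟩ := quad_conj h2 σ hσ s _ _ _ (by simp only [map_add, map_sub, map_mul, map_pow, map_neg, map_ratCast, map_ofNat, map_one])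
    (by simp only [map_add, map_sub, map_mul, map_pow, map_neg, map_ratCast, map_ofNat, map_one])
    (by simp only [map_add, map_sub, map_mul, map_pow, map_neg, map_ratCast, map_ofNat, map_one]) hq hs
  refine locB1 (w.valuation K) hrr hss hsum (R := σ r) (R' := σ r') (S := σ s) (S' := σ s')
    ?_ ?_ ?_ hρ ?_ e1 e2 ?_ hm hm' (fun h => absurd h22 (ne_of_lt h))
  · rw [← map_mul, hrr, map_ofNat]
  · rw [← map_mul, hss, map_ofNat]
  · have e := congrArg σ hsum
    simp only [map_add, map_ofNat, map_one, map_zero] at e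
    exact e
  · have e := congrArg σ hρ
    simp only [map_add, map_mul, map_sub, map_ratCast, map_ofNat] at e
    exact e
  · intro h h3
    have := disc_q (w.valuation K) (p := 3) (by norm_num) (by exact_mod_cast h3) (ρ - 1)
      (by push_cast; exact h)
    push_cast at this
    exact this

/-- in the second family both points are near the first or the fourth cusp -/
theorem r1A {r r' s s' : K} (hrr : r * r' = 9) (hss : s * s' = -1)
    (hsum : r + r' + s + s' + 5 = 0) (hs : ∀ q : ℚ, s ≠ q) (hx : ∃ q : ℚ, r * s = q)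
    (w : HeightOneSpectrum (𝓞 K))
    (h22 : w.valuation K 2 = 1) (hm : Mult (w.valuation K) r r' s s')
    (hm' : Mult (w.valuation K) (σ r) (σ r') (σ s) (σ s')) :
    (1 < w.valuation K (r * s) ∧ 1 < w.valuation K (σ r * σ s)) ∨
      (1 < w.valuation K (r' * s') ∧ 1 < w.valuation K (σ r' * σ s')) := by
  obtain ⟨q, hq⟩ := hx
  have hc : ((q : K) + 9) * s ^ 2 + (5 * q) * s + q * (q - 1) = 0 := by
    rw [← hq]
    linear_combination (-s ^ 2 : K) * hrr - r * s * hss + r * s ^ 2 * hsum
  obtain ⟨e1, e2⟩ := quad_conj h2 σ hσ s _ _ _ (by simp only [map_add, map_sub, map_mul, map_pow, map_neg, map_ratCast, map_ofNat, map_one])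
    (by simp only [map_add, map_sub, map_mul, map_pow, map_neg, map_ratCast, map_ofNat, map_one])
    (by simp only [map_add, map_sub, map_mul, map_pow, map_neg, map_ratCast, map_ofNat, map_one]) hc hs
  have h9 : (q : K) + 9 ≠ 0 := by
    intro h
    rw [h, zero_mul] at e1
    have : (45 : K) = 0 := by linear_combination 5 * h - e1
    norm_num at this
  have hRR : σ r * σ r' = 9 := by rw [← map_mul, hrr, map_ofNat]
  have hSS : σ s * σ s' = -1 := by rw [← map_mul, hss, map_neg, map_one]
  have hSum : σ r + σ r' + σ s + σ s' + 5 = 0 := by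
    have e := congrArg σ hsum
    simp only [map_add, map_ofNat, map_one, map_zero] at e
    exact e
  have hX : σ r * σ s = q := by rw [← map_mul, hq, map_ratCast]
  obtain ⟨i1, i2⟩ := locA2 (w.valuation K) hrr hss hsum hRR hSS hSum hq hX
    (by rw [e1]; ring) (by rw [e2]) h9 (fun _ => hm') (fun h => absurd h22 (ne_of_lt h))
  have hq0 : (q : K) ≠ 0 := by
    rw [← hq]
    intro h
    have h0 : (9 : K) * (-1) = (r * s) * (r' * s') := by rw [← hrr, ← hss]; ring
    rw [h, zero_mul] at h0
    norm_num at h0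
  have hpr : r' * s' = σ r' * σ s' := by
    apply mul_left_cancel₀ hq0
    calc (q : K) * (r' * s') = (r * r') * (s * s') := by rw [← hq]; ring
      _ = (σ r * σ r') * (σ s * σ s') := by rw [hrr, hss, hRR, hSS]
      _ = q * (σ r' * σ s') := by rw [← hX]; ring
  rw [← hpr, hX, ← hq]
  rcases hm with h | h | h | h
  · exact Or.inl ⟨h, h⟩
  · exact absurd i1 (not_le.2 h)
  · exact absurd i2 (not_le.2 h)
  · exact Or.inr ⟨h, h⟩

theorem r1B {r r' s s' : K} (hrr : r * r' = 5) (hss : s * s' = 3)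
    (hsum : r + r' + s + s' + 1 = 0) (hs : ∀ q : ℚ, s ≠ q) (hx : ∃ q : ℚ, r * s = q)
    (w : HeightOneSpectrum (𝓞 K))
    (h22 : w.valuation K 2 = 1) (hm : Mult (w.valuation K) r r' s s')
    (hm' : Mult (w.valuation K) (σ r) (σ r') (σ s) (σ s')) :
    (1 < w.valuation K (r * s) ∧ 1 < w.valuation K (σ r * σ s)) ∨
      (1 < w.valuation K (r' * s') ∧ 1 < w.valuation K (σ r' * σ s')) := by
  obtain ⟨q, hq⟩ := hx
  have hc : ((q : K) + 5) * s ^ 2 + q * s + q * (q + 3) = 0 := by
    rw [← hq]
    linear_combination (-s ^ 2 : K) * hrr - r * s * hss + r * s ^ 2 * hsum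
  obtain ⟨e1, e2⟩ := quad_conj h2 σ hσ s _ _ _ (by simp only [map_add, map_sub, map_mul, map_pow, map_neg, map_ratCast, map_ofNat, map_one])
    (by simp only [map_add, map_sub, map_mul, map_pow, map_neg, map_ratCast, map_ofNat, map_one])
    (by simp only [map_add, map_sub, map_mul, map_pow, map_neg, map_ratCast, map_ofNat, map_one]) hc hs
  have h5 : (q : K) + 5 ≠ 0 := by
    intro h
    rw [h, zero_mul] at e1
    have : (5 : K) = 0 := by linear_combination h - e1
    norm_num at this
  have hRR : σ r * σ r' = 5 := by rw [← map_mul, hrr, map_ofNat]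
  have hSS : σ s * σ s' = 3 := by rw [← map_mul, hss, map_ofNat]
  have hSum : σ r + σ r' + σ s + σ s' + 1 = 0 := by
    have e := congrArg σ hsum
    simp only [map_add, map_ofNat, map_one, map_zero] at e
    exact e
  have hX : σ r * σ s = q := by rw [← map_mul, hq, map_ratCast]
  obtain ⟨i1, i2⟩ := locB2 (w.valuation K) hrr hss hsum hRR hSS hSum hq hX
    (by rw [e1]) (by rw [e2]) h5 (fun _ => hm') (fun h => absurd h22 (ne_of_lt h))
  have hq0 : (q : K) ≠ 0 := by
    rw [← hq]
    intro h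
    have h0 : (5 : K) * 3 = (r * s) * (r' * s') := by rw [← hrr, ← hss]; ring
    rw [h, zero_mul] at h0
    norm_num at h0
  have hpr : r' * s' = σ r' * σ s' := by
    apply mul_left_cancel₀ hq0
    calc (q : K) * (r' * s') = (r * r') * (s * s') := by rw [← hq]; ring
      _ = (σ r * σ r') * (σ s * σ s') := by rw [hrr, hss, hRR, hSS]
      _ = q * (σ r' * σ s') := by rw [← hX]; ring
  rw [← hpr, hX, ← hq]
  rcases hm with h | h | h | h
  · exact Or.inl ⟨h, h⟩
  · exact absurd i1 (not_le.2 h)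
  · exact absurd i2 (not_le.2 h)
  · exact Or.inr ⟨h, h⟩

end A

end CS87
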