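import Mathlib

/-!
# The conjugate of a prime
-/

set_option autoImplicit false

open NumberField IsDedekindDomain

namespace CS87

variable {K : Type*} [Field K] [NumberField K]

theorem exists_conj_prime (σ : K ≃ₐ[ℚ] K) (w : HeightOneSpectrum (𝓞 K)) :
    ∃ w' : HeightOneSpectrum (𝓞 K), ∀ z : K, w'.valuation K z = w.valuation K (σ z) := by
  let e : 𝓞 K ≃+* 𝓞 K := RingOfIntegers.mapRingEquiv (σ : K ≃+* K)
  have he : ∀ a : 𝓞 K, algebraMap (𝓞 K) K (e a) = σ (algebraMap (𝓞 K) K a) := fun a => rfl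
  let w' : HeightOneSpectrum (𝓞 K) :=
    HeightOneSpectrum.comap (e : 𝓞 K →+* 𝓞 K) e.surjective w
  have hmem : ∀ (a : 𝓞 K) (n : ℕ), a ∈ w'.asIdeal ^ n ↔ e a ∈ w.asIdeal ^ n := by
    intro a n
    have h1 : w'.asIdeal = Ideal.map (e.symm : 𝓞 K →+* 𝓞 K) w.asIdeal := by
      change Ideal.comap (e : 𝓞 K →+* 𝓞 K) w.asIdeal = _
      rw [Ideal.map_comap_of_equiv]
      rfl
    rw [h1, ← Ideal.map_pow, Ideal.map_comap_of_equiv]
    rfl
  have hle : ∀ (a : 𝓞 K) (n : ℕ), w'.intValuation a ≤ WithZero.exp (-(n : ℤ)) ↔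
      w.intValuation (e a) ≤ WithZero.exp (-(n : ℤ)) := by
    intro a n
    rw [HeightOneSpectrum.intValuation_le_pow_iff_mem, HeightOneSpectrum.intValuation_le_pow_iff_mem,
      hmem]
  have hint : ∀ a : 𝓞 K, w'.intValuation a = w.intValuation (e a) := by
    intro a
    by_cases ha : a = 0
    · rw [ha]; simp
    · have hea : e a ≠ 0 := by
        intro h; exact ha ((map_eq_zero_iff e e.injective).1 h)
      apply le_antisymm
      · have h1 := w.intValuation_if_neg hea
        rw [h1]
        rw [hle a]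
        exact h1.le
      · have h1 := w'.intValuation_if_neg ha
        rw [h1]
        rw [← hle a]
        exact h1.le
  refine ⟨w', fun z => ?_⟩
  obtain ⟨a, b, -, rfl⟩ := IsFractionRing.div_surjective (A := 𝓞 K) z
  rw [map_div₀, map_div₀, map_div₀, HeightOneSpectrum.valuation_of_algebraMap,
    HeightOneSpectrum.valuation_of_algebraMap, ← he, ← he,
    HeightOneSpectrum.valuation_of_algebraMap, HeightOneSpectrum.valuation_of_algebraMap,
    hint, hint]

/-- a prime which is the only one above 2 is its own conjugate -/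
theorem fixed_of_only (σ : K ≃ₐ[ℚ] K) (w : HeightOneSpectrum (𝓞 K)) (h2 : w.valuation K 2 < 1)
    (h : ∀ w' : HeightOneSpectrum (𝓞 K), w'.valuation K 2 < 1 → w' = w) (z : K) :
    w.valuation K (σ z) = w.valuation K z := by
  obtain ⟨w', hw'⟩ := exists_conj_prime σ w
  have h3 : w' = w := by
    apply h
    rw [hw', map_ofNat]
    exact h2
  rw [← hw', h3]

end CS87
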