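import Pool.Agent.Lib.MP_87c685_nt_CS.Fin

/-!
# A prime and its conjugate, both of potentially multiplicative reduction, of different types
-/

set_option autoImplicit false
set_option linter.unusedSimpArgs false
set_option linter.unusedSectionVars false

open NumberField IsDedekindDomain

namespace CS87

/-- the two points have the same type -/
def Same {K : Type*} [Field K] {Γ₀ : Type*} [LinearOrderedCommGroupWithZero Γ₀]
    (v : Valuation K Γ₀) (r r' s s' R R' S S' : K) : Prop :=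
  (1 < v (r * s) ∧ 1 < v (R * S)) ∨ (1 < v (r * s') ∧ 1 < v (R * S')) ∨
    (1 < v (r' * s) ∧ 1 < v (R' * S)) ∨ (1 < v (r' * s') ∧ 1 < v (R' * S'))

theorem same_of {K : Type*} [Field K] {Γ₀ : Type*} [LinearOrderedCommGroupWithZero Γ₀]
    (v : Valuation K Γ₀) {r r' s s' R R' S S' : K} (hx : r * s = R * S)
    (hM : Mult v r r' s s') (hM' : Mult v R R' S S')
    (h1 : v (r * s') ≤ 1 ∧ v (r' * s) ≤ 1) (h2 : v (R * S') ≤ 1 ∧ v (R' * S) ≤ 1) :
    Same v r r' s s' R R' S S' := by
  rcases hM with hM | hM | hM | hM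
  · exact Or.inl ⟨hM, by rw [← hx]; exact hM⟩
  · exact absurd hM (not_lt.2 h1.1)
  · exact absurd hM (not_lt.2 h1.2)
  · rcases hM' with hM' | hM' | hM' | hM'
    · exact Or.inl ⟨by rw [hx]; exact hM', hM'⟩
    · exact absurd hM' (not_lt.2 h2.1)
    · exact absurd hM' (not_lt.2 h2.2)
    · exact Or.inr (Or.inr (Or.inr ⟨hM, hM'⟩))

theorem Same.swap {K : Type*} [Field K] {Γ₀ : Type*} [LinearOrderedCommGroupWithZero Γ₀]
    {v : Valuation K Γ₀} {r r' s s' R R' S S' : K} (h : Same v r r' s s' R R' S S') :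
    Same v r r' s' s R R' S' S := by
  rcases h with h | h | h | h
  · exact Or.inr (Or.inl h)
  · exact Or.inl h
  · exact Or.inr (Or.inr (Or.inr h))
  · exact Or.inr (Or.inr (Or.inl h))

variable {K : Type*} [Field K] [NumberField K]

section A

variable [IsTotallyComplex K] (h2 : Module.finrank ℚ K = 2) (σ : K ≃ₐ[ℚ] K) (hσ : σ ≠ 1)
  (w : HeightOneSpectrum (𝓞 K)) (hw2 : w.valuation K 2 = 1)

include h2 hσ hw2

theorem sameA2 {r r' s s' : K} (hrr : r * r' = 9) (hss : s * s' = -1)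
    (hsum : r + r' + s + s' + 5 = 0) (hs : ∀ q : ℚ, s ≠ q) (hx : ∃ q : ℚ, r * s = q)
    (hM : Mult (w.valuation K) r r' s s')
    (hM' : Mult (w.valuation K) (σ r) (σ r') (σ s) (σ s')) :
    Same (w.valuation K) r r' s s' (σ r) (σ r') (σ s) (σ s') := by
  obtain ⟨q, hq⟩ := hx
  have hc : ((q : K) + 9) * s ^ 2 + (5 * q) * s + q * (q - 1) = 0 := by
    rw [← hq]
    linear_combination (-s ^ 2 : K) * hrr - r * s * hss + r * s ^ 2 * hsum
  obtain ⟨e1, e2⟩ := quad_conj h2 σ hσ s _ _ _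
    (by simp only [map_add, map_sub, map_mul, map_pow, map_neg, map_ratCast, map_ofNat, map_one])
    (by simp only [map_add, map_sub, map_mul, map_pow, map_neg, map_ratCast, map_ofNat, map_one])
    (by simp only [map_add, map_sub, map_mul, map_pow, map_neg, map_ratCast, map_ofNat, map_one])
    hc hs
  have h9 : (q : K) + 9 ≠ 0 := by
    intro h
    rw [h, zero_mul] at e1
    have : (45 : K) = 0 := by linear_combination 5 * h - e1
    norm_num at this
  have hRR : σ r * σ r' = 9 := by rw [← map_mul, hrr, map_ofNat]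
  have hSS : σ s * σ s' = -1 := by rw [← map_mul, hss, map_neg, map_one]
  have hSum : σ r + σ r' + σ s + σ s' + 5 = 0 := by
    have e := congrArg σ hsum
    simp only [map_add, map_ofNat, map_one, map_zero] at e
    exact e
  have hX : σ r * σ s = q := by rw [← map_mul, hq, map_ratCast]
  have hT : ∀ p : Prop, w.valuation K 2 < 1 → p := fun p h =>
    absurd h (not_lt.2 hw2.ge)
  apply same_of (w.valuation K) (by rw [hq, hX]) hM hM'
  · exact locA2 (w.valuation K) hrr hss hsum hRR hSS hSum hq hX (by rw [e1]; ring) e2 h9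
      (fun _ => hM') (hT _)
  · exact locA2 (w.valuation K) hRR hSS hSum hrr hss hsum hX hq
      (by rw [add_comm (σ s)]; rw [e1]; ring) (by rw [mul_comm (σ s)]; exact e2) h9
      (fun _ => hM) (hT _)

theorem sameA {r r' s s' : K} (hrr : r * r' = 9) (hss : s * s' = -1)
    (hsum : r + r' + s + s' + 5 = 0)
    (hM : Mult (w.valuation K) r r' s s')
    (hM' : Mult (w.valuation K) (σ r) (σ r') (σ s) (σ s')) :
    (∃ q : ℚ, s = q) ∨ Same (w.valuation K) r r' s s' (σ r) (σ r') (σ s) (σ s') := by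
  by_cases hs : ∃ q : ℚ, s = q
  · exact Or.inl hs
  push Not at hs
  have hss' : s' * s = -1 := by rw [mul_comm]; exact hss
  rcases thirdA h2 r r' s s' hrr hss hsum with ⟨q, hq⟩ | hx | hx | ⟨ρ, hρ⟩
  · exact absurd hq (hs q)
  · exact Or.inr (sameA2 h2 σ hσ w hw2 hrr hss hsum hs hx hM hM')
  · right
    have hs' : ∀ q : ℚ, s' ≠ q := by
      intro q hq
      have hs0 : s' ≠ 0 := by
        intro h; rw [h, mul_zero] at hss; norm_num at hss
      apply hs (-1 / q)
      push_cast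
      rw [← hq, eq_div_iff hs0]; exact hss
    exact (sameA2 h2 σ hσ w hw2 hrr hss' (by linear_combination hsum) hs' hx hM.swap
      hM'.swap).swap
  · exfalso
    have hs2 : s - 2 ≠ 0 := by
      intro h
      exact hs 2 (by push_cast; linear_combination h)
    have hc : (r * s + 9) * s ^ 2 + 5 * (r * s) * s + r * s * (r * s - 1) = 0 := by
      linear_combination (-s ^ 2 : K) * hrr - r * s * hss + r * s ^ 2 * hsum
    have hq : (ρ : K) * s ^ 2 + (ρ ^ 2 + 5 * ρ + 5) * s + (-((2 * ρ + 5) * (ρ + 2))) = 0 := by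
      apply mul_left_cancel₀ hs2
      rw [mul_zero, ← hc]
      linear_combination (-(s ^ 2) - 5 * s - (r * s) - ρ * (s - 2) + 5) * hρ
    obtain ⟨e1, e2⟩ := quad_conj h2 σ hσ s _ _ _
      (by simp only [map_add, map_sub, map_mul, map_pow, map_neg, map_ratCast, map_ofNat, map_one])
      (by simp only [map_add, map_sub, map_mul, map_pow, map_neg, map_ratCast, map_ofNat, map_one])
      (by simp only [map_add, map_sub, map_mul, map_pow, map_neg, map_ratCast, map_ofNat, map_one])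
      hq hs
    refine locA1 (w.valuation K) hrr hss hsum (R := σ r) (R' := σ r') (S := σ s) (S' := σ s')
      ?_ ?_ ?_ hρ ?_ e1 e2 ?_ hM hM' (fun h22 => absurd h22 (not_lt.2 hw2.ge))
    · rw [← map_mul, hrr, map_ofNat]
    · rw [← map_mul, hss, map_neg, map_one]
    · have e := congrArg σ hsum
      simp only [map_add, map_ofNat, map_one, map_zero] at e
      exact e
    · have e := congrArg σ hρ
      simp only [map_add, map_mul, map_sub, map_ratCast, map_ofNat] at e
      exact e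
    · intro h5 h
      have := disc_q (w.valuation K) (p := 5) (by norm_num) (by exact_mod_cast h5) ρ h
      exact_mod_cast this

end A

section B

variable [IsTotallyComplex K] (h2 : Module.finrank ℚ K = 2) (σ : K ≃ₐ[ℚ] K) (hσ : σ ≠ 1)
  (w : HeightOneSpectrum (𝓞 K)) (hw2 : w.valuation K 2 = 1)

include h2 hσ hw2

theorem sameB2 {r r' s s' : K} (hrr : r * r' = 5) (hss : s * s' = 3)
    (hsum : r + r' + s + s' + 1 = 0) (hs : ∀ q : ℚ, s ≠ q) (hx : ∃ q : ℚ, r * s = q)
    (hM : Mult (w.valuation K) r r' s s')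
    (hM' : Mult (w.valuation K) (σ r) (σ r') (σ s) (σ s')) :
    Same (w.valuation K) r r' s s' (σ r) (σ r') (σ s) (σ s') := by
  obtain ⟨q, hq⟩ := hx
  have hc : ((q : K) + 5) * s ^ 2 + q * s + q * (q + 3) = 0 := by
    rw [← hq]
    linear_combination (-s ^ 2 : K) * hrr - r * s * hss + r * s ^ 2 * hsum
  obtain ⟨e1, e2⟩ := quad_conj h2 σ hσ s _ _ _
    (by simp only [map_add, map_sub, map_mul, map_pow, map_neg, map_ratCast, map_ofNat, map_one])
    (by simp only [map_add, map_sub, map_mul, map_pow, map_neg, map_ratCast, map_ofNat, map_one])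
    (by simp only [map_add, map_sub, map_mul, map_pow, map_neg, map_ratCast, map_ofNat, map_one])
    hc hs
  have h5 : (q : K) + 5 ≠ 0 := by
    intro h
    rw [h, zero_mul] at e1
    have : (5 : K) = 0 := by linear_combination h - e1
    norm_num at this
  have hRR : σ r * σ r' = 5 := by rw [← map_mul, hrr, map_ofNat]
  have hSS : σ s * σ s' = 3 := by rw [← map_mul, hss, map_ofNat]
  have hSum : σ r + σ r' + σ s + σ s' + 1 = 0 := by
    have e := congrArg σ hsum
    simp only [map_add, map_ofNat, map_one, map_zero] at e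
    exact e
  have hX : σ r * σ s = q := by rw [← map_mul, hq, map_ratCast]
  have hT : ∀ p : Prop, w.valuation K 2 < 1 → p := fun p h =>
    absurd h (not_lt.2 hw2.ge)
  apply same_of (w.valuation K) (by rw [hq, hX]) hM hM'
  · exact locB2 (w.valuation K) hrr hss hsum hRR hSS hSum hq hX e1 e2 h5
      (fun _ => hM') (hT _)
  · exact locB2 (w.valuation K) hRR hSS hSum hrr hss hsum hX hq
      (by rw [add_comm (σ s)]; exact e1) (by rw [mul_comm (σ s)]; exact e2) h5
      (fun _ => hM) (hT _)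

theorem sameB {r r' s s' : K} (hrr : r * r' = 5) (hss : s * s' = 3)
    (hsum : r + r' + s + s' + 1 = 0)
    (hM : Mult (w.valuation K) r r' s s')
    (hM' : Mult (w.valuation K) (σ r) (σ r') (σ s) (σ s')) :
    (∃ q : ℚ, s = q) ∨ Same (w.valuation K) r r' s s' (σ r) (σ r') (σ s) (σ s') := by
  by_cases hs : ∃ q : ℚ, s = q
  · exact Or.inl hs
  push Not at hs
  have hss' : s' * s = 3 := by rw [mul_comm]; exact hss
  rcases thirdB h2 r r' s s' hrr hss hsum with ⟨q, hq⟩ | hx | hx | ⟨ρ, hρ⟩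
  · exact absurd hq (hs q)
  · exact Or.inr (sameB2 h2 σ hσ w hw2 hrr hss hsum hs hx hM hM')
  · right
    have hs' : ∀ q : ℚ, s' ≠ q := by
      intro q hq
      have hs0 : s' ≠ 0 := by
        intro h; rw [h, mul_zero] at hss; norm_num at hss
      apply hs (3 / q)
      push_cast
      rw [← hq, eq_div_iff hs0]; exact hss
    exact (sameB2 h2 σ hσ w hw2 hrr hss' (by linear_combination hsum) hs' hx hM.swap
      hM'.swap).swap
  · exfalso
    have hs2 : s - 2 ≠ 0 := by
      intro h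
      exact hs 2 (by push_cast; linear_combination h)
    have hc : (r * s + 5) * s ^ 2 + (r * s) * s + r * s * (r * s + 3) = 0 := by
      linear_combination (-s ^ 2 : K) * hrr - r * s * hss + r * s ^ 2 * hsum
    have hq : (ρ : K) * s ^ 2 + (ρ ^ 2 + 1 * ρ + 1) * s + (-((2 * ρ + 1) * (ρ + 2))) = 0 := by
      apply mul_left_cancel₀ hs2
      rw [mul_zero, ← hc]
      linear_combination (-(s ^ 2) - s - (r * s) - ρ * (s - 2) + 1) * hρ
    obtain ⟨e1, e2⟩ := quad_conj h2 σ hσ s _ _ _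
      (by simp only [map_add, map_sub, map_mul, map_pow, map_neg, map_ratCast, map_ofNat, map_one])
      (by simp only [map_add, map_sub, map_mul, map_pow, map_neg, map_ratCast, map_ofNat, map_one])
      (by simp only [map_add, map_sub, map_mul, map_pow, map_neg, map_ratCast, map_ofNat, map_one])
      hq hs
    refine locB1 (w.valuation K) hrr hss hsum (R := σ r) (R' := σ r') (S := σ s) (S' := σ s')
      ?_ ?_ ?_ hρ ?_ e1 e2 ?_ hM hM' (fun h22 => absurd h22 (not_lt.2 hw2.ge))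
    · rw [← map_mul, hrr, map_ofNat]
    · rw [← map_mul, hss, map_ofNat]
    · have e := congrArg σ hsum
      simp only [map_add, map_ofNat, map_one, map_zero] at e
      exact e
    · have e := congrArg σ hρ
      simp only [map_add, map_mul, map_sub, map_ratCast, map_ofNat] at e
      exact e
    · intro h h3
      have := disc_q (w.valuation K) (p := 3) (by norm_num) (by exact_mod_cast h3) (ρ - 1)
        (by push_cast; exact h)
      push_cast at this
      exact this

end B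

/-- some odd prime and its conjugate are of potentially multiplicative reduction and of different
types -/
def DiffTypes (j x k : K) : Prop :=
  ∃ (σ : K ≃ₐ[ℚ] K) (w : HeightOneSpectrum (𝓞 K)), w.valuation K 2 = 1 ∧
    1 < w.valuation K j ∧ 1 < w.valuation K (σ j) ∧
    ¬ ((1 < w.valuation K x ↔ 1 < w.valuation K (σ x)) ∧
      (1 < w.valuation K k ↔ 1 < w.valuation K (σ k)))

theorem diff_A [IsTotallyComplex K] (h2 : Module.finrank ℚ K = 2) (j G k : K)
    (h5 : j * k = (k ^ 2 + 10 * k + 5) ^ 3) (h3 : j * G = (G + 27) * (G + 3) ^ 3)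
    (hD : DiffTypes j G k) :
    (∃ q : ℚ, j = q) ∨
      (∃ σ : K ≃ₐ[ℚ] K, σ ≠ 1 ∧ ∃ j1 : K, RG.Iso5 j j1 ∧ RG.Iso3 (σ j) j1) := by
  obtain ⟨σ, w, hw2, hj1, hj2, hne⟩ := hD
  have hσ : σ ≠ 1 := by
    rintro rfl
    exact hne ⟨Iff.rfl, Iff.rfl⟩
  have h5' : k * j = (k ^ 2 + 10 * k + 5) ^ 3 := by rw [mul_comm]; exact h5
  have h3' : G * j = (G + 27) * (G + 3) ^ 3 := by rw [mul_comm]; exact h3
  obtain ⟨r, r', s, s', hrr, hss, hsum, hG, hs⟩ := RG.dictA h2 j G k h5' h3'
  have hGe : G = r' ^ 3 * s' ^ 2 := RG.G_eq hrr hss hG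
  have hRR : σ r * σ r' = 9 := by rw [← map_mul, hrr, map_ofNat]
  have hSS : σ s * σ s' = -1 := by rw [← map_mul, hss, map_neg, map_one]
  have hSum : σ r + σ r' + σ s + σ s' + 5 = 0 := by
    have e := congrArg σ hsum
    simp only [map_add, map_ofNat, map_one, map_zero] at e
    exact e
  have hG' : σ G * (σ r ^ 3 * σ s ^ 2) = 729 := by
    have e := congrArg σ hG
    simp only [map_mul, map_add, map_pow, map_ofNat] at e
    exact e
  have h3s : σ G * σ j = (σ G + 27) * (σ G + 3) ^ 3 := by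
    have e := congrArg σ h3'
    simp only [map_mul, map_add, map_pow, map_ofNat] at e
    exact e
  have h5s : σ k * σ j = (σ k ^ 2 + 10 * σ k + 5) ^ 3 := by
    have e := congrArg σ h5'
    simp only [map_mul, map_add, map_pow, map_ofNat] at e
    exact e
  have hss' : σ s * ((σ G + 3) * (σ k ^ 2 + 4 * σ k - 1)) =
      σ G ^ 2 + 18 * σ G - 3 * σ k * (σ k ^ 2 + 13 * σ k + 35) := by
    have e := congrArg σ hs
    simp only [map_mul, map_add, map_sub, map_pow, map_ofNat, map_one] at e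
    exact e
  have m1 : Mult (w.valuation K) r r' s s' := by
    apply mult_of (w.valuation K) (a := 9) (b := -1) (c := 5) (RG.v_ofNat _ 9)
      (by rw [Valuation.map_neg, map_one]) (RG.v_ofNat _ 5) hrr hss hsum
    intro h
    exact absurd (jA_int (w.valuation K) h3 hGe hG h) (not_le.2 hj1)
  have m2 : Mult (w.valuation K) (σ r) (σ r') (σ s) (σ s') := by
    apply mult_of (w.valuation K) (a := 9) (b := -1) (c := 5) (RG.v_ofNat _ 9)
      (by rw [Valuation.map_neg, map_one]) (RG.v_ofNat _ 5) hRR hSS hSum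
    intro h
    exact absurd (jA_int (w.valuation K) (by rw [mul_comm]; exact h3s)
      (RG.G_eq hRR hSS hG') hG' h) (not_le.2 hj2)
  rcases sameA h2 σ hσ w hw2 hrr hss hsum m1 m2 with h | h
  · rcases RG.qA h2 σ hσ j G r r' s s' hrr hss hsum hG h3' h with h | h
    · exact Or.inl h
    · exact Or.inr ⟨σ, hσ, h⟩
  · exfalso
    apply hne
    rcases h with ⟨a, b⟩ | ⟨a, b⟩ | ⟨a, b⟩ | ⟨a, b⟩
    · obtain ⟨-, a2, a3⟩ := RG.cuspA1 (w.valuation K) h3' h5' hrr hss hsum hG hs a
      obtain ⟨-, b2, b3⟩ := RG.cuspA1 (w.valuation K) h3s h5s hRR hSS hSum hG' hss' b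
      exact ⟨iff_of_false a2 b2, iff_of_true a3 b3⟩
    · obtain ⟨-, a2, a3⟩ := RG.cuspA3 (w.valuation K) h3' hrr hss hsum hG hs a
      obtain ⟨-, b2, b3⟩ := RG.cuspA3 (w.valuation K) h3s hRR hSS hSum hG' hss' b
      exact ⟨iff_of_false a2 b2, iff_of_false a3 b3⟩
    · obtain ⟨-, a2, a3⟩ := RG.cuspA2 (w.valuation K) h3' h5' hrr hss hsum hG hs a
      obtain ⟨-, b2, b3⟩ := RG.cuspA2 (w.valuation K) h3s h5s hRR hSS hSum hG' hss' b
      exact ⟨iff_of_true a2 b2, iff_of_false a3 b3⟩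
    · obtain ⟨-, a2, a3⟩ := RG.cuspA4 (w.valuation K) h3' h5' hrr hss hsum hG hs a
      obtain ⟨-, b2, b3⟩ := RG.cuspA4 (w.valuation K) h3s h5s hRR hSS hSum hG' hss' b
      exact ⟨iff_of_true a2 b2, iff_of_true a3 b3⟩

theorem diff_B [IsTotallyComplex K] (h2 : Module.finrank ℚ K = 2) (j c x k : K)
    (h5 : j * k = (k ^ 2 + 10 * k + 5) ^ 3) (h3 : c ^ 3 = j)
    (hx : c * x = (x + 3) * (x - 9)) (hD : DiffTypes j x k) :
    (∃ q : ℚ, j = q) ∨ (∃ σ : K ≃ₐ[ℚ] K, σ ≠ 1 ∧ RG.Iso5 j (σ j)) := by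
  obtain ⟨σ, w, hw2, hj1, hj2, hne⟩ := hD
  have hσ : σ ≠ 1 := by
    rintro rfl
    exact hne ⟨Iff.rfl, Iff.rfl⟩
  have h5' : k * j = (k ^ 2 + 10 * k + 5) ^ 3 := by rw [mul_comm]; exact h5
  obtain ⟨t, ht0⟩ : ∃ t, t = x / 3 := ⟨_, rfl⟩
  have h3t : 3 * t = x := by rw [ht0]; ring
  have ht : c * t = 3 * (t + 1) * (t - 3) := by
    rw [ht0]
    linear_combination (1 / 3) * hx
  obtain ⟨r, r', s, s', hrr, hss, hsum, hk, hc, ht1, ht2⟩ := RG.dictB h2 j c t k h5' h3 ht
  have hr0 : r ≠ 0 := by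
    rintro rfl; rw [zero_mul] at hrr; norm_num at hrr
  have hk0 : k ≠ 0 := by rw [hk]; exact pow_ne_zero 3 hr0
  have hRR : σ r * σ r' = 5 := by rw [← map_mul, hrr, map_ofNat]
  have hSS : σ s * σ s' = 3 := by rw [← map_mul, hss, map_ofNat]
  have hSum : σ r + σ r' + σ s + σ s' + 1 = 0 := by
    have e := congrArg σ hsum
    simp only [map_add, map_one, map_zero] at e
    exact e
  have hk' : σ k = σ r ^ 3 := by rw [hk, map_pow]
  have hc' : σ c = σ r ^ 5 + 10 * σ r ^ 2 + σ r' := by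
    have e := congrArg σ hc
    simp only [map_mul, map_add, map_pow, map_ofNat] at e
    exact e
  have h3s : σ c ^ 3 = σ j := by rw [← map_pow, h3]
  have h5s : σ k * σ j = (σ k ^ 2 + 10 * σ k + 5) ^ 3 := by
    have e := congrArg σ h5'
    simp only [map_mul, map_add, map_pow, map_ofNat] at e
    exact e
  have ht1s : σ s' * (σ r ^ 4 - σ r ^ 3 + 2 * σ r ^ 2 + σ r + 1) =
      -(3 * σ t + 3 * σ r * (σ r ^ 2 - 2 * σ r + 2)) := by
    have e := congrArg σ ht1
    simp only [map_mul, map_add, map_sub, map_neg, map_pow, map_ofNat, map_one] at e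
    exact e
  have ht2s : σ t * (σ s * (σ r ^ 4 - σ r ^ 3 + 2 * σ r ^ 2 + σ r + 1) +
      3 * σ r * (σ r ^ 2 - 2 * σ r + 2)) = 9 := by
    have e := congrArg σ ht2
    simp only [map_mul, map_add, map_sub, map_neg, map_pow, map_ofNat, map_one] at e
    exact e
  have m1 : Mult (w.valuation K) r r' s s' := by
    apply mult_of (w.valuation K) (a := 5) (b := 3) (c := 1) (RG.v_ofNat _ 5)
      (RG.v_ofNat _ 3) (by rw [map_one]) hrr hss hsum
    intro h
    exact absurd (jB_int (w.valuation K) h5 hk hk0 hrr h.1 h.2.1) (not_le.2 hj1)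
  have m2 : Mult (w.valuation K) (σ r) (σ r') (σ s) (σ s') := by
    apply mult_of (w.valuation K) (a := 5) (b := 3) (c := 1) (RG.v_ofNat _ 5)
      (RG.v_ofNat _ 3) (by rw [map_one]) hRR hSS hSum
    intro h
    exact absurd (jB_int (w.valuation K) (by rw [mul_comm]; exact h5s) hk'
      ((map_ne_zero σ).2 hk0) hRR h.1 h.2.1) (not_le.2 hj2)
  rcases sameB h2 σ hσ w hw2 hrr hss hsum m1 m2 with ⟨q, hq⟩ | h
  · have hs0 : s ≠ 0 := by
      rintro rfl; rw [zero_mul] at hss; norm_num at hss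
    have er : 5 / r = r' := by rw [div_eq_iff hr0, mul_comm]; exact hrr.symm
    have es : s' = 3 / s := by rw [eq_div_iff hs0, mul_comm]; exact hss
    rcases RG.qB h2 σ hσ j k r hr0 hk h5' (-1 - q - 3 / q) (by
      rw [er]; push_cast; rw [← hq, ← es]; linear_combination hsum) with h | h
    · exact Or.inl h
    · exact Or.inr ⟨σ, hσ, h⟩
  · exfalso
    apply hne
    have hxs : 3 * σ t = σ x := by
      rw [← h3t, map_mul, map_ofNat]
    rw [← hxs, ← h3t]
    rcases h with ⟨a, b⟩ | ⟨a, b⟩ | ⟨a, b⟩ | ⟨a, b⟩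
    · obtain ⟨-, a2, a3⟩ := RG.cuspB1 (w.valuation K) h5' hrr hss hsum hk ht2 a
      obtain ⟨-, b2, b3⟩ := RG.cuspB1 (w.valuation K) h5s hRR hSS hSum hk' ht2s b
      exact ⟨iff_of_false a2 b2, iff_of_true a3 b3⟩
    · obtain ⟨-, a2, a3⟩ := RG.cuspB3 (w.valuation K) h5' hrr hss hsum hk ht1 a
      obtain ⟨-, b2, b3⟩ := RG.cuspB3 (w.valuation K) h5s hRR hSS hSum hk' ht1s b
      exact ⟨iff_of_true a2 b2, iff_of_true a3 b3⟩
    · obtain ⟨-, a2, a3⟩ := RG.cuspB2 (w.valuation K) hrr hss hsum hk h3 hc ht2 a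
      obtain ⟨-, b2, b3⟩ := RG.cuspB2 (w.valuation K) hRR hSS hSum hk' h3s hc' ht2s b
      exact ⟨iff_of_false a2 b2, iff_of_false a3 b3⟩
    · obtain ⟨-, a2, a3⟩ := RG.cuspB4 (w.valuation K) hrr hss hsum hk h3 hc ht1 a
      obtain ⟨-, b2, b3⟩ := RG.cuspB4 (w.valuation K) hRR hSS hSum hk' h3s hc' ht1s b
      exact ⟨iff_of_true a2 b2, iff_of_false a3 b3⟩

end CS87
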