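import Pool.Agent.Lib.MP_87c685_nt_CS.Unst

/-!
# Elliptic curves with a 5-isogeny, the primes of potentially multiplicative reduction being stable
under conjugation
-/

set_option autoImplicit false
set_option linter.unusedSimpArgs false

open NumberField IsDedekindDomain

namespace CS87

section val

variable {K : Type*} [Field K] {Γ₀ : Type*} [LinearOrderedCommGroupWithZero Γ₀]
  (v : Valuation K Γ₀)

/-- `j` is integral at an integral point of `X_0(15)` -/
theorem jA_int [CharZero K] {G j r r' s s' : K} (h3 : j * G = (G + 27) * (G + 3) ^ 3)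
    (hG : G = r' ^ 3 * s' ^ 2) (hG' : G * (r ^ 3 * s ^ 2) = 729)
    (h : v r ≤ 1 ∧ v r' ≤ 1 ∧ v s ≤ 1 ∧ v s' ≤ 1) : v j ≤ 1 := by
  obtain ⟨a, b, c, d⟩ := h
  have hG0 : G ≠ 0 := by
    rintro rfl; rw [zero_mul] at hG'; norm_num at hG'
  have e : j = (G ^ 3 + 36 * G ^ 2 + 270 * G + 756) + r ^ 3 * s ^ 2 := by
    apply mul_right_cancel₀ hG0
    rw [h3]
    linear_combination -hG'
  have g : v G ≤ 1 := by
    rw [hG, map_mul, map_pow, map_pow]
    exact mul_le_one' (pow_le_one' b 3) (pow_le_one' d 2)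
  rw [e]
  apply v.map_add_le
  · apply v.map_add_le
    · apply v.map_add_le
      · apply v.map_add_le
        · rw [map_pow]; exact pow_le_one' g 3
        · rw [map_mul, map_pow]; exact mul_le_one' (RG.v_ofNat v 36) (pow_le_one' g 2)
      · rw [map_mul]; exact mul_le_one' (RG.v_ofNat v 270) g
    · exact RG.v_ofNat v 756
  · rw [map_mul, map_pow, map_pow]
    exact mul_le_one' (pow_le_one' a 3) (pow_le_one' c 2)

/-- `j` is integral at an integral point of `X(s3, b5)` -/
theorem jB_int [CharZero K] {j k r r' : K} (h5 : j * k = (k ^ 2 + 10 * k + 5) ^ 3)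
    (hk : k = r ^ 3) (hk0 : k ≠ 0) (hrr : r * r' = 5) (a : v r ≤ 1) (b : v r' ≤ 1) : v j ≤ 1 := by
  have e : j = (k ^ 5 + 30 * k ^ 4 + 315 * k ^ 3 + 1300 * k ^ 2 + 1575 * k + 750) + r' ^ 3 := by
    apply mul_right_cancel₀ hk0
    have e3 : r' ^ 3 * k = 125 := by
      rw [hk, mul_comm, ← mul_pow, hrr]; norm_num
    rw [h5, add_mul, e3]
    ring
  have g : v k ≤ 1 := by
    rw [hk, map_pow]; exact pow_le_one' a 3
  rw [e]
  apply v.map_add_le
  · apply v.map_add_le
    · apply v.map_add_le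
      · apply v.map_add_le
        · apply v.map_add_le
          · apply v.map_add_le
            · rw [map_pow]; exact pow_le_one' g 5
            · rw [map_mul, map_pow]; exact mul_le_one' (RG.v_ofNat v 30) (pow_le_one' g 4)
          · rw [map_mul, map_pow]; exact mul_le_one' (RG.v_ofNat v 315) (pow_le_one' g 3)
        · rw [map_mul, map_pow]; exact mul_le_one' (RG.v_ofNat v 1300) (pow_le_one' g 2)
      · rw [map_mul]; exact mul_le_one' (RG.v_ofNat v 1575) g
    · exact RG.v_ofNat v 750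
  · rw [map_pow]; exact pow_le_one' b 3

end val

variable {K : Type*} [Field K] [NumberField K]

theorem fixed_iff (σ : K ≃ₐ[ℚ] K) {j : K} (hS : ConjStable j) (w : HeightOneSpectrum (𝓞 K))
    (hw : 1 < w.valuation K j) (h22 : w.valuation K 2 < 1) (z : K) :
    w.valuation K z < 1 ↔ w.valuation K (σ z) < 1 := by
  rw [fixed_of_only σ w h22 (fun w' hw' => hS.2 w w' hw h22 hw') z]

theorem stable_A [IsTotallyComplex K] (h2 : Module.finrank ℚ K = 2) (j G k : K)
    (h5 : j * k = (k ^ 2 + 10 * k + 5) ^ 3) (h3 : j * G = (G + 27) * (G + 3) ^ 3)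
    (hS : ConjStable j) :
    (∃ q : ℚ, j = q) ∨
      (∃ σ : K ≃ₐ[ℚ] K, σ ≠ 1 ∧ ∃ j1 : K, RG.Iso5 j j1 ∧ RG.Iso3 (σ j) j1) ∨
      ∃ p ∈ RG.exceptions.take 4, (p.1 : K) * j ^ 2 + (p.2.1 : K) * j + (p.2.2 : K) = 0 := by
  by_cases hj : ∃ q : ℚ, j = q
  · exact Or.inl hj
  have hj' : ∀ q : ℚ, j ≠ q := by
    push Not at hj
    exact hj
  obtain ⟨σ, hσ⟩ := RG.exists_conj h2
  have h5' : k * j = (k ^ 2 + 10 * k + 5) ^ 3 := by rw [mul_comm]; exact h5
  have h3' : G * j = (G + 27) * (G + 3) ^ 3 := by rw [mul_comm]; exact h3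
  obtain ⟨r, r', s, s', hrr, hss, hsum, hG, hs⟩ := RG.dictA h2 j G k h5' h3'
  have hGe : G = r' ^ 3 * s' ^ 2 := RG.G_eq hrr hss hG
  have toj : ∀ w : HeightOneSpectrum (𝓞 K), Mult (w.valuation K) r r' s s' →
      1 < w.valuation K j := by
    intro w hw
    rcases hw with hw | hw | hw | hw
    · exact (RG.cuspA1 (w.valuation K) h3' h5' hrr hss hsum hG hs hw).1
    · exact (RG.cuspA3 (w.valuation K) h3' hrr hss hsum hG hs hw).1
    · exact (RG.cuspA2 (w.valuation K) h3' h5' hrr hss hsum hG hs hw).1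
    · exact (RG.cuspA4 (w.valuation K) h3' h5' hrr hss hsum hG hs hw).1
  have hM : ∀ w : HeightOneSpectrum (𝓞 K), Mult (w.valuation K) r r' s s' →
      Mult (w.valuation K) (σ r) (σ r') (σ s) (σ s') := by
    intro w hw
    have hj1 := hS.1 σ w (toj w hw)
    apply mult_of (w.valuation K) (a := 9) (b := -1) (c := 5) (RG.v_ofNat _ 9)
      (by rw [Valuation.map_neg, map_one]) (RG.v_ofNat _ 5)
    · rw [← map_mul, hrr, map_ofNat]
    · rw [← map_mul, hss, map_neg, map_one]
    · have e := congrArg σ hsum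
      simp only [map_add, map_ofNat, map_zero] at e
      exact e
    · intro h
      refine absurd (jA_int (w.valuation K) (j := σ j) (G := σ G) ?_ ?_ ?_ h) (not_le.2 hj1)
      · have e := congrArg σ h3
        simp only [map_mul, map_add, map_pow, map_ofNat] at e
        exact e
      · have e := congrArg σ hGe
        simp only [map_mul, map_add, map_pow, map_ofNat] at e
        exact e
      · have e := congrArg σ hG
        simp only [map_mul, map_add, map_pow, map_ofNat] at e
        exact e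
  rcases stabA h2 σ hσ hrr hss hsum hM (fun w hw h22 z => fixed_iff σ hS w (toj w hw) h22 z)
    with h | h
  · rcases RG.qA h2 σ hσ j G r r' s s' hrr hss hsum hG h3' h with h | h
    · exact Or.inl h
    · exact Or.inr (Or.inl ⟨σ, hσ, h⟩)
  · have hG0 : G ≠ 0 := by
      rintro rfl; rw [zero_mul] at hG; norm_num at hG
    have key : (∃ q : ℚ, j = q) ∨
        ∃ p ∈ RG.exceptions, (p.1 : K) * j ^ 2 + (p.2.1 : K) * j + (p.2.2 : K) = 0 := by
      rcases h with h | h | h | h | h
      · exact RG.jA1 hrr hss hsum hGe hG0 h3 h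
      · exact RG.jA2 hrr hss hsum hGe hG0 h3 h
      · exact RG.jA3 hrr hss hsum hGe hG0 h3 h
      · exact RG.jA4 hrr hss hsum hGe hG0 h3 h
      · exact RG.jA5 hrr hss hsum hGe hG0 h3 h
    rcases key with h | h
    · exact Or.inl h
    · exact Or.inr (Or.inr (drop_exc h2 j hS hj' h))

theorem stable_B [IsTotallyComplex K] (h2 : Module.finrank ℚ K = 2) (j c x k : K)
    (h5 : j * k = (k ^ 2 + 10 * k + 5) ^ 3) (h3 : c ^ 3 = j)
    (hx : c * x = (x + 3) * (x - 9)) (hS : ConjStable j) :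
    (∃ q : ℚ, j = q) ∨ (∃ σ : K ≃ₐ[ℚ] K, σ ≠ 1 ∧ RG.Iso5 j (σ j)) ∨
      ∃ p ∈ RG.exceptions.take 4, (p.1 : K) * j ^ 2 + (p.2.1 : K) * j + (p.2.2 : K) = 0 := by
  by_cases hj : ∃ q : ℚ, j = q
  · exact Or.inl hj
  have hj' : ∀ q : ℚ, j ≠ q := by
    push Not at hj
    exact hj
  obtain ⟨σ, hσ⟩ := RG.exists_conj h2
  have h5' : k * j = (k ^ 2 + 10 * k + 5) ^ 3 := by rw [mul_comm]; exact h5
  have ht : c * (x / 3) = 3 * (x / 3 + 1) * (x / 3 - 3) := by
    linear_combination (1 / 3) * hx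
  obtain ⟨r, r', s, s', hrr, hss, hsum, hk, hc, ht1, ht2⟩ := RG.dictB h2 j c (x / 3) k h5' h3 ht
  have hr0 : r ≠ 0 := by
    rintro rfl; rw [zero_mul] at hrr; norm_num at hrr
  have hk0 : k ≠ 0 := by rw [hk]; exact pow_ne_zero 3 hr0
  have toj : ∀ w : HeightOneSpectrum (𝓞 K), Mult (w.valuation K) r r' s s' →
      1 < w.valuation K j := by
    intro w hw
    rcases hw with hw | hw | hw | hw
    · exact (RG.cuspB1 (w.valuation K) h5' hrr hss hsum hk ht2 hw).1
    · exact (RG.cuspB3 (w.valuation K) h5' hrr hss hsum hk ht1 hw).1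
    · exact (RG.cuspB2 (w.valuation K) hrr hss hsum hk h3 hc ht2 hw).1
    · exact (RG.cuspB4 (w.valuation K) hrr hss hsum hk h3 hc ht1 hw).1
  have hM : ∀ w : HeightOneSpectrum (𝓞 K), Mult (w.valuation K) r r' s s' →
      Mult (w.valuation K) (σ r) (σ r') (σ s) (σ s') := by
    intro w hw
    have hj1 := hS.1 σ w (toj w hw)
    apply mult_of (w.valuation K) (a := 5) (b := 3) (c := 1) (RG.v_ofNat _ 5)
      (RG.v_ofNat _ 3) (by rw [map_one])
    · rw [← map_mul, hrr, map_ofNat]
    · rw [← map_mul, hss, map_ofNat]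
    · have e := congrArg σ hsum
      simp only [map_add, map_one, map_zero] at e
      exact e
    · intro h
      refine absurd (jB_int (w.valuation K) (j := σ j) (k := σ k) (r := σ r) (r' := σ r')
        ?_ ?_ ?_ ?_ h.1 h.2.1) (not_le.2 hj1)
      · have e := congrArg σ h5
        simp only [map_mul, map_add, map_pow, map_ofNat] at e
        exact e
      · have e := congrArg σ hk
        simp only [map_mul, map_add, map_pow, map_ofNat] at e
        exact e
      · exact (map_ne_zero σ).2 hk0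
      · rw [← map_mul, hrr, map_ofNat]
  rcases stabB h2 σ hσ hrr hss hsum hM (fun w hw h22 z => fixed_iff σ hS w (toj w hw) h22 z)
    with ⟨q, hq⟩ | h
  · have hs0 : s ≠ 0 := by
      rintro rfl; rw [zero_mul] at hss; norm_num at hss
    have er : 5 / r = r' := by rw [div_eq_iff hr0, mul_comm]; exact hrr.symm
    have es : s' = 3 / s := by rw [eq_div_iff hs0, mul_comm]; exact hss
    rcases RG.qB h2 σ hσ j k r hr0 hk h5' (-1 - q - 3 / q) (by
      rw [er]; push_cast; rw [← hq, ← es]; linear_combination hsum) with h | h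
    · exact Or.inl h
    · exact Or.inr (Or.inl ⟨σ, hσ, h⟩)
  · have key : (∃ q : ℚ, j = q) ∨
        ∃ p ∈ RG.exceptions, (p.1 : K) * j ^ 2 + (p.2.1 : K) * j + (p.2.2 : K) = 0 := by
      right
      rcases h with h | h | h
      · exact RG.jB1 hrr hsum hk hk0 h5 h
      · exact RG.jB2 hrr hsum hk hk0 h5 h
      · exact RG.jB3 hrr hsum hk hk0 h5 h
    rcases key with h | h
    · exact Or.inl h
    · exact Or.inr (Or.inr (drop_exc h2 j hS hj' h))

end CS87
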