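import Pool.Agent.Lib.MP_87c685_nt_CS.Nonsplit
import Pool.Agent.Lib.MP_87c685_nt_CS.Fin

/-!
# The first four exceptional quadratics: their roots generate the field of the fourth roots of unity
-/

set_option autoImplicit false

open NumberField IsDedekindDomain

namespace CS87

variable {K : Type*} [Field K] [CharZero K]

theorem sqrt_neg_one (j : K) (p q r m : ℤ) (hm : m ≠ 0) (hd : q ^ 2 - 4 * p * r = -m ^ 2)
    (h : (p : K) * j ^ 2 + (q : K) * j + (r : K) = 0) : ∃ x : K, x ^ 2 = -1 := by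
  have hm' : (m : K) ≠ 0 := by exact_mod_cast hm
  refine ⟨(2 * p * j + q) / m, ?_⟩
  rw [div_pow, div_eq_iff (pow_ne_zero 2 hm')]
  have hd' : (q : K) ^ 2 - 4 * p * r = -(m : K) ^ 2 := by exact_mod_cast hd
  linear_combination 4 * (p : K) * h + hd'

theorem sqrt_neg_one_of_exc (j : K)
    (h : ∃ p ∈ RG.exceptions.take 4, (p.1 : K) * j ^ 2 + (p.2.1 : K) * j + (p.2.2 : K) = 0) :
    ∃ x : K, x ^ 2 = -1 := by
  obtain ⟨p, hp, h⟩ := h
  simp only [RG.exceptions, List.take_succ_cons, List.take_zero, List.mem_cons,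
    List.not_mem_nil, or_false] at hp
  rcases hp with rfl | rfl | rfl | rfl
  · exact sqrt_neg_one j _ _ _ 109361448 (by norm_num) (by norm_num) h
  · exact sqrt_neg_one j _ _ _ 346572 (by norm_num) (by norm_num) h
  · exact sqrt_neg_one j _ _ _ 396522 (by norm_num) (by norm_num) h
  · exact sqrt_neg_one j _ _ _ 3932928 (by norm_num) (by norm_num) h

end CS87
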