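import Pool.Agent.Lib.MP_87c685_nt_CS.Fourth
import Pool.Agent.Lib.MP_87c685_nt_CS.ConjPrime
import Pool.Agent.Lib.MP_87c685_nt_RG.Final

/-!
# The fourth family on the first curve forces three to split
-/

set_option autoImplicit false

open NumberField IsDedekindDomain

namespace CS87

variable {K : Type*} [Field K] [NumberField K]

theorem fourthA_gen (hF : ∀ a b : ℤ, IsCoprime a b → ∀ δ : K,
      δ ^ 2 = (((a ^ 2 + a * b - b ^ 2) * (a ^ 2 - 11 * a * b - b ^ 2) : ℤ) : K) →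
      ∃ q : ℚ, δ = q)
    (r r' s s' : K) (hrr : r * r' = 9) (hss : s * s' = -1) (hsum : r + r' + s + s' + 5 = 0)
    (ρ : ℚ) (hρ : r * s + 4 = ρ * (s - 2)) :
    (∃ q : ℚ, s = q) ∨ ∃ q : ℚ, r * s = q := by
  by_cases hρ0 : ρ = 0
  · right
    exact ⟨-4, by rw [hρ0] at hρ; push_cast at hρ ⊢; linear_combination hρ⟩
  by_cases hs2 : s = 2
  · left; exact ⟨2, by rw [hs2]; push_cast; rfl⟩
  have hρK : (ρ : K) ≠ 0 := by exact_mod_cast hρ0
  have hs2' : s - 2 ≠ 0 := sub_ne_zero.2 hs2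
  have hcurve : r ^ 2 * s + 9 * s + r * s ^ 2 - r + 5 * r * s = 0 := by
    linear_combination r * s * hsum - s * hrr - r * hss
  have e1 : ρ * (2 * s + 2 * r + 5) = -5 * (r + 2) := by
    apply mul_left_cancel₀ hs2'
    linear_combination -(2 * s + 2 * r + 5) * hρ + 2 * hcurve
  obtain ⟨l, hl⟩ : ∃ l : ℚ, l = -5 / ρ - 2 := ⟨_, rfl⟩
  have hlK : (l : K) = -5 / ρ - 2 := by rw [hl]; push_cast; ring
  have e2 : 2 * s + 1 = l * (r + 2) := by
    rw [hlK]
    field_simp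
    linear_combination e1
  by_cases hr2 : r + 2 = 0
  · left
    refine ⟨-1 / 2, ?_⟩
    rw [hr2, mul_zero] at e2
    push_cast
    linear_combination e2 / 2
  have hQ : (l : K) * (l + 2) * r ^ 2 + (2 * l ^ 2 + 8 * l - 2) * r + 9 * (2 * l - 1) = 0 := by
    apply mul_left_cancel₀ hr2
    have hm : s = (l * (r + 2) - 1) / 2 := by linear_combination e2 / 2
    rw [hm] at hcurve
    linear_combination 4 * hcurve
  obtain ⟨a, ha⟩ : ∃ a : ℤ, a = l.num := ⟨_, rfl⟩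
  obtain ⟨b, hb⟩ : ∃ b : ℤ, b = (l.den : ℤ) := ⟨_, rfl⟩
  have hb0 : (b : K) ≠ 0 := by
    rw [hb]; exact_mod_cast l.den_nz
  have hlab : (l : K) = a / b := by
    rw [ha, hb]
    have : l = (l.num : ℚ) / (l.den : ℚ) := (Rat.num_div_den l).symm
    conv_lhs => rw [this]
    push_cast; ring
  have hQ' : (a : K) * (a + 2 * b) * r ^ 2 + (2 * a ^ 2 + 8 * a * b - 2 * b ^ 2) * r +
      9 * (2 * a - b) * b = 0 := by
    have h1 : (b : K) ^ 2 * ((l : K) * (l + 2) * r ^ 2 + (2 * l ^ 2 + 8 * l - 2) * r +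
      9 * (2 * l - 1)) = 0 := by rw [hQ, mul_zero]
    rw [hlab] at h1
    field_simp at h1
    linear_combination h1
  have hδ : ((a : K) * (a + 2 * b) * r + (a ^ 2 + 4 * a * b - b ^ 2)) ^ 2 =
      (((a ^ 2 + a * b - b ^ 2) * (a ^ 2 - 11 * a * b - b ^ 2) : ℤ) : K) := by
    push_cast
    linear_combination (a : K) * (a + 2 * b) * hQ'
  have hab : IsCoprime a b := by rw [ha, hb]; exact coprime_rat l
  obtain ⟨q, hq⟩ := hF a b hab _ hδ
  left
  by_cases hl0 : l = 0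
  · refine ⟨-1 / 2, ?_⟩
    rw [hl0] at e2
    push_cast at e2 ⊢
    linear_combination e2 / 2
  have hl2 : l + 2 ≠ 0 := by
    rw [hl]
    have : (-5 : ℚ) / ρ ≠ 0 := div_ne_zero (by norm_num) hρ0
    intro h; apply this; linear_combination h
  have hl0K : (l : K) ≠ 0 := by exact_mod_cast hl0
  have hl2K : (l : K) + 2 ≠ 0 := by exact_mod_cast hl2
  have ha0 : (a : K) ≠ 0 := by
    intro h; apply hl0K; rw [hlab, h, zero_div]
  have ha2 : (a : K) + 2 * b ≠ 0 := by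
    intro h; apply hl2K; rw [hlab]; field_simp; linear_combination h
  have hr : r = (((q - (a ^ 2 + 4 * a * b - b ^ 2)) / (a * (a + 2 * b)) : ℚ) : K) := by
    push_cast
    rw [eq_div_iff (mul_ne_zero ha0 ha2)]
    linear_combination hq
  refine ⟨(l * ((q - (a ^ 2 + 4 * a * b - b ^ 2)) / (a * (a + 2 * b)) + 2) - 1) / 2, ?_⟩
  have hm : s = (l * (r + 2) - 1) / 2 := by linear_combination e2 / 2
  rw [hm, hr]
  push_cast
  ring

theorem v_three_lt (w : HeightOneSpectrum (𝓞 K)) (hw : (3 : 𝓞 K) ∈ w.asIdeal) :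
    w.valuation K (3 : K) < 1 := by
  have h2 : w.valuation K (algebraMap (𝓞 K) K 3) < 1 :=
    (HeightOneSpectrum.valuation_lt_one_iff_mem (K := K) w (3 : 𝓞 K)).2 hw
  rwa [map_ofNat] at h2

theorem mem_three_of (w : HeightOneSpectrum (𝓞 K)) (hw : w.valuation K (3 : K) < 1) :
    (3 : 𝓞 K) ∈ w.asIdeal := by
  apply (HeightOneSpectrum.valuation_lt_one_iff_mem (K := K) w (3 : 𝓞 K)).1
  have e : algebraMap (𝓞 K) K 3 = 3 := map_ofNat _ 3
  change w.valuation K (algebraMap (𝓞 K) K 3) < 1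
  rw [e]
  exact hw

theorem exists_three (h2 : Module.finrank ℚ K = 2) :
    ∃ w : HeightOneSpectrum (𝓞 K), (3 : 𝓞 K) ∈ w.asIdeal := by
  have hu : ¬ IsUnit (3 : 𝓞 K) := by
    intro hu
    have h1 : Algebra.norm ℤ (3 : 𝓞 K) = 9 := by
      have e : (3 : 𝓞 K) = algebraMap ℤ (𝓞 K) 3 := by simp
      rw [e, Algebra.norm_algebraMap, RingOfIntegers.rank, h2]
      norm_num
    have h3 := IsUnit.map (Algebra.norm ℤ : 𝓞 K →* ℤ) hu
    rw [h1] at h3
    exact absurd (Int.isUnit_iff.1 h3) (by norm_num)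
  obtain ⟨M, hM, h3⟩ := exists_max_ideal_of_mem_nonunits (show (3 : 𝓞 K) ∈ nonunits _ from hu)
  refine ⟨⟨M, hM.isPrime, ?_⟩, h3⟩
  rintro rfl
  rw [Ideal.mem_bot] at h3
  norm_num at h3

theorem three_only (h2 : Module.finrank ℚ K = 2)
    (h3 : ∀ v v' : HeightOneSpectrum (𝓞 K), (3 : 𝓞 K) ∈ v.asIdeal → (3 : 𝓞 K) ∈ v'.asIdeal → v = v')
    (t : ℤ) (δ : K) (hδ : δ ^ 2 = ((3 * t + 1 : ℤ) : K)) : ∃ q : ℚ, δ = q := by
  by_contra hq
  push Not at hq
  obtain ⟨σ, hσ⟩ := RG.exists_conj h2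
  obtain ⟨w, hw⟩ := exists_three (K := K) h2
  have hv3 := v_three_lt w hw
  have hfix : ∀ z : K, w.valuation K (σ z) = w.valuation K z := by
    intro z
    obtain ⟨w', hw'⟩ := exists_conj_prime σ w
    have h4 : w' = w := by
      apply h3 _ _ _ hw
      apply mem_three_of
      rw [hw', map_ofNat]
      exact hv3
    rw [← hw', h4]
  have hsσ : σ δ = -δ := by
    have e1 : (σ δ) ^ 2 = δ ^ 2 := by
      rw [← map_pow, hδ, map_intCast]
    rcases sq_eq_sq_iff_eq_or_eq_neg.1 e1 with h | h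
    · obtain ⟨q, hq'⟩ := RG.fix_rat h2 σ hσ δ h
      exact absurd hq' (hq q)
    · exact h
  have e : (δ - 1) * (δ + 1) = 3 * (t : K) := by
    push_cast at hδ
    linear_combination hδ
  have l : w.valuation K ((δ - 1) * (δ + 1)) < 1 := by
    rw [e, map_mul]
    exact mul_lt_one_of_lt_of_le hv3 (RG.v_int _ t)
  have c1 : w.valuation K (δ + 1) = w.valuation K (δ - 1) := by
    rw [← hfix (δ - 1), map_sub, hsσ, map_one, ← Valuation.map_neg]
    congr 1
    ring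
  have c2 : w.valuation K (δ - 1) < 1 := by
    by_contra h
    push Not at h
    rw [map_mul, c1] at l
    exact absurd l (not_lt.2 (one_le_mul h h))
  have c3 : w.valuation K (1 : K) < 1 := by
    have e1 : (1 : K) = 3 + ((δ - 1) - (δ + 1)) := by ring
    rw [e1]
    apply Valuation.map_add_lt _ hv3
    apply Valuation.map_sub_lt _ c2
    rw [c1]; exact c2
  rw [map_one] at c3
  exact lt_irrefl _ c3

theorem form_three (a b : ℤ) (hab : IsCoprime a b) :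
    ∃ t : ℤ, (a ^ 2 + a * b - b ^ 2) * (a ^ 2 - 11 * a * b - b ^ 2) = 3 * t + 1 := by
  have h : ((a ^ 2 + a * b - b ^ 2) * (a ^ 2 - 11 * a * b - b ^ 2)) % 3 = 1 := by
    have h0 : ¬ (a % 3 = 0 ∧ b % 3 = 0) := by
      rintro ⟨ha, hb⟩
      have := hab.isUnit_of_dvd' (Int.dvd_of_emod_eq_zero ha) (Int.dvd_of_emod_eq_zero hb)
      exact absurd (Int.isUnit_iff.1 this) (by norm_num)
    have ha : a % 3 = 0 ∨ a % 3 = 1 ∨ a % 3 = 2 := by omega
    have hb : b % 3 = 0 ∨ b % 3 = 1 ∨ b % 3 = 2 := by omega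
    rcases ha with ha | ha | ha <;> rcases hb with hb | hb | hb
    · exact absurd ⟨ha, hb⟩ h0
    all_goals simp [Int.mul_emod, Int.sub_emod, Int.add_emod, pow_two, ha, hb]
  exact ⟨((a ^ 2 + a * b - b ^ 2) * (a ^ 2 - 11 * a * b - b ^ 2)) / 3, by omega⟩

theorem fourthA3 (h2 : Module.finrank ℚ K = 2)
    (h3 : ∀ v v' : HeightOneSpectrum (𝓞 K), (3 : 𝓞 K) ∈ v.asIdeal → (3 : 𝓞 K) ∈ v'.asIdeal → v = v')
    (r r' s s' : K) (hrr : r * r' = 9) (hss : s * s' = -1) (hsum : r + r' + s + s' + 5 = 0)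
    (ρ : ℚ) (hρ : r * s + 4 = ρ * (s - 2)) :
    (∃ q : ℚ, s = q) ∨ ∃ q : ℚ, r * s = q := by
  apply fourthA_gen (fun a b hab δ hδ => ?_) r r' s s' hrr hss hsum ρ hρ
  obtain ⟨t, ht⟩ := form_three a b hab
  rw [ht] at hδ
  exact three_only h2 h3 t δ hδ

end CS87
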