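import Pool.Agent.Lib.MP_87c685_nt_CS.Both
import Pool.Agent.Lib.MP_87c685_nt_CS.AltC
import Pool.Agent.Lib.MP_87c685_nt_CS.SplitThree

/-!
# `j` integral at a prime above two
-/

set_option autoImplicit false
set_option linter.unusedSimpArgs false

open NumberField IsDedekindDomain

namespace CS87

/-- `j` is integral at a prime `w` above 2; moreover `w` has norm 2, or 5 is inert, or there is a
prime at which neither `j` nor its conjugate is integral. -/
def GoodAtTwo {K : Type*} [Field K] [NumberField K] (j : K) : Prop :=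
  ∃ w : HeightOneSpectrum (𝓞 K), w.valuation K 2 < 1 ∧ w.valuation K j ≤ 1 ∧
    (Ideal.absNorm w.asIdeal = 2 ∨ (Ideal.span {(5 : 𝓞 K)}).IsPrime ∨
      ∃ (σ : K ≃ₐ[ℚ] K) (v : HeightOneSpectrum (𝓞 K)), σ ≠ 1 ∧
        1 < v.valuation K j ∧ 1 < v.valuation K (σ j))

/-- `j` is integral at a prime above 2, and there is only one prime above 3. -/
def GoodAtTwo' {K : Type*} [Field K] [NumberField K] (j : K) : Prop :=
  (∃ w : HeightOneSpectrum (𝓞 K), w.valuation K 2 < 1 ∧ w.valuation K j ≤ 1) ∧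
    ∀ v v' : HeightOneSpectrum (𝓞 K), v.valuation K 3 < 1 → v'.valuation K 3 < 1 → v = v'

variable {K : Type*} [Field K] [NumberField K]

theorem mem_two_of (w : HeightOneSpectrum (𝓞 K)) (hw : w.valuation K (2 : K) < 1) :
    (2 : 𝓞 K) ∈ w.asIdeal := by
  apply (HeightOneSpectrum.valuation_lt_one_iff_mem (K := K) w (2 : 𝓞 K)).1
  have e : algebraMap (𝓞 K) K 2 = 2 := map_ofNat _ 2
  change w.valuation K (algebraMap (𝓞 K) K 2) < 1
  rw [e]
  exact hw

theorem norm_two_of_ne (h2 : Module.finrank ℚ K = 2) (w v : HeightOneSpectrum (𝓞 K))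
    (hw : (2 : 𝓞 K) ∈ w.asIdeal) (hv : (2 : 𝓞 K) ∈ v.asIdeal) (hne : w ≠ v) :
    Ideal.absNorm w.asIdeal = 2 := by
  have hwm := w.isMaximal
  have hvm := v.isMaximal
  have hne' : w.asIdeal ≠ v.asIdeal := fun h => hne (HeightOneSpectrum.ext h)
  have hcop : IsCoprime w.asIdeal v.asIdeal := by
    rw [Ideal.isCoprime_iff_sup_eq]
    exact hwm.coprime_of_ne hvm hne'
  have d1 : w.asIdeal ∣ Ideal.span {(2 : 𝓞 K)} := by
    rw [Ideal.dvd_span_singleton]; exact hw
  have d2 : v.asIdeal ∣ Ideal.span {(2 : 𝓞 K)} := by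
    rw [Ideal.dvd_span_singleton]; exact hv
  have d := hcop.mul_dvd d1 d2
  have n : Ideal.absNorm (Ideal.span {(2 : 𝓞 K)}) = 4 := by
    rw [Ideal.absNorm_span_singleton]
    have e : (2 : 𝓞 K) = algebraMap ℤ (𝓞 K) 2 := by simp
    rw [e, Algebra.norm_algebraMap, RingOfIntegers.rank, h2]
    norm_num
  have dn : Ideal.absNorm (w.asIdeal * v.asIdeal) ∣ 4 := by
    rw [← n]; exact map_dvd Ideal.absNorm d
  rw [map_mul] at dn
  have w1 : Ideal.absNorm w.asIdeal ≠ 1 := fun h => hwm.ne_top (Ideal.absNorm_eq_one_iff.1 h)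
  have v1 : Ideal.absNorm v.asIdeal ≠ 1 := fun h => hvm.ne_top (Ideal.absNorm_eq_one_iff.1 h)
  have hle : Ideal.absNorm w.asIdeal * Ideal.absNorm v.asIdeal ≤ 4 :=
    Nat.le_of_dvd (by norm_num) dn
  have hpos : Ideal.absNorm w.asIdeal * Ideal.absNorm v.asIdeal ≠ 0 := by
    intro h; rw [h] at dn; norm_num at dn
  obtain ⟨a, b⟩ := mul_ne_zero_iff.1 hpos
  have hw2 : 2 ≤ Ideal.absNorm w.asIdeal := by omega
  have hv2 : 2 ≤ Ideal.absNorm v.asIdeal := by omega
  nlinarith

/-- an odd prime, if the norm of `w` is not 2 -/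
theorem odd_of (h2 : Module.finrank ℚ K = 2) (w v : HeightOneSpectrum (𝓞 K)) (j : K)
    (hw : (2 : 𝓞 K) ∈ w.asIdeal) (hn : Ideal.absNorm w.asIdeal ≠ 2)
    (hj : w.valuation K j ≤ 1) (hv : 1 < v.valuation K j) : v.valuation K 2 = 1 := by
  apply le_antisymm (RG.v_ofNat _ 2)
  by_contra h
  push Not at h
  apply hn
  apply norm_two_of_ne h2 w v hw (mem_two_of v h)
  rintro rfl
  exact absurd hj (not_le.2 hv)

theorem goodTwo_A [IsTotallyComplex K] (h2 : Module.finrank ℚ K = 2) (j G k : K)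
    (h5 : j * k = (k ^ 2 + 10 * k + 5) ^ 3) (h3 : j * G = (G + 27) * (G + 3) ^ 3)
    (hg : GoodAtTwo j ∨ GoodAtTwo' j) :
    (∃ q : ℚ, j = q) ∨
      ∃ σ : K ≃ₐ[ℚ] K, σ ≠ 1 ∧ ∃ j1 : K, RG.Iso5 j j1 ∧ RG.Iso3 (σ j) j1 := by
  have h5' : k * j = (k ^ 2 + 10 * k + 5) ^ 3 := by rw [mul_comm]; exact h5
  have h3' : G * j = (G + 27) * (G + 3) ^ 3 := by rw [mul_comm]; exact h3
  rcases hg with ⟨w, hw, hj, hc⟩ | ⟨⟨w, hw, hj⟩, hu⟩
  · have hw' := mem_two_of w hw
    by_cases hn : Ideal.absNorm w.asIdeal = 2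
    · exact (normTwoA h2 j G k h5' h3' w hn hj).elim
    rcases hc with hc | hI | ⟨σ, v, hσ, hv, hv'⟩
    · exact absurd hc hn
    · exact altA h2 j G k h5 h3 w hw' hj (Or.inr hI)
    · obtain ⟨r, r', s, s', hrr, hss, hsum, hG, hs⟩ := RG.dictA h2 j G k h5' h3'
      apply endA h2 j G h3' r r' s s' hrr hss hsum hG
      by_contra hsq
      have hsq' : ∀ q : ℚ, s ≠ q := by
        push Not at hsq; exact hsq
      obtain ⟨-, h | h⟩ := potTwoA' j G k h5' h3' r r' s s' hrr hss hsum hG hs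
        (thirdA h2 r r' s s' hrr hss hsum) w hw' hj
      · exact hsq h
      · have hv2 := odd_of h2 w v j hw' hn hj hv
        refine r4A h2 σ hσ hrr hss hsum hsq' h v hv2
          (multA (v.valuation K) h3 hrr hss hsum hG hv) ?_
        apply multA (v.valuation K) (j := σ j) (G := σ G) _ _ _ _ _ hv'
        · have e := congrArg σ h3
          simp only [map_mul, map_add, map_pow, map_ofNat] at e
          exact e
        · rw [← map_mul, hrr, map_ofNat]
        · rw [← map_mul, hss, map_neg, map_one]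
        · have e := congrArg σ hsum
          simp only [map_add, map_ofNat, map_zero] at e
          exact e
        · have e := congrArg σ hG
          simp only [map_mul, map_add, map_pow, map_ofNat] at e
          exact e
  · have hw' := mem_two_of w hw
    obtain ⟨r, r', s, s', hrr, hss, hsum, hG, hs⟩ := RG.dictA h2 j G k h5' h3'
    apply endA h2 j G h3' r r' s s' hrr hss hsum hG
    obtain ⟨hn, h | ⟨ρ, h⟩⟩ := potTwoA' j G k h5' h3' r r' s s' hrr hss hsum hG hs
      (thirdA h2 r r' s s' hrr hss hsum) w hw' hj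
    · exact h
    · rcases fourthA3 h2 (fun v v' hv hv' => hu v v' (v_three_lt v hv) (v_three_lt v' hv'))
        r r' s s' hrr hss hsum ρ h with h | h
      · exact h
      · exact absurd h hn

theorem goodTwo_B [IsTotallyComplex K] (h2 : Module.finrank ℚ K = 2) (j c x k : K)
    (h5 : j * k = (k ^ 2 + 10 * k + 5) ^ 3) (h3 : c ^ 3 = j)
    (hx : c * x = (x + 3) * (x - 9)) (hg : GoodAtTwo j) :
    (∃ q : ℚ, j = q) ∨ ∃ σ : K ≃ₐ[ℚ] K, σ ≠ 1 ∧ RG.Iso5 j (σ j) := by
  have h5' : k * j = (k ^ 2 + 10 * k + 5) ^ 3 := by rw [mul_comm]; exact h5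
  have ht : c * (x / 3) = 3 * (x / 3 + 1) * (x / 3 - 3) := by
    linear_combination (1 / 3) * hx
  obtain ⟨w, hw, hj, hc⟩ := hg
  have hw' := mem_two_of w hw
  by_cases hn : Ideal.absNorm w.asIdeal = 2
  · exact (normTwoB h2 j c (x / 3) k h5' h3 ht w hn hj).elim
  rcases hc with hc | hI | ⟨σ, v, hσ, hv, hv'⟩
  · exact absurd hc hn
  · exact altB h2 j c x k h5 h3 hx w hw' hj (Or.inr hI)
  · obtain ⟨r, r', s, s', hrr, hss, hsum, hk, hcc, ht1, ht2⟩ :=
      RG.dictB h2 j c (x / 3) k h5' h3 ht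
    apply endB h2 j k h5' r r' s s' hrr hss hsum hk
    by_contra hsq
    have hsq' : ∀ q : ℚ, s ≠ q := by
      push Not at hsq; exact hsq
    obtain ⟨-, h | h⟩ := potTwoB' j c (x / 3) k h5' h3 r r' s s' hrr hss hsum hk hcc ht1 ht2
      (thirdB h2 r r' s s' hrr hss hsum) w hw' hj
    · exact hsq h
    · have hv2 := odd_of h2 w v j hw' hn hj hv
      refine r4B h2 σ hσ hrr hss hsum hsq' h v hv2
        (multB (v.valuation K) h5 hrr hss hsum hk hv) ?_
      apply multB (v.valuation K) (j := σ j) (k := σ k) _ _ _ _ _ hv'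
      · have e := congrArg σ h5
        simp only [map_mul, map_add, map_pow, map_ofNat] at e
        exact e
      · rw [← map_mul, hrr, map_ofNat]
      · rw [← map_mul, hss, map_ofNat]
      · have e := congrArg σ hsum
        simp only [map_add, map_one, map_zero] at e
        exact e
      · rw [hk, map_pow]

end CS87
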