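import Pool.Agent.Lib.MP_87c685_nt_RG.Final
import Pool.Agent.Lib.MP_87c685_nt_RG.Good

/-!
# Quadratic fields in which five is inert
-/

set_option autoImplicit false

open NumberField IsDedekindDomain

namespace CS87

variable {K : Type*} [Field K] [NumberField K]

omit [NumberField K] in
theorem inert_mul (h5 : (Ideal.span {(5 : 𝓞 K)}).IsPrime) (x y z : K) (hx : IsIntegral ℤ x)
    (hy : IsIntegral ℤ y) (hz : IsIntegral ℤ z) (h : x * y = 5 * z) :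
    (∃ t : K, IsIntegral ℤ t ∧ x = 5 * t) ∨ ∃ t : K, IsIntegral ℤ t ∧ y = 5 * t := by
  obtain ⟨X, hX⟩ : ∃ X : 𝓞 K, algebraMap (𝓞 K) K X = x := ⟨⟨x, hx⟩, rfl⟩
  obtain ⟨Y, hY⟩ : ∃ Y : 𝓞 K, algebraMap (𝓞 K) K Y = y := ⟨⟨y, hy⟩, rfl⟩
  obtain ⟨Z, hZ⟩ : ∃ Z : 𝓞 K, algebraMap (𝓞 K) K Z = z := ⟨⟨z, hz⟩, rfl⟩
  have h1 : X * Y = 5 * Z := by
    apply FaithfulSMul.algebraMap_injective (𝓞 K) K
    rw [map_mul, map_mul, map_ofNat, hX, hY, hZ, h]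
  have h2 : X * Y ∈ Ideal.span {(5 : 𝓞 K)} := by
    rw [h1, Ideal.mem_span_singleton]; exact dvd_mul_right _ _
  rcases h5.mem_or_mem h2 with h | h
  · left
    rw [Ideal.mem_span_singleton] at h
    obtain ⟨T, hT⟩ := h
    refine ⟨algebraMap (𝓞 K) K T, T.2, ?_⟩
    rw [← hX, hT, map_mul, map_ofNat]
  · right
    rw [Ideal.mem_span_singleton] at h
    obtain ⟨T, hT⟩ := h
    refine ⟨algebraMap (𝓞 K) K T, T.2, ?_⟩
    rw [← hY, hT, map_mul, map_ofNat]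

theorem int_dvd (m : ℤ) (t : K) (ht : IsIntegral ℤ t) (h : (m : K) = 5 * t) : (5 : ℤ) ∣ m := by
  have e : t = ((m / 5 : ℚ) : K) := by
    push_cast; rw [eq_div_iff (by norm_num)]; linear_combination -h
  obtain ⟨n, hn⟩ := RG.int_rat t ht _ e
  refine ⟨n, ?_⟩
  have : ((m : ℤ) : K) = ((5 * n : ℤ) : K) := by push_cast; rw [h, hn]
  exact_mod_cast this

theorem inert_sq (h2 : Module.finrank ℚ K = 2) (h5 : (Ideal.span {(5 : 𝓞 K)}).IsPrime)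
    (δ : K) (N : ℤ) (hδ : δ ^ 2 = N) (hr : ∀ q : ℚ, δ ≠ q) :
    (∀ m : ℤ, (5 : ℤ) ∣ N - m ^ 2 → (5 : ℤ) ∣ m) ∧ ((5 : ℤ) ∣ N → (25 : ℤ) ∣ N) := by
  have hi : ∀ x : ℤ, IsIntegral ℤ (x : K) := fun x => isIntegral_algebraMap (R := ℤ) (x := x)
  have hδi : IsIntegral ℤ δ := by
    have : IsIntegral ℤ (δ ^ 2) := by rw [hδ]; exact hi N
    exact (IsIntegral.pow_iff (by norm_num)).1 this
  obtain ⟨σ, hσ⟩ := RG.exists_conj h2
  have hσδ : σ δ = -δ := by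
    have h1 : (σ δ) ^ 2 = δ ^ 2 := by rw [← map_pow, hδ, map_intCast]
    rcases sq_eq_sq_iff_eq_or_eq_neg.1 h1 with h | h
    · obtain ⟨q, hq⟩ := RG.fix_rat h2 σ hσ δ h
      exact absurd hq (hr q)
    · exact h
  refine ⟨?_, ?_⟩
  · rintro m ⟨c, hc⟩
    have e : (δ - m) * (δ + m) = 5 * (c : K) := by
      have : ((N - m ^ 2 : ℤ) : K) = ((5 * c : ℤ) : K) := by rw [hc]
      push_cast at this
      linear_combination hδ + this
    have key : ∀ ε : K, ε ^ 2 = 1 → σ ε = ε → ∀ t : K, IsIntegral ℤ t → δ - ε * m = 5 * t →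
        IsIntegral ℤ ε → (5 : ℤ) ∣ m := by
      intro ε hε hσε t ht h hεi
      have h3 : -δ - ε * m = 5 * σ t := by
        have := congrArg σ h
        rw [map_sub, map_mul, map_mul, hσδ, hσε, map_intCast, map_ofNat] at this
        exact this
      have h4 : ((2 * m : ℤ) : K) = 5 * (-(ε * (t + σ t))) := by
        push_cast
        linear_combination -ε * h - ε * h3 - 2 * (m : K) * hε
      have h6 : IsIntegral ℤ (σ t) := ht.map σ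
      have h7 := int_dvd (2 * m) _ ((hεi.mul (ht.add h6)).neg) h4
      omega
    rcases inert_mul h5 _ _ _ (hδi.sub (hi m)) (hδi.add (hi m)) (hi c) e with ⟨t, ht, h⟩ | ⟨t, ht, h⟩
    · exact key 1 (by norm_num) (map_one σ) t ht (by linear_combination h) (by simpa using hi 1)
    · exact key (-1) (by norm_num) (by rw [map_neg, map_one]) t ht (by linear_combination h)
        (by simpa using hi (-1))
  · rintro ⟨c, hc⟩
    have e : δ * δ = 5 * (c : K) := by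
      have : ((N : ℤ) : K) = ((5 * c : ℤ) : K) := by rw [hc]
      push_cast at this
      linear_combination hδ + this
    have h3 : ∃ t : K, IsIntegral ℤ t ∧ δ = 5 * t := by
      rcases inert_mul h5 _ _ _ hδi hδi (hi c) e with h | h <;> exact h
    obtain ⟨t, ht, h⟩ := h3
    have h4 : ((c : ℤ) : K) = 5 * (t * t) := by
      have : (5 : K) * c = 5 * (5 * (t * t)) := by rw [← e, h]; ring
      exact mul_left_cancel₀ (by norm_num) this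
    obtain ⟨d, hd⟩ := int_dvd c _ (ht.mul ht) h4
    exact ⟨d, by rw [hc, hd]; ring⟩

theorem p5 : Prime (5 : ℤ) := Int.prime_iff_natAbs_prime.2 (by norm_num)

theorem d5mul {a b : ℤ} (h : (5 : ℤ) ∣ a * b) : (5 : ℤ) ∣ a ∨ (5 : ℤ) ∣ b := p5.dvd_or_dvd h

theorem d5sq {a : ℤ} (h : (5 : ℤ) ∣ a ^ 2) : (5 : ℤ) ∣ a := p5.dvd_of_dvd_pow h

/-- the discriminant of the fourth family on `X_0(15)` -/
theorem FA (h2 : Module.finrank ℚ K = 2) (h5 : (Ideal.span {(5 : 𝓞 K)}).IsPrime)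
    (a b : ℤ) (hab : IsCoprime a b) (δ : K)
    (hδ : δ ^ 2 = ((a ^ 2 + a * b - b ^ 2) * (a ^ 2 - 11 * a * b - b ^ 2) : ℤ)) :
    ∃ q : ℚ, δ = q := by
  by_contra hr
  push Not at hr
  have hcop : ¬ ((5 : ℤ) ∣ a ∧ (5 : ℤ) ∣ b) := fun ⟨h, h'⟩ =>
    p5.not_isUnit (hab.isUnit_of_dvd' h h')
  obtain ⟨U, hU⟩ : ∃ U, U = 2 * a + b := ⟨_, rfl⟩
  obtain ⟨V, hV⟩ : ∃ V, V = 2 * a - 11 * b := ⟨_, rfl⟩
  have h16 : (4 * δ) ^ 2 = (((U ^ 2 - 5 * b ^ 2) * (V ^ 2 - 125 * b ^ 2) : ℤ) : K) := by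
    rw [hU, hV]; push_cast; push_cast at hδ; linear_combination 16 * hδ
  have hr4 : ∀ q : ℚ, 4 * δ ≠ q := fun q hq => hr (q / 4) (by push_cast; linear_combination hq / 4)
  obtain ⟨k1, k2⟩ := inert_sq h2 h5 _ _ h16 hr4
  by_cases hUd : (5 : ℤ) ∣ U
  · have hb : ¬ (5 : ℤ) ∣ b := fun hb => hcop ⟨by omega, hb⟩
    have hVd : ¬ (5 : ℤ) ∣ V := by omega
    obtain ⟨U1, hU1⟩ := hUd
    obtain ⟨c, hc⟩ := k2 ⟨(5 * U1 ^ 2 - b ^ 2) * (V ^ 2 - 125 * b ^ 2), by rw [hU1]; ring⟩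
    have h3 : (5 : ℤ) ∣ (b * V) ^ 2 := by
      refine ⟨-c + U1 ^ 2 * (V ^ 2 - 125 * b ^ 2) + 25 * b ^ 4, ?_⟩
      rw [hU1] at hc
      apply mul_left_cancel₀ (show (5 : ℤ) ≠ 0 by norm_num)
      linear_combination -hc
    rcases d5mul (d5sq h3) with h | h
    · exact hb h
    · exact hVd h
  · by_cases hVd : (5 : ℤ) ∣ V
    · obtain ⟨V1, hV1⟩ := hVd
      have h25 : (4 * δ / 5) ^ 2 = (((U ^ 2 - 5 * b ^ 2) * (V1 ^ 2 - 5 * b ^ 2) : ℤ) : K) := by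
        have : (4 * δ / 5) ^ 2 = (4 * δ) ^ 2 / 25 := by ring
        rw [this, h16, hV1]; push_cast; ring
      have hr5 : ∀ q : ℚ, 4 * δ / 5 ≠ q := fun q hq =>
        hr (5 * q / 4) (by push_cast; linear_combination 5 * hq / 4)
      obtain ⟨l1, l2⟩ := inert_sq h2 h5 _ _ h25 hr5
      have hb : ¬ (5 : ℤ) ∣ b := fun hb => hcop ⟨by omega, hb⟩
      by_cases hV1d : (5 : ℤ) ∣ V1
      · obtain ⟨V2, hV2⟩ := hV1d
        obtain ⟨c, hc⟩ := l2 ⟨(U ^ 2 - 5 * b ^ 2) * (5 * V2 ^ 2 - b ^ 2), by rw [hV2]; ring⟩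
        have h3 : (5 : ℤ) ∣ (U * b) ^ 2 := by
          refine ⟨-c + V2 ^ 2 * (U ^ 2 - 5 * b ^ 2) + b ^ 4, ?_⟩
          rw [hV2] at hc
          apply mul_left_cancel₀ (show (5 : ℤ) ≠ 0 by norm_num)
          linear_combination -hc
        rcases d5mul (d5sq h3) with h | h
        · exact hUd h
        · exact hb h
      · have := l1 (U * V1) ⟨-(b ^ 2 * (U ^ 2 + V1 ^ 2)) + 5 * b ^ 4, by ring⟩
        rcases d5mul this with h | h
        · exact hUd h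
        · exact hV1d h
    · have := k1 (U * V) ⟨-(b ^ 2 * (25 * U ^ 2 + V ^ 2)) + 125 * b ^ 4, by ring⟩
      rcases d5mul this with h | h
      · exact hUd h
      · exact hVd h

/-- the discriminant of the fourth family on `X(s3, b5)` -/
theorem FB (h2 : Module.finrank ℚ K = 2) (h5 : (Ideal.span {(5 : 𝓞 K)}).IsPrime)
    (a b : ℤ) (hab : IsCoprime a b) (δ : K)
    (hδ : δ ^ 2 = ((a ^ 2 - a * b + 3 * b ^ 2) ^ 2 - 20 * (a * b) ^ 2 : ℤ)) :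
    ∃ q : ℚ, δ = q := by
  by_contra hr
  push Not at hr
  have hcop : ¬ ((5 : ℤ) ∣ a ∧ (5 : ℤ) ∣ b) := fun ⟨h, h'⟩ =>
    p5.not_isUnit (hab.isUnit_of_dvd' h h')
  obtain ⟨k1, k2⟩ := inert_sq h2 h5 _ _ hδ hr
  obtain ⟨W, hW⟩ : ∃ W, W = a ^ 2 - a * b + 3 * b ^ 2 := ⟨_, rfl⟩
  have hWd : (5 : ℤ) ∣ W := k1 W ⟨-(4 * (a * b) ^ 2), by rw [hW]; ring⟩
  have hab5 : ¬ (5 : ℤ) ∣ a * b := by
    intro h
    rcases d5mul h with h | h
    · apply hcop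
      refine ⟨h, ?_⟩
      obtain ⟨x, hx⟩ := h
      obtain ⟨y, hy⟩ := hWd
      have : (5 : ℤ) ∣ (3 * b) ^ 2 := ⟨3 * y - 15 * x ^ 2 + 3 * x * b, by
        rw [hW] at hy; rw [hx] at hy; linear_combination 3 * hy⟩
      have := d5sq this
      omega
    · apply hcop
      refine ⟨?_, h⟩
      obtain ⟨x, hx⟩ := h
      obtain ⟨y, hy⟩ := hWd
      have : (5 : ℤ) ∣ a ^ 2 := ⟨y + a * x - 15 * x ^ 2, by
        rw [hW] at hy; rw [hx] at hy; linear_combination hy⟩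
      exact d5sq this
  rw [← hW] at k2
  obtain ⟨W1, hW1⟩ := hWd
  obtain ⟨c, hc⟩ := k2 ⟨5 * W1 ^ 2 - 4 * (a * b) ^ 2, by rw [hW1]; ring⟩
  apply hab5
  have : (5 : ℤ) ∣ (2 * (a * b)) ^ 2 := ⟨W1 ^ 2 - c, by
    rw [hW1] at hc
    apply mul_left_cancel₀ (show (5 : ℤ) ≠ 0 by norm_num)
    linear_combination -hc⟩
  have := d5sq this
  omega

end CS87
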