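import Pool.Agent.Lib.MP_87c685_nt_RG.ValA

/-!
# Local computations at one prime for two conjugate points
-/

set_option autoImplicit false

namespace CS87

variable {K : Type*} [Field K] {Γ₀ : Type*} [LinearOrderedCommGroupWithZero Γ₀]
  (v : Valuation K Γ₀)

/-- the point `(r, r', s, s')` is not integral at `v` -/
def Mult (r r' s s' : K) : Prop :=
  1 < v (r * s) ∨ 1 < v (r * s') ∨ 1 < v (r' * s) ∨ 1 < v (r' * s')

theorem mult_of {r r' s s' a b c : K} (ha : v a ≤ 1) (hb : v b ≤ 1) (hc : v c ≤ 1)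
    (hrr : r * r' = a) (hss : s * s' = b) (hsum : r + r' + s + s' + c = 0)
    (h : ¬ (v r ≤ 1 ∧ v r' ≤ 1 ∧ v s ≤ 1 ∧ v s' ≤ 1)) : Mult v r r' s s' := by
  have key : ∀ r r' s s' a b : K, v a ≤ 1 → v b ≤ 1 → r * r' = a → s * s' = b →
      r + r' + s + s' + c = 0 → 1 < v r → 1 < v (r * s) ∨ 1 < v (r * s') := by
    intro r r' s s' a b ha hb hrr hss hsum hr
    have hr' := RG.v_small v hrr ha hr
    by_cases hs : 1 < v s
    · left; rw [map_mul]; exact one_lt_mul_of_lt_of_le' hr hs.le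
    · by_cases hs' : 1 < v s'
      · right; rw [map_mul]; exact one_lt_mul_of_lt_of_le' hr hs'.le
      · exfalso
        have e : r = -(r' + s + s' + c) := by linear_combination hsum
        rw [e, Valuation.map_neg] at hr
        exact absurd (v.map_add_le (v.map_add_le (v.map_add_le hr'.le (not_lt.1 hs))
          (not_lt.1 hs')) hc) (not_le.2 hr)
  have hrr' : r' * r = a := by rw [mul_comm]; exact hrr
  have hss' : s' * s = b := by rw [mul_comm]; exact hss
  by_cases h1 : 1 < v r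
  · rcases key r r' s s' a b ha hb hrr hss hsum h1 with h5 | h5
    · exact Or.inl h5
    · exact Or.inr (Or.inl h5)
  by_cases h1' : 1 < v r'
  · rcases key r' r s s' a b ha hb hrr' hss (by linear_combination hsum) h1' with h5 | h5
    · exact Or.inr (Or.inr (Or.inl h5))
    · exact Or.inr (Or.inr (Or.inr h5))
  by_cases h3 : 1 < v s
  · rcases key s s' r r' b a hb ha hss hrr (by linear_combination hsum) h3 with h5 | h5
    · exact Or.inl (by rw [mul_comm]; exact h5)
    · exact Or.inr (Or.inr (Or.inl (by rw [mul_comm]; exact h5)))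
  by_cases h4 : 1 < v s'
  · rcases key s' s r r' b a hb ha hss' hrr (by linear_combination hsum) h4 with h5 | h5
    · exact Or.inr (Or.inl (by rw [mul_comm]; exact h5))
    · exact Or.inr (Or.inr (Or.inr (by rw [mul_comm]; exact h5)))
  exact absurd ⟨not_lt.1 h1, not_lt.1 h1', not_lt.1 h3, not_lt.1 h4⟩ h

theorem Mult.swap {r r' s s' : K} (h : Mult v r r' s s') : Mult v r r' s' s := by
  rcases h with h | h | h | h
  · exact Or.inr (Or.inl h)
  · exact Or.inl h
  · exact Or.inr (Or.inr (Or.inr h))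
  · exact Or.inr (Or.inr (Or.inl h))

/-- the four types of a non-integral point -/
theorem types {r r' s s' a b c : K} (ha : v a ≤ 1) (hb : v b ≤ 1) (hc : v c ≤ 1)
    (hrr : r * r' = a) (hss : s * s' = b) (hsum : r + r' + s + s' + c = 0)
    (h : Mult v r r' s s') :
    (1 < v r ∧ 1 < v s ∧ v (r * s) = v s ^ 2 ∧ v r' < 1 ∧ v s' < 1) ∨
    (1 < v r ∧ v s < 1 ∧ v (r * s) = v b ∧ v (r * s + b) ≤ v s ∧ 1 < v (r * s') ∧ v r' < 1) ∨
    (v r < 1 ∧ 1 < v s ∧ v (r * s) = v a ∧ v (r * s + a) ≤ v r ∧ 1 < v (r' * s)) ∨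
    (v r < 1 ∧ v s < 1 ∧ v (r * s) * v r' * v s' = v a * v b ∧ 1 < v r' ∧ 1 < v s') := by
  have hrr' : r' * r = a := by rw [mul_comm]; exact hrr
  have hss' : s' * s = b := by rw [mul_comm]; exact hss
  rcases h with h | h | h | h
  · left
    obtain ⟨h1, h2, h3, h4⟩ := RG.v_pair v ha hb hc hrr hss hsum h
    refine ⟨h1, by rw [h2]; exact h1, ?_, h3, h4⟩
    rw [map_mul, h2, pow_two]
  · right; left
    obtain ⟨h1, h2, h3, h4⟩ := RG.v_pair v ha hb hc hrr hss' (by linear_combination hsum) h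
    refine ⟨h1, h4, ?_, ?_, h, h3⟩
    · rw [map_mul, ← h2, ← map_mul, hss']
    · have e : r * s + b = -(s * (c + r' + s)) := by
        linear_combination (-1 : K) * hss + s * hsum
      rw [e, Valuation.map_neg, map_mul]
      have : v (c + r' + s) ≤ 1 := v.map_add_le (v.map_add_le hc h3.le) h4.le
      calc v s * v (c + r' + s) ≤ v s * 1 := mul_le_mul_right this _
        _ = v s := mul_one _
  · right; right; left
    obtain ⟨h1, h2, h3, h4⟩ := RG.v_pair v ha hb hc hrr' hss (by linear_combination hsum) h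
    refine ⟨h3, by rw [h2]; exact h1, ?_, ?_, h⟩
    · rw [map_mul, h2, ← map_mul, hrr]
    · have e : r * s + a = -(r * (c + r + s')) := by
        linear_combination (-1 : K) * hrr + r * hsum
      rw [e, Valuation.map_neg, map_mul]
      have : v (c + r + s') ≤ 1 := v.map_add_le (v.map_add_le hc h3.le) h4.le
      calc v r * v (c + r + s') ≤ v r * 1 := mul_le_mul_right this _
        _ = v r := mul_one _
  · right; right; right
    obtain ⟨h1, h2, h3, h4⟩ := RG.v_pair v ha hb hc hrr' hss' (by linear_combination hsum) h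
    refine ⟨h3, h4, ?_, h1, by rw [h2]; exact h1⟩
    rw [← map_mul, ← map_mul, ← map_mul, ← hrr, ← hss]
    congr 1
    ring

/-! ### small facts -/

theorem v_two_five (h : v 2 < 1) : v 5 = 1 := by
  have e : (5 : K) = 2 * 2 + 1 := by norm_num
  rw [e]
  have : v ((2 : K) * 2) < v 1 := by
    rw [map_mul, map_one]
    exact mul_lt_one_of_lt_of_le h h.le
  rw [Valuation.map_add_eq_of_lt_right v this, map_one]

theorem v_two_three (h : v 2 < 1) : v 3 = 1 := by
  have e : (3 : K) = 2 + 1 := by norm_num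
  rw [e]
  have : v (2 : K) < v 1 := by rwa [map_one]
  rw [Valuation.map_add_eq_of_lt_right v this, map_one]

theorem v_five_two (h : v 5 < 1) : v 2 = 1 := by
  by_contra h2
  have h3 : v 2 < 1 := lt_of_le_of_ne (RG.v_ofNat v 2) h2
  exact absurd (v_two_five v h3) (ne_of_lt h)

theorem v_three_two (h : v 3 < 1) : v 2 = 1 := by
  by_contra h2
  have h3 : v 2 < 1 := lt_of_le_of_ne (RG.v_ofNat v 2) h2
  exact absurd (v_two_three v h3) (ne_of_lt h)

theorem v_ten_le : v (10 : K) ≤ v 5 := by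
  have e : (10 : K) = 5 * 2 := by norm_num
  rw [e, map_mul]
  calc v 5 * v 2 ≤ v 5 * 1 := mul_le_mul_right (RG.v_ofNat v 2) _
    _ = v 5 := mul_one _

theorem add_lt_mul {s S : K} (hs : 1 < v s) (hS : 1 < v S) : v (s + S) < v s * v S := by
  have h0 : 0 < v s := lt_trans zero_lt_one hs
  have h0' : 0 < v S := lt_trans zero_lt_one hS
  apply v.map_add_lt
  · exact (lt_mul_iff_one_lt_right h0).mpr hS
  · exact (lt_mul_iff_one_lt_left h0').mpr hs

/-! ### `x` rational -/

section L

variable {x s S : K}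

theorem L1 (h1 : (x + 9) * (s + S) = -5 * x) (h2 : (x + 9) * (s * S) = x * (x - 1))
    (h9 : x + 9 ≠ 0) (hx : v x = 1) (hs : v s < 1) (hS : v S < 1) : False := by
  have d0 : 0 < v (x + 9) := RG.v_pos v h9
  have e1 : v (x + 9) * v (s + S) = v 5 := by
    rw [← map_mul, h1, neg_mul, Valuation.map_neg, map_mul, hx, mul_one]
  have e2 : v (x + 9) * (v s * v S) = v (x - 1) := by
    rw [← map_mul, ← map_mul, h2, map_mul, hx, one_mul]
  have l5 : v 5 < v (x + 9) := by
    rw [← e1]; exact mul_lt_of_lt_one_right d0 (v.map_add_lt hs hS)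
  have e3 : v (x - 1) = v (x + 9) := by
    have : x - 1 = (x + 9) - 10 := by ring
    rw [this]; exact Valuation.map_sub_eq_of_lt_left v (lt_of_le_of_lt (v_ten_le v) l5)
  rw [e3] at e2
  have : v (x + 9) * (v s * v S) < v (x + 9) :=
    mul_lt_of_lt_one_right d0 (mul_lt_one_of_lt_of_le hs hS.le)
  exact absurd e2 (ne_of_lt this)

theorem L2 (h1 : (x + 9) * (s + S) = -5 * x) (h2 : (x + 9) * (s * S) = x * (x - 1))
    (h9 : x + 9 ≠ 0) (hx : v x ≤ 1) (hs : 1 < v s) (hS : 1 < v S) : False := by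
  have d0 : 0 < v (x + 9) := RG.v_pos v h9
  have e1 : v (x + 9) * v (s + S) = v x * v 5 := by
    rw [← map_mul, h1, neg_mul, Valuation.map_neg, map_mul, mul_comm]
  have e2 : v (x + 9) * (v s * v S) = v x * v (x - 1) := by
    rw [← map_mul, ← map_mul, h2, map_mul]
  have l1 : v x * v 5 < v x * v (x - 1) := by
    rw [← e1, ← e2]
    exact (mul_lt_mul_iff_of_pos_left d0).mpr (add_lt_mul v hs hS)
  have l5 : v 5 < v (x - 1) := lt_of_mul_lt_mul_left' l1
  have e3 : v (x + 9) = v (x - 1) := by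
    have : x + 9 = (x - 1) + 10 := by ring
    rw [this]; exact Valuation.map_add_eq_of_lt_left v (lt_of_le_of_lt (v_ten_le v) l5)
  rw [e3, mul_comm (v x)] at e2
  have h0 : v (x - 1) ≠ 0 := by rw [← e3]; exact ne_of_gt d0
  have e4 := mul_left_cancel₀ h0 e2
  have : 1 < v s * v S := one_lt_mul_of_lt_of_le' hs hS.le
  rw [e4] at this
  exact absurd hx (not_le.2 this)

theorem L3 (h1 : (x + 9) * (s + S) = -5 * x) (h2 : (x + 9) * (s * S) = x * (x - 1))
    (h9 : x + 9 ≠ 0) (hx : v x = 1) (h22 : v 2 = 1) (hs : v s < 1) (hS : 1 < v S) : False := by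
  have d0 : 0 < v (x + 9) := RG.v_pos v h9
  have e0 : v (s + S) = v S := Valuation.map_add_eq_of_lt_right v (lt_trans hs hS)
  have e1 : v (x + 9) * v S = v 5 := by
    rw [← e0, ← map_mul, h1, neg_mul, Valuation.map_neg, map_mul, hx, mul_one]
  have e2 : v (x + 9) * (v s * v S) = v (x - 1) := by
    rw [← map_mul, ← map_mul, h2, map_mul, hx, one_mul]
  have e10 : v (10 : K) = v 5 := by
    have e : (10 : K) = 5 * 2 := by norm_num
    rw [e, map_mul, h22, mul_one]
  have l5 : v (x + 9) < v 5 := by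
    rw [← e1]; exact (lt_mul_iff_one_lt_right d0).mpr hS
  have e3 : v (x - 1) = v 5 := by
    have : x - 1 = (x + 9) - 10 := by ring
    rw [this, ← e10]
    exact Valuation.map_sub_eq_of_lt_right v (by rw [e10]; exact l5)
  have p5 : 0 < v 5 := lt_trans d0 l5
  have e4 : v s * v 5 = v 5 := by
    rw [← e1, ← mul_assoc, mul_comm (v s), mul_assoc, e2, e3, e1]
  have : v s * v 5 < v 5 := mul_lt_of_lt_one_left p5 hs
  exact absurd e4 (ne_of_lt this)

theorem M1 (h1 : (x + 5) * (s + S) = -x) (h3 : v x = v 3)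
    (hs : v s < v 3) (hS : v S < v 3) : False := by
  have e1 : v (x + 5) * v (s + S) = v 3 := by
    rw [← map_mul, h1, Valuation.map_neg, h3]
  have l1 : v (s + S) < v 3 := v.map_add_lt hs hS
  have l5 : v (x + 5) ≤ 1 := v.map_add_le (by rw [h3]; exact RG.v_ofNat v 3) (RG.v_ofNat v 5)
  have : v (x + 5) * v (s + S) < v 3 :=
    lt_of_le_of_lt (mul_le_of_le_one_left' l5) l1
  exact absurd e1 (ne_of_lt this)

theorem M2 (h1 : (x + 5) * (s + S) = -x) (h2 : (x + 5) * (s * S) = x * (x + 3))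
    (h5 : x + 5 ≠ 0) (hx : v x ≤ 1) (hs : 1 < v s) (hS : 1 < v S) : False := by
  have d0 : 0 < v (x + 5) := RG.v_pos v h5
  have e1 : v (x + 5) * v (s + S) = v x := by
    rw [← map_mul, h1, Valuation.map_neg]
  have e2 : v (x + 5) * (v s * v S) = v x * v (x + 3) := by
    rw [← map_mul, ← map_mul, h2, map_mul]
  have l1 : v x * 1 < v x * v (x + 3) := by
    rw [mul_one, ← e2, ← e1]
    exact (mul_lt_mul_iff_of_pos_left d0).mpr (add_lt_mul v hs hS)
  have l5 : 1 < v (x + 3) := lt_of_mul_lt_mul_left' l1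
  exact absurd (v.map_add_le hx (RG.v_ofNat v 3)) (not_le.2 l5)

end L

end CS87
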