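import Pool.Agent.Lib.MP_87c685_nt_CS.Loc

/-!
# Local computations at one prime: `r s` rational
-/

set_option autoImplicit false

namespace CS87

variable {K : Type*} [Field K] {Γ₀ : Type*} [LinearOrderedCommGroupWithZero Γ₀]
  (v : Valuation K Γ₀)

theorem prod_gt {p q : Γ₀} (hp : 1 < p) (hq : 1 < q) : 1 < p * q :=
  one_lt_mul_of_lt_of_le' hp hq.le

theorem locA2 [CharZero K] {r r' s s' R R' S S' x : K} (hrr : r * r' = 9) (hss : s * s' = -1)
    (hsum : r + r' + s + s' + 5 = 0) (hRR : R * R' = 9) (hSS : S * S' = -1)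
    (hSum : R + R' + S + S' + 5 = 0) (hx : r * s = x) (hX : R * S = x)
    (h1 : (x + 9) * (s + S) = -5 * x) (h2 : (x + 9) * (s * S) = x * (x - 1)) (h9 : x + 9 ≠ 0)
    (hM : Mult v r r' s s' → Mult v R R' S S') (hT : v 2 < 1 → (v s < 1 ↔ v S < 1)) :
    v (r * s') ≤ 1 ∧ v (r' * s) ≤ 1 := by
  have n1 : v (-1 : K) = 1 := by rw [Valuation.map_neg, map_one]
  have n1' : v (-1 : K) ≤ 1 := n1.le
  have v9 : v 9 ≤ 1 := RG.v_ofNat v 9
  have v90 : v 9 ≠ 0 := (Valuation.ne_zero_iff v).2 (by norm_num)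
  have hss' : s' * s = -1 := by rw [mul_comm]; exact hss
  have hrr' : r' * r = 9 := by rw [mul_comm]; exact hrr
  constructor
  · by_contra hb
    push Not at hb
    obtain ⟨b1, b2, b3, b4⟩ := RG.v_pair v v9 n1' (RG.v_ofNat v 5) hrr hss'
      (by linear_combination hsum) hb
    have bx : v x = 1 := by rw [← hx, map_mul, ← b2, ← map_mul, hss', n1]
    have hM' := hM (Or.inr (Or.inl hb))
    rcases types v v9 n1' (RG.v_ofNat v 5) hRR hSS hSum hM' with
      ⟨-, t2, t3, -, -⟩ | ⟨-, t2, -, -, -, -⟩ | ⟨-, t2, -, -, -⟩ | ⟨-, -, t3, t4, t5⟩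
    · rw [hX, bx] at t3
      have := prod_gt t2 t2
      rw [← pow_two, ← t3] at this
      exact lt_irrefl _ this
    · exact L1 v h1 h2 h9 bx b4 t2
    · by_cases h22 : v 2 < 1
      · exact absurd ((hT h22).1 b4) (not_lt.2 t2.le)
      · exact L3 v h1 h2 h9 bx (le_antisymm (RG.v_ofNat v 2) (not_lt.1 h22)) b4 t2
    · rw [hX, bx, one_mul, n1, mul_one] at t3
      exact absurd v9 (not_le.2 (by rw [← t3]; exact prod_gt t4 t5))
  · by_contra hb
    push Not at hb
    obtain ⟨b1, b2, b3, b4⟩ := RG.v_pair v v9 n1' (RG.v_ofNat v 5) hrr' hss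
      (by linear_combination hsum) hb
    have bs : 1 < v s := by rw [b2]; exact b1
    have bx : v x = v 9 := by rw [← hx, map_mul, b2, ← map_mul, hrr]
    have hM' := hM (Or.inr (Or.inr (Or.inl hb)))
    rcases types v v9 n1' (RG.v_ofNat v 5) hRR hSS hSum hM' with
      ⟨-, t2, t3, -, -⟩ | ⟨-, t2, t3, -, -, -⟩ | ⟨-, t2, -, -, -⟩ | ⟨-, -, t3, t4, t5⟩
    · rw [hX, bx, pow_two] at t3
      exact absurd v9 (not_le.2 (by rw [t3]; exact prod_gt t2 t2))
    · rw [hX, n1] at t3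
      by_cases h22 : v 2 < 1
      · exact absurd ((hT h22).2 t2) (not_lt.2 bs.le)
      · exact L3 v (by rw [add_comm S s]; exact h1) (by rw [mul_comm S s]; exact h2) h9 t3
          (le_antisymm (RG.v_ofNat v 2) (not_lt.1 h22)) t2 bs
    · exact L2 v h1 h2 h9 (by rw [bx]; exact v9) bs t2
    · rw [hX, bx, n1, mul_one, mul_assoc] at t3
      have e := mul_left_cancel₀ v90 (show v 9 * (v R' * v S') = v 9 * 1 by rw [mul_one]; exact t3)
      have := prod_gt t4 t5
      rw [e] at this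
      exact lt_irrefl _ this

theorem locB2 [CharZero K] {r r' s s' R R' S S' x : K} (hrr : r * r' = 5) (hss : s * s' = 3)
    (hsum : r + r' + s + s' + 1 = 0) (hRR : R * R' = 5) (hSS : S * S' = 3)
    (hSum : R + R' + S + S' + 1 = 0) (hx : r * s = x) (hX : R * S = x)
    (h1 : (x + 5) * (s + S) = -x) (h2 : (x + 5) * (s * S) = x * (x + 3)) (h5 : x + 5 ≠ 0)
    (hM : Mult v r r' s s' → Mult v R R' S S') (hT : v 2 < 1 → (v s < 1 ↔ v S < 1)) :
    v (r * s') ≤ 1 ∧ v (r' * s) ≤ 1 := by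
  have v5 : v 5 ≤ 1 := RG.v_ofNat v 5
  have v3 : v 3 ≤ 1 := RG.v_ofNat v 3
  have v1 : v (1 : K) ≤ 1 := by rw [map_one]
  have v50 : v 5 ≠ 0 := (Valuation.ne_zero_iff v).2 (by norm_num)
  have v30 : v 3 ≠ 0 := (Valuation.ne_zero_iff v).2 (by norm_num)
  have hss' : s' * s = 3 := by rw [mul_comm]; exact hss
  have hrr' : r' * r = 5 := by rw [mul_comm]; exact hrr
  -- `v s < v 3` if `v s' > 1`
  have small3 : ∀ s s' : K, s * s' = 3 → 1 < v s' → v s < v 3 := by
    intro s s' h h'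
    have hs0 : s ≠ 0 := by
      rintro rfl; rw [zero_mul] at h; norm_num at h
    rw [← h, map_mul]
    exact (lt_mul_iff_one_lt_right (RG.v_pos v hs0)).mpr h'
  have two : v (x + 3) < 1 → v (x + 5) < 1 → v 2 < 1 := by
    intro a b
    have e : (2 : K) = (x + 5) - (x + 3) := by ring
    rw [e]
    exact v.map_sub_lt b a
  constructor
  · by_contra hb
    push Not at hb
    obtain ⟨b1, b2, b3, b4⟩ := RG.v_pair v v5 v3 v1 hrr hss' (by linear_combination hsum) hb
    have bx : v x = v 3 := by rw [← hx, map_mul, ← b2, ← map_mul, hss']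
    have bs : v s < v 3 := small3 s s' hss (by rw [b2]; exact b1)
    have bx3 : v (x + 3) < 1 := by
      rcases types v v5 v3 v1 hrr hss hsum (Or.inr (Or.inl hb)) with
        ⟨-, t2, -, -, -⟩ | ⟨-, -, -, t4, -, -⟩ | ⟨-, t2, -, -, -⟩ | ⟨t1, -, -, -, -⟩
      · exact absurd b4 (not_lt.2 t2.le)
      · rw [hx] at t4; exact lt_of_le_of_lt t4 b4
      · exact absurd b4 (not_lt.2 t2.le)
      · exact absurd t1 (not_lt.2 b1.le)
    have hM' := hM (Or.inr (Or.inl hb))
    rcases types v v5 v3 v1 hRR hSS hSum hM' with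
      ⟨-, t2, t3, -, -⟩ | ⟨t1, t2, -, -, t5, -⟩ | ⟨t1, t2, -, t4, -⟩ | ⟨-, -, t3, t4, t5⟩
    · rw [hX, bx, pow_two] at t3
      exact absurd v3 (not_le.2 (by rw [t3]; exact prod_gt t2 t2))
    · obtain ⟨c1, c2, -, -⟩ := RG.v_pair v v5 v3 v1 hRR
        (show S' * S = 3 by rw [mul_comm]; exact hSS) (by linear_combination hSum) t5
      exact M1 v h1 bx bs (small3 S S' hSS (by rw [c2]; exact c1))
    · rw [hX] at t4
      have h22 := two bx3 (lt_of_le_of_lt t4 t1)
      exact absurd ((hT h22).1 b4) (not_lt.2 t2.le)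
    · rw [hX, bx, mul_assoc, mul_comm (v 5) (v 3)] at t3
      have e := mul_left_cancel₀ v30 t3
      exact absurd v5 (not_le.2 (by rw [← e]; exact prod_gt t4 t5))
  · by_contra hb
    push Not at hb
    obtain ⟨b1, b2, b3, b4⟩ := RG.v_pair v v5 v3 v1 hrr' hss (by linear_combination hsum) hb
    have bs : 1 < v s := by rw [b2]; exact b1
    have bx : v x = v 5 := by rw [← hx, map_mul, b2, ← map_mul, hrr]
    have bx5 : v (x + 5) < 1 := by
      rcases types v v5 v3 v1 hrr hss hsum (Or.inr (Or.inr (Or.inl hb))) with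
        ⟨t1, -, -, -, -⟩ | ⟨t1, -, -, -, -, -⟩ | ⟨t1, -, -, t4, -⟩ | ⟨-, t2, -, -, -⟩
      · exact absurd b3 (not_lt.2 t1.le)
      · exact absurd b3 (not_lt.2 t1.le)
      · rw [hx] at t4; exact lt_of_le_of_lt t4 t1
      · exact absurd t2 (not_lt.2 bs.le)
    have hM' := hM (Or.inr (Or.inr (Or.inl hb)))
    rcases types v v5 v3 v1 hRR hSS hSum hM' with
      ⟨-, t2, t3, -, -⟩ | ⟨-, t2, -, t4, -, -⟩ | ⟨-, t2, -, -, -⟩ | ⟨-, -, t3, t4, t5⟩
    · rw [hX, bx, pow_two] at t3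
      exact absurd v5 (not_le.2 (by rw [t3]; exact prod_gt t2 t2))
    · rw [hX] at t4
      have h22 := two (lt_of_le_of_lt t4 t2) bx5
      exact absurd ((hT h22).2 t2) (not_lt.2 bs.le)
    · exact M2 v h1 h2 h5 (by rw [bx]; exact v5) bs t2
    · rw [hX, bx, mul_assoc] at t3
      have e := mul_left_cancel₀ v50 t3
      exact absurd v3 (not_le.2 (by rw [← e]; exact prod_gt t4 t5))

end CS87
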