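import Pool.Agent.Lib.MP_87c685_nt_CS.Loc2

/-!
# Local computations at one prime: `r s + 4 = ρ (s - 2)`
-/

set_option autoImplicit false

namespace CS87

variable {K : Type*} [Field K] {Γ₀ : Type*} [LinearOrderedCommGroupWithZero Γ₀]
  (v : Valuation K Γ₀)

section generic

variable {s S ρ m n f : K}

theorem e2_val (e2 : ρ * (s * S) = -(m * n)) : v ρ * (v s * v S) = v m * v n := by
  rw [← map_mul, ← map_mul, e2, Valuation.map_neg, map_mul]

theorem e1_val (e1 : ρ * (s + S) = -f) : v ρ * v (s + S) = v f := by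
  rw [← map_mul, e1, Valuation.map_neg]

/-- both points near the first cusp -/
theorem AA (e2 : ρ * (s * S) = -(m * n)) (hm : v m ≤ v ρ) (hn : v n ≤ v ρ) (h : v s = v ρ)
    (h' : v S = v ρ) (h1 : 1 < v ρ) : False := by
  have p : 0 < v ρ := lt_trans zero_lt_one h1
  have e := e2_val v e2
  rw [h, h'] at e
  have l : v m * v n ≤ v ρ * v ρ := mul_le_mul' hm hn
  have l2 : v ρ * v ρ < v ρ * (v ρ * v ρ) :=
    (mul_lt_mul_iff_of_pos_left p).mpr ((lt_mul_iff_one_lt_right p).mpr h1)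
  rw [e] at l2
  exact absurd l (not_le.2 l2)

theorem CC (e2 : ρ * (s * S) = -(m * n)) (hm : v m ≤ 1) (hn : v n ≤ 1) (h : v ρ * v s = 1)
    (h' : 1 < v S) : False := by
  have e := e2_val v e2
  rw [← mul_assoc, h, one_mul] at e
  exact absurd (mul_le_one' hm hn) (not_le.2 (by rw [← e]; exact h'))

/-- the case `v 2 < 1`, both `s` and `S` small -/
theorem DD {c : K} (hc : v c = 1) (h2 : v 2 < 1) (hρ0 : ρ ≠ 0)
    (e1 : ρ * (s + S) = -(ρ ^ 2 + c * ρ + c))
    (e2 : ρ * (s * S) = -((2 * ρ + c) * (ρ + 2))) (hs : v s < 1) (hS : v S < 1) : False := by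
  have p : 0 < v ρ := RG.v_pos v hρ0
  have e := e1_val v e1
  have l1 : v (s + S) < 1 := v.map_add_lt hs hS
  have l2 : v (ρ ^ 2 + c * ρ + c) < v ρ := by
    rw [← e]; exact mul_lt_of_lt_one_right p l1
  rcases lt_trichotomy (v ρ) 1 with h | h | h
  · have e3 : v (ρ ^ 2 + c * ρ + c) = 1 := by
      rw [← hc]
      apply Valuation.map_add_eq_of_lt_right
      rw [hc]
      apply v.map_add_lt
      · rw [map_pow, pow_two]; exact mul_lt_one_of_lt_of_le h h.le
      · rw [map_mul, hc, one_mul]; exact h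
    rw [e3] at l2
    exact lt_asymm h l2
  · have e4 := e2_val v e2
    have e5 : v (2 * ρ + c) = 1 := by
      rw [← hc]
      apply Valuation.map_add_eq_of_lt_right
      rw [map_mul, h, mul_one, hc]; exact h2
    have e6 : v (ρ + 2) = 1 := by
      rw [← h]
      apply Valuation.map_add_eq_of_lt_left
      rw [h]; exact h2
    rw [h, one_mul, e5, e6, one_mul] at e4
    exact absurd e4 (ne_of_lt (mul_lt_one_of_lt_of_le hs hS.le))
  · have e3 : v (ρ ^ 2 + c * ρ + c) = v ρ ^ 2 := RG.v_quad v hc.le hc.le h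
    rw [e3, pow_two] at l2
    exact lt_asymm l2 ((lt_mul_iff_one_lt_right p).mpr h)

end generic

/-! ### the curve `X_0(15)` -/

section A

variable {s S ρ : K} (e1 : ρ * (s + S) = -(ρ ^ 2 + 5 * ρ + 5))
  (e2 : ρ * (s * S) = -((2 * ρ + 5) * (ρ + 2)))

theorem A_f5 (h50 : v 5 ≠ 0) (hρ : v ρ < 1) (hd : v ρ ≤ v 5) :
    v (ρ ^ 2 + 5 * ρ + 5) = v 5 := by
  have p5 : 0 < v 5 := zero_lt_iff.2 h50
  apply Valuation.map_add_eq_of_lt_right
  apply v.map_add_lt
  · rw [map_pow, pow_two]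
    exact lt_of_le_of_lt (mul_le_mul_left hd _) (mul_lt_of_lt_one_right p5 hρ)
  · rw [map_mul]; exact mul_lt_of_lt_one_right p5 hρ

include e1 e2

theorem A_cc (h50 : v 5 ≠ 0) (hρ : v ρ < 1) (hd : v ρ ≤ v 5) (hs : 1 < v s) (hS : 1 < v S) :
    False := by
  have k1 := e1_val v e1
  rw [A_f5 v h50 hρ hd] at k1
  have k2 := e2_val v e2
  have p : 0 < v ρ := by
    rw [zero_lt_iff]
    intro h; rw [h, zero_mul] at k1; exact h50 k1.symm
  have l1 : v (2 * ρ + 5) ≤ v 5 := by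
    apply v.map_add_le _ le_rfl
    rw [map_mul]
    exact (mul_le_of_le_one_left' (RG.v_ofNat v 2)).trans hd
  have l2 : v (ρ + 2) ≤ 1 := v.map_add_le hρ.le (RG.v_ofNat v 2)
  have l3 : v ρ * (v s * v S) ≤ v ρ * v (s + S) := by
    rw [k1, k2]
    calc v (2 * ρ + 5) * v (ρ + 2) ≤ v 5 * 1 := mul_le_mul' l1 l2
      _ = v 5 := mul_one _
  exact absurd (le_of_mul_le_mul_left l3 p) (not_le.2 (add_lt_mul v hs hS))

theorem A_bc (h50 : v 5 ≠ 0) (h2 : v 2 = 1) (hρ : v ρ < 1) (hd : v ρ ≤ v 5) (hs : v s < 1)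
    (hS : 1 < v S) : False := by
  have p5 : 0 < v 5 := zero_lt_iff.2 h50
  have k1 := e1_val v e1
  rw [A_f5 v h50 hρ hd, Valuation.map_add_eq_of_lt_right v (lt_trans hs hS)] at k1
  have k2 := e2_val v e2
  have p : 0 < v ρ := by
    rw [zero_lt_iff]
    intro h; rw [h, zero_mul] at k1; exact h50 k1.symm
  have l0 : v ρ < v 5 := by rw [← k1]; exact (lt_mul_iff_one_lt_right p).mpr hS
  have l1 : v (2 * ρ + 5) = v 5 := by
    apply Valuation.map_add_eq_of_lt_right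
    rw [map_mul, h2, one_mul]; exact l0
  have l2 : v (ρ + 2) = 1 := by
    rw [← h2]
    apply Valuation.map_add_eq_of_lt_right
    rw [h2]; exact hρ
  rw [l1, l2, mul_one, mul_left_comm, k1] at k2
  exact absurd k2 (ne_of_lt (mul_lt_of_lt_one_left p5 hs))

theorem A_bb (h50 : v 5 ≠ 0) (h2 : v 2 = 1) (hρ0 : ρ ≠ 0) (hρ : v ρ < 1) (hs : v s < 1)
    (hS : v S < 1) : False := by
  have p : 0 < v ρ := RG.v_pos v hρ0
  have k1 := e1_val v e1
  have k2 := e2_val v e2
  have l2 : v (ρ + 2) = 1 := by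
    rw [← h2]
    apply Valuation.map_add_eq_of_lt_right
    rw [h2]; exact hρ
  rw [l2, mul_one] at k2
  have l3 : v (2 * ρ + 5) < v ρ := by
    rw [← k2]
    exact mul_lt_of_lt_one_right p (mul_lt_one_of_lt_of_le hs hS.le)
  have l4 : v 5 = v ρ := by
    have e : (5 : K) = (2 * ρ + 5) - 2 * ρ := by ring
    have e' : v (2 * ρ) = v ρ := by rw [map_mul, h2, one_mul]
    rw [e, Valuation.map_sub_eq_of_lt_right v (by rw [e']; exact l3), e']
  rw [A_f5 v h50 hρ l4.ge, l4] at k1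
  exact absurd k1 (ne_of_lt (mul_lt_of_lt_one_right p (v.map_add_lt hs hS)))

omit e2 in
theorem A_dd5 (h5 : v 5 < 1) (hρ : v ρ = 1) (hs : v s < 1) (hS : v S < 1) : False := by
  have k1 := e1_val v e1
  rw [hρ, one_mul] at k1
  have e : ρ ^ 2 + 5 * ρ + 5 = ρ ^ 2 + 5 * (ρ + 1) := by ring
  have l : v (ρ ^ 2 + 5 * ρ + 5) = 1 := by
    have e' : v (ρ ^ 2) = 1 := by rw [map_pow, hρ, one_pow]
    rw [e, ← e']
    apply Valuation.map_add_eq_of_lt_left
    rw [e', map_mul]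
    exact mul_lt_one_of_lt_of_le h5 (v.map_add_le hρ.le (by rw [map_one]))
  rw [l] at k1
  exact absurd k1 (ne_of_lt (v.map_add_lt hs hS))

theorem A_bd (h5 : v 5 = 1) (hρ : v ρ = 1) (hs : v s < 1) (hS : v S < 1) : False := by
  have k1 := e1_val v e1
  have k2 := e2_val v e2
  rw [hρ, one_mul] at k1 k2
  have lf : v (ρ ^ 2 + 5 * ρ + 5) < 1 := by rw [← k1]; exact v.map_add_lt hs hS
  have lp : v (2 * ρ + 5) * v (ρ + 2) < 1 := by
    rw [← k2]; exact mul_lt_one_of_lt_of_le hs hS.le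
  by_cases h : v (ρ + 2) < 1
  · have e : ρ ^ 2 + 5 * ρ + 5 = (ρ + 2) * (ρ + 3) - 1 := by ring
    have l : v (ρ ^ 2 + 5 * ρ + 5) = 1 := by
      rw [e, ← map_one v]
      apply Valuation.map_sub_eq_of_lt_right
      rw [map_mul, map_one]
      exact mul_lt_one_of_lt_of_le h (v.map_add_le hρ.le (RG.v_ofNat v 3))
    exact absurd l (ne_of_lt lf)
  · have h' : v (ρ + 2) = 1 :=
      le_antisymm (v.map_add_le hρ.le (RG.v_ofNat v 2)) (not_lt.1 h)
    rw [h', mul_one] at lp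
    have e : 4 * (ρ ^ 2 + 5 * ρ + 5) = (2 * ρ + 5) * (2 * ρ + 5) - 5 := by ring
    have l : v (4 * (ρ ^ 2 + 5 * ρ + 5)) = 1 := by
      rw [e, ← h5]
      apply Valuation.map_sub_eq_of_lt_right
      rw [map_mul, h5]
      exact mul_lt_one_of_lt_of_le lp lp.le
    rw [map_mul] at l
    have : v 4 * v (ρ ^ 2 + 5 * ρ + 5) < 1 :=
      lt_of_le_of_lt (mul_le_of_le_one_left' (RG.v_ofNat v 4)) lf
    exact absurd l (ne_of_lt this)

end A

/-! ### the curve `X(s3, b5)` -/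

section B

variable {s S ρ : K} (e1 : ρ * (s + S) = -(ρ ^ 2 + 1 * ρ + 1))
  (e2 : ρ * (s * S) = -((2 * ρ + 1) * (ρ + 2)))

include e1 e2

theorem B_bd (hρ : v ρ = 1) (hd : v (ρ - 1) < 1 → v 3 < 1 → v (ρ - 1) ≤ v 3)
    (h30 : v 3 ≠ 0) (hs : v s < v 3) (hS : v S < v 3) : False := by
  have v3 : v 3 ≤ 1 := RG.v_ofNat v 3
  have k1 := e1_val v e1
  have k2 := e2_val v e2
  rw [hρ, one_mul] at k1 k2
  have lf : v (ρ ^ 2 + 1 * ρ + 1) < v 3 := by rw [← k1]; exact v.map_add_lt hs hS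
  have lp : v (2 * ρ + 1) * v (ρ + 2) < 1 := by
    rw [← k2]
    exact mul_lt_one_of_lt_of_le (lt_of_lt_of_le hs v3) (hS.le.trans v3)
  rcases lt_or_eq_of_le v3 with h3 | h3
  · have h22 := v_three_two v h3
    have l1 : v (ρ - 1) < 1 := by
      by_cases h : v (ρ + 2) < 1
      · have e : ρ - 1 = (ρ + 2) - 3 := by ring
        rw [e]; exact v.map_sub_lt h h3
      · have h' : v (ρ + 2) = 1 :=
          le_antisymm (v.map_add_le hρ.le (RG.v_ofNat v 2)) (not_lt.1 h)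
        rw [h', mul_one] at lp
        have e : 2 * (ρ - 1) = (2 * ρ + 1) - 3 := by ring
        have l : v (2 * (ρ - 1)) < 1 := by rw [e]; exact v.map_sub_lt lp h3
        rwa [map_mul, h22, one_mul] at l
    have l2 := hd l1 h3
    have p3 : 0 < v 3 := zero_lt_iff.2 h30
    have l : v (ρ ^ 2 + 1 * ρ + 1) = v 3 := by
      have e : ρ ^ 2 + 1 * ρ + 1 = ((ρ - 1) * (ρ - 1) + 3 * (ρ - 1)) + 3 := by ring
      rw [e]
      apply Valuation.map_add_eq_of_lt_right
      apply v.map_add_lt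
      · rw [map_mul]
        exact lt_of_le_of_lt (mul_le_mul_left l2 _) (mul_lt_of_lt_one_right p3 l1)
      · rw [map_mul]; exact mul_lt_of_lt_one_right p3 l1
    exact absurd l (ne_of_lt lf)
  · rw [h3] at lf
    by_cases h : v (ρ + 2) < 1
    · have e : ρ ^ 2 + 1 * ρ + 1 = (ρ + 2) * (ρ - 1) + 3 := by ring
      have l : v (ρ ^ 2 + 1 * ρ + 1) = 1 := by
        rw [e, ← h3]
        apply Valuation.map_add_eq_of_lt_right
        rw [map_mul, h3]
        exact mul_lt_one_of_lt_of_le h (v.map_sub_le hρ.le (by rw [map_one]))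
      exact absurd l (ne_of_lt lf)
    · have h' : v (ρ + 2) = 1 :=
        le_antisymm (v.map_add_le hρ.le (RG.v_ofNat v 2)) (not_lt.1 h)
      rw [h', mul_one] at lp
      have e : 4 * (ρ ^ 2 + 1 * ρ + 1) = (2 * ρ + 1) * (2 * ρ + 1) + 3 := by ring
      have l : v (4 * (ρ ^ 2 + 1 * ρ + 1)) = 1 := by
        rw [e, ← h3]
        apply Valuation.map_add_eq_of_lt_right
        rw [map_mul, h3]
        exact mul_lt_one_of_lt_of_le lp lp.le
      rw [map_mul] at l
      have : v 4 * v (ρ ^ 2 + 1 * ρ + 1) < 1 :=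
        lt_of_le_of_lt (mul_le_of_le_one_left' (RG.v_ofNat v 4)) lf
      exact absurd l (ne_of_lt this)

end B

/-! ### the size of `ρ` -/

section rho

variable {x s ρ : K} (hx : x + 4 = ρ * (s - 2))

include hx

theorem rho_a (hs : 1 < v s) (h : v x = v s ^ 2) : v s = v ρ := by
  have p : v s ≠ 0 := ne_of_gt (lt_trans zero_lt_one hs)
  have l1 : v (s - 2) = v s :=
    Valuation.map_sub_eq_of_lt_left v (lt_of_le_of_lt (RG.v_ofNat v 2) hs)
  have l2 : v (x + 4) = v x :=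
    RG.v_add_large v (RG.v_ofNat v 4) (by rw [h, pow_two]; exact prod_gt hs hs)
  have e := congrArg v hx
  rw [map_mul, l1, l2, h, pow_two] at e
  exact mul_right_cancel₀ p e

theorem rho_c (hs : 1 < v s) : v ρ * v s = v (x + 4) := by
  have l1 : v (s - 2) = v s :=
    Valuation.map_sub_eq_of_lt_left v (lt_of_le_of_lt (RG.v_ofNat v 2) hs)
  rw [hx, map_mul, l1]

omit hx in
theorem lt_one_of_mul {p q : Γ₀} (hq : 1 < q) (h : p * q ≤ 1) : p < 1 := by
  by_contra hp
  have l : q ≤ p * q := by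
    calc q = 1 * q := (one_mul q).symm
      _ ≤ p * q := mul_le_mul_left (not_lt.1 hp) _
  exact absurd h (not_le.2 (lt_of_lt_of_le hq l))

theorem rho_s (h2 : v 2 = 1) (hs : v s < 1) : v ρ = v (x + 4) := by
  have l1 : v (s - 2) = 1 := by
    rw [← h2]
    apply Valuation.map_sub_eq_of_lt_right
    rw [h2]; exact hs
  rw [hx, map_mul, l1, mul_one]

end rho

end CS87
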