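import Pool.Agent.Lib.MP_87c685_nt_CS.Loc3

/-!
# Local computations at one prime: no non-integral pair in the family `r s + 4 = ρ (s - 2)`
-/

set_option autoImplicit false

namespace CS87

variable {K : Type*} [Field K] {Γ₀ : Type*} [LinearOrderedCommGroupWithZero Γ₀]
  (v : Valuation K Γ₀)

/-- size of `ρ`, the point of `X_0(15)` being non-integral at `v`, `v` odd -/
theorem clsA {r r' s s' ρ : K} (hrr : r * r' = 9) (hss : s * s' = -1)
    (hsum : r + r' + s + s' + 5 = 0) (hx : r * s + 4 = ρ * (s - 2)) (h2 : v 2 = 1)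
    (hM : Mult v r r' s s') :
    (v s = v ρ ∧ 1 < v ρ) ∨ (1 < v s ∧ v ρ < 1 ∧ (v 5 = 1 → v ρ * v s = 1)) ∨
    (v s < 1 ∧ ((v 5 = 1 ∧ v ρ = 1) ∨ (v 5 < 1 ∧ v ρ < 1))) ∨ (v s < 1 ∧ v ρ = 1) := by
  have n1 : v (-1 : K) = 1 := by rw [Valuation.map_neg, map_one]
  have v9 : v 9 ≤ 1 := RG.v_ofNat v 9
  have v5 : v 5 ≤ 1 := RG.v_ofNat v 5
  rcases types v v9 n1.le v5 hrr hss hsum hM with
    ⟨-, t2, t3, -, -⟩ | ⟨-, t2, t3, t4, -, -⟩ | ⟨t1, t2, t3, t4, -⟩ | ⟨-, t2, t3, t4, t5⟩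
  · left
    have e := rho_a v hx t2 t3
    exact ⟨e, by rw [← e]; exact t2⟩
  · right; right; left
    refine ⟨t2, ?_⟩
    have e := rho_s v hx h2 t2
    have e0 : r * s + 4 = 5 + (r * s + -1) := by ring
    have l : v (r * s + -1) < 1 := lt_of_le_of_lt t4 t2
    rcases lt_or_eq_of_le v5 with h5 | h5
    · right
      refine ⟨h5, ?_⟩
      rw [e, e0]; exact v.map_add_lt h5 l
    · left
      refine ⟨h5, ?_⟩
      rw [e, e0, ← h5]
      apply Valuation.map_add_eq_of_lt_left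
      rw [h5]; exact l
  · right; left
    have e := rho_c v hx t2
    have l4 : v (r * s + 4) ≤ 1 := v.map_add_le (by rw [t3]; exact v9) (RG.v_ofNat v 4)
    refine ⟨t2, lt_one_of_mul t2 (by rw [e]; exact l4), ?_⟩
    intro h5
    have e0 : r * s + 4 = (r * s + 9) - 5 := by ring
    rw [e, e0, ← h5]
    apply Valuation.map_sub_eq_of_lt_right
    rw [h5]; exact lt_of_le_of_lt t4 t1
  · right; right; right
    refine ⟨t2, ?_⟩
    have lx : v (r * s) < 1 := by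
      rw [n1, mul_one, mul_assoc] at t3
      exact lt_one_of_mul (prod_gt t4 t5) (by rw [t3]; exact v9)
    have e4 : v (4 : K) = 1 := by
      have e : (4 : K) = 2 * 2 := by norm_num
      rw [e, map_mul, h2, one_mul]
    rw [rho_s v hx h2 t2, ← e4]
    apply Valuation.map_add_eq_of_lt_right
    rw [e4]; exact lx

theorem locA1 [CharZero K] {r r' s s' R R' S S' ρ : K} (hrr : r * r' = 9) (hss : s * s' = -1)
    (hsum : r + r' + s + s' + 5 = 0) (hRR : R * R' = 9) (hSS : S * S' = -1)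
    (hSum : R + R' + S + S' + 5 = 0) (hx : r * s + 4 = ρ * (s - 2)) (hX : R * S + 4 = ρ * (S - 2))
    (e1 : ρ * (s + S) = -(ρ ^ 2 + 5 * ρ + 5)) (e2 : ρ * (s * S) = -((2 * ρ + 5) * (ρ + 2)))
    (hd : v 5 < 1 → v ρ < 1 → v ρ ≤ v 5)
    (hM : Mult v r r' s s') (hM' : Mult v R R' S S')
    (hT : v 2 < 1 → (v r < 1 ↔ v R < 1) ∧ (v s < 1 ↔ v S < 1)) : False := by
  have n1 : v (-1 : K) = 1 := by rw [Valuation.map_neg, map_one]
  have v9 : v 9 ≤ 1 := RG.v_ofNat v 9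
  have v5 : v 5 ≤ 1 := RG.v_ofNat v 5
  have v50 : v 5 ≠ 0 := (Valuation.ne_zero_iff v).2 (by norm_num)
  have hρ0 : ρ ≠ 0 := by
    rintro rfl; norm_num at e1
  have aa : v s = v ρ → v S = v ρ → 1 < v ρ → False := by
    intro h h' h1
    refine AA v e2 ?_ ?_ h h' h1
    · apply v.map_add_le _ (v5.trans h1.le)
      rw [map_mul]; exact mul_le_of_le_one_left' (RG.v_ofNat v 2)
    · exact v.map_add_le le_rfl ((RG.v_ofNat v 2).trans h1.le)
  have cc : v 5 = 1 → v ρ < 1 → v ρ * v s = 1 → 1 < v S → False := by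
    intro h5 h h' h1
    refine CC v e2 ?_ ?_ h' h1
    · apply v.map_add_le _ v5
      rw [map_mul]; exact mul_le_one' (RG.v_ofNat v 2) h.le
    · exact v.map_add_le h.le (RG.v_ofNat v 2)
  by_cases h22 : v 2 < 1
  · have h5 := v_two_five v h22
    obtain ⟨hr, hs⟩ := hT h22
    rcases types v v9 n1.le v5 hrr hss hsum hM with
      ⟨t1, t2, t3, -, -⟩ | ⟨-, t2, -, -, -, -⟩ | ⟨t1, t2, t3, t4, -⟩ | ⟨-, t2, -, -, -⟩
    · rcases types v v9 n1.le v5 hRR hSS hSum hM' with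
        ⟨-, u2, u3, -, -⟩ | ⟨-, u2, -, -, -, -⟩ | ⟨u1, -, -, -, -⟩ | ⟨u1, -, -, -, -⟩
      · have e := rho_a v hx t2 t3
        have e' := rho_a v hX u2 u3
        exact aa e e' (by rw [← e]; exact t2)
      · exact absurd (hs.2 u2) (not_lt.2 t2.le)
      · exact absurd (hr.2 u1) (not_lt.2 t1.le)
      · exact absurd (hr.2 u1) (not_lt.2 t1.le)
    · exact DD v h5 h22 hρ0 e1 e2 t2 (hs.1 t2)
    · rcases types v v9 n1.le v5 hRR hSS hSum hM' with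
        ⟨u1, -, -, -, -⟩ | ⟨u1, -, -, -, -, -⟩ | ⟨-, u2, -, -, -⟩ | ⟨-, u2, -, -, -⟩
      · exact absurd (hr.1 t1) (not_lt.2 u1.le)
      · exact absurd (hr.1 t1) (not_lt.2 u1.le)
      · have e := rho_c v hx t2
        have e0 : r * s + 4 = (r * s + 9) - 5 := by ring
        have e3 : v (r * s + 4) = 1 := by
          rw [e0, ← h5]
          apply Valuation.map_sub_eq_of_lt_right
          rw [h5]; exact lt_of_le_of_lt t4 t1
        rw [e3] at e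
        exact cc h5 (lt_one_of_mul t2 e.le) e u2
      · exact absurd (hs.2 u2) (not_lt.2 t2.le)
    · exact DD v h5 h22 hρ0 e1 e2 t2 (hs.1 t2)
  · have h2 : v 2 = 1 := le_antisymm (RG.v_ofNat v 2) (not_lt.1 h22)
    have c1 := clsA v hrr hss hsum hx h2 hM
    have c2 := clsA v hRR hSS hSum hX h2 hM'
    have e1' : ρ * (S + s) = -(ρ ^ 2 + 5 * ρ + 5) := by rw [add_comm]; exact e1
    have e2' : ρ * (S * s) = -((2 * ρ + 5) * (ρ + 2)) := by rw [mul_comm S s]; exact e2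
    rcases lt_or_eq_of_le v5 with h5 | h5
    · rcases c1 with ⟨a1, a2⟩ | ⟨a1, a2, -⟩ | ⟨a1, ⟨a2, -⟩ | ⟨-, a3⟩⟩ | ⟨a1, a2⟩
      · rcases c2 with ⟨b1, b2⟩ | ⟨b1, b2, -⟩ | ⟨b1, ⟨b2, -⟩ | ⟨-, b3⟩⟩ | ⟨b1, b2⟩
        · exact aa a1 b1 a2
        · exact lt_asymm a2 b2
        · exact absurd b2 (ne_of_lt h5)
        · exact lt_asymm a2 b3
        · exact absurd b2 (ne_of_gt a2)
      · rcases c2 with ⟨b1, b2⟩ | ⟨b1, b2, -⟩ | ⟨b1, ⟨b2, -⟩ | ⟨-, b3⟩⟩ | ⟨b1, b2⟩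
        · exact lt_asymm a2 b2
        · exact A_cc v e1 e2 v50 a2 (hd h5 a2) a1 b1
        · exact absurd b2 (ne_of_lt h5)
        · exact A_bc v e1' e2' v50 h2 a2 (hd h5 a2) b1 a1
        · exact absurd b2 (ne_of_lt a2)
      · exact absurd a2 (ne_of_lt h5)
      · rcases c2 with ⟨b1, b2⟩ | ⟨b1, b2, -⟩ | ⟨b1, ⟨b2, -⟩ | ⟨-, b3⟩⟩ | ⟨b1, b2⟩
        · exact lt_asymm a3 b2
        · exact A_bc v e1 e2 v50 h2 a3 (hd h5 a3) a1 b1
        · exact absurd b2 (ne_of_lt h5)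
        · exact A_bb v e1 e2 v50 h2 hρ0 a3 a1 b1
        · exact absurd b2 (ne_of_lt a3)
      · rcases c2 with ⟨b1, b2⟩ | ⟨b1, b2, -⟩ | ⟨b1, ⟨b2, -⟩ | ⟨-, b3⟩⟩ | ⟨b1, b2⟩
        · exact absurd a2 (ne_of_gt b2)
        · exact absurd a2 (ne_of_lt b2)
        · exact absurd b2 (ne_of_lt h5)
        · exact absurd a2 (ne_of_lt b3)
        · exact A_dd5 v e1 h5 a2 a1 b1
    · rcases c1 with ⟨a1, a2⟩ | ⟨a1, a2, a3⟩ | ⟨a1, ⟨-, a3⟩ | ⟨a2, -⟩⟩ | ⟨a1, a3⟩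
      · rcases c2 with ⟨b1, b2⟩ | ⟨b1, b2, -⟩ | ⟨b1, ⟨-, b3⟩ | ⟨b2, -⟩⟩ | ⟨b1, b3⟩
        · exact aa a1 b1 a2
        · exact lt_asymm a2 b2
        · exact absurd b3 (ne_of_gt a2)
        · exact absurd h5 (ne_of_lt b2)
        · exact absurd b3 (ne_of_gt a2)
      · rcases c2 with ⟨b1, b2⟩ | ⟨b1, b2, -⟩ | ⟨b1, ⟨-, b3⟩ | ⟨b2, -⟩⟩ | ⟨b1, b3⟩
        · exact lt_asymm a2 b2
        · exact cc h5 a2 (a3 h5) b1
        · exact absurd b3 (ne_of_lt a2)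
        · exact absurd h5 (ne_of_lt b2)
        · exact absurd b3 (ne_of_lt a2)
      · rcases c2 with ⟨b1, b2⟩ | ⟨b1, b2, -⟩ | ⟨b1, ⟨-, b3⟩ | ⟨b2, -⟩⟩ | ⟨b1, b3⟩
        · exact absurd a3 (ne_of_gt b2)
        · exact absurd a3 (ne_of_lt b2)
        · exact A_bd v e1 e2 h5 a3 a1 b1
        · exact absurd h5 (ne_of_lt b2)
        · exact A_bd v e1 e2 h5 a3 a1 b1
      · exact absurd h5 (ne_of_lt a2)
      · rcases c2 with ⟨b1, b2⟩ | ⟨b1, b2, -⟩ | ⟨b1, ⟨-, b3⟩ | ⟨b2, -⟩⟩ | ⟨b1, b3⟩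
        · exact absurd a3 (ne_of_gt b2)
        · exact absurd a3 (ne_of_lt b2)
        · exact A_bd v e1 e2 h5 a3 a1 b1
        · exact absurd h5 (ne_of_lt b2)
        · exact A_bd v e1 e2 h5 a3 a1 b1

theorem small_of [CharZero K] {s s' : K} (h : s * s' = 3) (h' : 1 < v s') : v s < v 3 := by
  have hs0 : s ≠ 0 := by
    rintro rfl; rw [zero_mul] at h; norm_num at h
  rw [← h, map_mul]
  exact (lt_mul_iff_one_lt_right (RG.v_pos v hs0)).mpr h'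

/-- size of `ρ`, the point of `X(s3, b5)` being non-integral at `v` -/
theorem clsB [CharZero K] {r r' s s' ρ : K} (hrr : r * r' = 5) (hss : s * s' = 3)
    (hsum : r + r' + s + s' + 1 = 0) (hx : r * s + 4 = ρ * (s - 2)) (hM : Mult v r r' s s') :
    (1 < v r ∧ v s = v ρ ∧ 1 < v ρ) ∨ (v r < 1 ∧ 1 < v s ∧ v ρ < 1 ∧ v ρ * v s = 1) ∨
    (v s < 1 ∧ v s < v 3 ∧ (v 2 = 1 → v ρ = 1)) := by
  have v5 : v 5 ≤ 1 := RG.v_ofNat v 5
  have v3 : v 3 ≤ 1 := RG.v_ofNat v 3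
  have v1 : v (1 : K) ≤ 1 := by rw [map_one]
  rcases types v v5 v3 v1 hrr hss hsum hM with
    ⟨t1, t2, t3, -, -⟩ | ⟨-, t2, t3, t4, t5, -⟩ | ⟨t1, t2, t3, t4, -⟩ | ⟨-, t2, t3, t4, t5⟩
  · left
    have e := rho_a v hx t2 t3
    exact ⟨t1, e, by rw [← e]; exact t2⟩
  · right; right
    obtain ⟨c1, c2, -, -⟩ := RG.v_pair v v5 v3 v1 hrr
      (show s' * s = 3 by rw [mul_comm]; exact hss) (by linear_combination hsum) t5
    refine ⟨t2, small_of v hss (by rw [c2]; exact c1), ?_⟩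
    intro h2
    have e0 : r * s + 4 = 1 + (r * s + 3) := by ring
    rw [rho_s v hx h2 t2, e0, ← map_one v]
    apply Valuation.map_add_eq_of_lt_left
    rw [map_one]; exact lt_of_le_of_lt t4 t2
  · right; left
    have e := rho_c v hx t2
    have e0 : r * s + 4 = (r * s + 5) - 1 := by ring
    have e3 : v (r * s + 4) = 1 := by
      rw [e0, ← map_one v]
      apply Valuation.map_sub_eq_of_lt_right
      rw [map_one]; exact lt_of_le_of_lt t4 t1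
    rw [e3] at e
    exact ⟨t1, t2, lt_one_of_mul t2 e.le, e⟩
  · right; right
    refine ⟨t2, small_of v hss t5, ?_⟩
    intro h2
    have lx : v (r * s) < 1 := by
      rw [mul_assoc] at t3
      exact lt_one_of_mul (prod_gt t4 t5) (by rw [t3]; exact mul_le_one' v5 v3)
    have e4 : v (4 : K) = 1 := by
      have e : (4 : K) = 2 * 2 := by norm_num
      rw [e, map_mul, h2, one_mul]
    rw [rho_s v hx h2 t2, ← e4]
    apply Valuation.map_add_eq_of_lt_right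
    rw [e4]; exact lx

theorem locB1 [CharZero K] {r r' s s' R R' S S' ρ : K} (hrr : r * r' = 5) (hss : s * s' = 3)
    (hsum : r + r' + s + s' + 1 = 0) (hRR : R * R' = 5) (hSS : S * S' = 3)
    (hSum : R + R' + S + S' + 1 = 0) (hx : r * s + 4 = ρ * (s - 2)) (hX : R * S + 4 = ρ * (S - 2))
    (e1 : ρ * (s + S) = -(ρ ^ 2 + 1 * ρ + 1)) (e2 : ρ * (s * S) = -((2 * ρ + 1) * (ρ + 2)))
    (hd : v (ρ - 1) < 1 → v 3 < 1 → v (ρ - 1) ≤ v 3)
    (hM : Mult v r r' s s') (hM' : Mult v R R' S S')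
    (hT : v 2 < 1 → (v r < 1 ↔ v R < 1) ∧ (v s < 1 ↔ v S < 1)) : False := by
  have v30 : v 3 ≠ 0 := (Valuation.ne_zero_iff v).2 (by norm_num)
  have v1 : v (1 : K) ≤ 1 := by rw [map_one]
  have hρ0 : ρ ≠ 0 := by
    rintro rfl; norm_num at e1
  have aa : v s = v ρ → v S = v ρ → 1 < v ρ → False := by
    intro h h' h1
    refine AA v e2 ?_ ?_ h h' h1
    · apply v.map_add_le _ (v1.trans h1.le)
      rw [map_mul]; exact mul_le_of_le_one_left' (RG.v_ofNat v 2)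
    · exact v.map_add_le le_rfl ((RG.v_ofNat v 2).trans h1.le)
  have cc : v ρ < 1 → v ρ * v s = 1 → 1 < v S → False := by
    intro h h' h1
    refine CC v e2 ?_ ?_ h' h1
    · apply v.map_add_le _ v1
      rw [map_mul]; exact mul_le_one' (RG.v_ofNat v 2) h.le
    · exact v.map_add_le h.le (RG.v_ofNat v 2)
  have c1 := clsB v hrr hss hsum hx hM
  have c2 := clsB v hRR hSS hSum hX hM'
  by_cases h22 : v 2 < 1
  · obtain ⟨hr, hs⟩ := hT h22
    have dd := DD v (c := 1) (map_one v) h22 hρ0 e1 e2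
    rcases c1 with ⟨a0, a1, a2⟩ | ⟨a0, a1, a2, a3⟩ | ⟨a1, -, -⟩
    · rcases c2 with ⟨b0, b1, b2⟩ | ⟨b0, b1, b2, b3⟩ | ⟨b1, -, -⟩
      · exact aa a1 b1 a2
      · exact lt_asymm a2 b2
      · exact dd (hs.2 b1) b1
    · rcases c2 with ⟨b0, b1, b2⟩ | ⟨b0, b1, b2, b3⟩ | ⟨b1, -, -⟩
      · exact lt_asymm a2 b2
      · exact cc a2 a3 b1
      · exact dd (hs.2 b1) b1
    · exact dd a1 (hs.1 a1)
  · have h2 : v 2 = 1 := le_antisymm (RG.v_ofNat v 2) (not_lt.1 h22)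
    rcases c1 with ⟨a0, a1, a2⟩ | ⟨a0, a1, a2, a3⟩ | ⟨a0, a1, a3⟩
    · rcases c2 with ⟨b0, b1, b2⟩ | ⟨b0, b1, b2, b3⟩ | ⟨b0, b1, b3⟩
      · exact aa a1 b1 a2
      · exact lt_asymm a2 b2
      · exact absurd (b3 h2) (ne_of_gt a2)
    · rcases c2 with ⟨b0, b1, b2⟩ | ⟨b0, b1, b2, b3⟩ | ⟨b0, b1, b3⟩
      · exact lt_asymm a2 b2
      · exact cc a2 a3 b1
      · exact absurd (b3 h2) (ne_of_lt a2)
    · rcases c2 with ⟨b0, b1, b2⟩ | ⟨b0, b1, b2, b3⟩ | ⟨b0, b1, b3⟩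
      · exact absurd (a3 h2) (ne_of_gt b2)
      · exact absurd (a3 h2) (ne_of_lt b2)
      · exact B_bd v e1 e2 (a3 h2) hd v30 a1 b1

end CS87
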