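import Pool.Agent.Lib.MP_87c685_nt_CS.NormFive
import Pool.Agent.Lib.MP_87c685_nt_CS.GoodTwo

/-!
# No points with `j` integral above two if 5 is not a norm
-/

set_option autoImplicit false
set_option linter.unusedSimpArgs false

open NumberField IsDedekindDomain

namespace CS87

variable {K : Type*} [Field K] [NumberField K]

/-- the other root of a rational quadratic -/
theorem conj_root (h2 : Module.finrank ℚ K = 2) (σ : K ≃ₐ[ℚ] K) (hσ : σ ≠ 1) (r r' : K)
    (t n : ℚ) (hs : r + r' = t) (hp : r * r' = n) (hr : ∀ q : ℚ, r ≠ q) : σ r = r' := by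
  have e : (r : K) ^ 2 - t * r + n = 0 := by
    rw [← hs, ← hp]; ring
  have e' : (σ r) ^ 2 - t * σ r + n = 0 := by
    have := congrArg σ e
    simp only [map_add, map_sub, map_mul, map_pow, map_ratCast, map_zero] at this
    exact this
  have hne : σ r - r ≠ 0 := by
    intro h0
    obtain ⟨q, hq⟩ := RG.fix_rat h2 σ hσ r (sub_eq_zero.1 h0)
    exact hr q hq
  have e2 : (σ r - r) * (σ r - r') = 0 := by
    have : (r' : K) = t - r := by linear_combination hs
    rw [this]
    linear_combination e' - e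
  rcases mul_eq_zero.1 e2 with h | h
  · exact absurd h hne
  · exact sub_eq_zero.1 h

theorem fiveB (h2 : Module.finrank ℚ K = 2) {r r' s s' : K} (hrr : r * r' = 5)
    (hss : s * s' = 3) (hsum : r + r' + s + s' + 1 = 0) (hs : ∃ q : ℚ, s = q)
    (hn : ¬ ∃ q : ℚ, r * s = q) : ∃ z : K, Algebra.norm ℚ z = 5 := by
  obtain ⟨σ, hσ⟩ := RG.exists_conj h2
  obtain ⟨q, hq⟩ := hs
  have hs0 : s ≠ 0 := by
    rintro rfl; rw [zero_mul] at hss; norm_num at hss
  have es : s' = ((3 / q : ℚ) : K) := by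
    push_cast
    rw [← hq, eq_div_iff hs0, mul_comm]; exact hss
  have hr : ∀ p : ℚ, r ≠ p := by
    intro p hp
    exact hn ⟨p * q, by rw [hp, hq]; push_cast; ring⟩
  have hc := conj_root h2 σ hσ r r' (-(q + 3 / q + 1)) 5
    (by rw [hq, es] at hsum; push_cast at hsum ⊢; linear_combination hsum)
    (by rw [hrr]; push_cast; rfl) hr
  exact ⟨r, norm_five_of h2 σ hσ r (by rw [hc]; exact hrr)⟩

theorem fiveA (h2 : Module.finrank ℚ K = 2) {r r' s s' : K} (hrr : r * r' = 9)
    (hss : s * s' = -1) (hsum : r + r' + s + s' + 5 = 0) (hs : ∃ q : ℚ, s = q)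
    (hn : ¬ ∃ q : ℚ, r * s = q) : ∃ z : K, Algebra.norm ℚ z = 5 := by
  obtain ⟨σ, hσ⟩ := RG.exists_conj h2
  obtain ⟨q, hq⟩ := hs
  have hs0 : s ≠ 0 := by
    rintro rfl; rw [zero_mul] at hss; norm_num at hss
  have es : s' = ((-1 / q : ℚ) : K) := by
    push_cast
    rw [← hq, eq_div_iff hs0, mul_comm]; exact hss
  have hr : ∀ p : ℚ, r ≠ p := by
    intro p hp
    exact hn ⟨p * q, by rw [hp, hq]; push_cast; ring⟩
  have hc := conj_root h2 σ hσ r r' (-(q + -1 / q + 5)) 9
    (by rw [hq, es] at hsum; push_cast at hsum ⊢; linear_combination hsum)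
    (by rw [hrr]; push_cast; rfl) hr
  have hσr' : σ r' = r := by
    have e := congrArg σ hrr
    rw [map_mul, hc, map_ofNat] at e
    have hr'0 : r' ≠ 0 := by
      intro h; rw [h, mul_zero] at hrr; norm_num at hrr
    apply mul_left_cancel₀ hr'0
    rw [e, mul_comm]; exact hrr.symm
  have hσs : σ s = s := by rw [hq, map_ratCast]
  have h20 : 2 * s - 4 ≠ 0 := by
    intro h
    have hs2 : s = 2 := by linear_combination h / 2
    have hs2' : s' = -1 / 2 := by
      rw [eq_div_iff two_ne_zero, mul_comm, ← hs2]; exact hss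
    have e : (2 * r + 9) * (r + 2) = 0 := by
      rw [hs2, hs2'] at hsum
      linear_combination 2 * r * hsum - 2 * hrr
    rcases mul_eq_zero.1 e with h | h
    · exact hr (-9 / 2) (by push_cast; linear_combination h / 2)
    · exact hr (-2) (by push_cast; linear_combination h)
  refine ⟨(s ^ 2 + 5 * s - 9 + s * (r - r')) / (2 * s - 4), norm_five_of h2 σ hσ _ ?_⟩
  have hσz : σ ((s ^ 2 + 5 * s - 9 + s * (r - r')) / (2 * s - 4)) =
      (s ^ 2 + 5 * s - 9 + s * (r' - r)) / (2 * s - 4) := by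
    simp only [map_div₀, map_sub, map_mul, map_add, map_pow, map_ofNat, hc, hσr', hσs]
  rw [hσz, div_mul_div_comm, div_eq_iff (mul_ne_zero h20 h20)]
  have hsum' : s * (r + r') = -(s ^ 2 + 5 * s - 1) := by
    linear_combination s * hsum - hss
  linear_combination (-(s * (r + r')) + (s ^ 2 + 5 * s - 1)) * hsum' + 4 * s ^ 2 * hrr

/-- every point of `X_0(15)` has `j` not integral at every prime above 2, unless 2 is inert and 5
is a norm -/
theorem noPoint_A [IsTotallyComplex K] (h2 : Module.finrank ℚ K = 2) (j G k : K)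
    (h5 : j * k = (k ^ 2 + 10 * k + 5) ^ 3) (h3 : j * G = (G + 27) * (G + 3) ^ 3)
    (w : HeightOneSpectrum (𝓞 K)) (hw : w.valuation K 2 < 1) (hj : w.valuation K j ≤ 1)
    (hc : Ideal.absNorm w.asIdeal = 2 ∨ ∀ z : K, Algebra.norm ℚ z ≠ 5) : False := by
  have h5' : k * j = (k ^ 2 + 10 * k + 5) ^ 3 := by rw [mul_comm]; exact h5
  have h3' : G * j = (G + 27) * (G + 3) ^ 3 := by rw [mul_comm]; exact h3
  have hw' := mem_two_of w hw
  rcases hc with hc | hc
  · exact normTwoA h2 j G k h5' h3' w hc hj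
  · obtain ⟨r, r', s, s', hrr, hss, hsum, hG, hs⟩ := RG.dictA h2 j G k h5' h3'
    obtain ⟨hn, h⟩ := potTwoA' j G k h5' h3' r r' s s' hrr hss hsum hG hs
      (thirdA h2 r r' s s' hrr hss hsum) w hw' hj
    have key : ∃ z : K, Algebra.norm ℚ z = 5 := by
      by_cases hsq : ∃ q : ℚ, s = q
      · exact fiveA h2 hrr hss hsum hsq hn
      · rcases h with h | h
        · exact absurd h hsq
        · push Not at hsq
          exact noFiveA h2 hrr hss hsum hsq h
    obtain ⟨z, hz⟩ := key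
    exact hc z hz

theorem noPoint_B [IsTotallyComplex K] (h2 : Module.finrank ℚ K = 2) (j c x k : K)
    (h5 : j * k = (k ^ 2 + 10 * k + 5) ^ 3) (h3 : c ^ 3 = j)
    (hx : c * x = (x + 3) * (x - 9))
    (w : HeightOneSpectrum (𝓞 K)) (hw : w.valuation K 2 < 1) (hj : w.valuation K j ≤ 1)
    (hc : Ideal.absNorm w.asIdeal = 2 ∨ ∀ z : K, Algebra.norm ℚ z ≠ 5) : False := by
  have h5' : k * j = (k ^ 2 + 10 * k + 5) ^ 3 := by rw [mul_comm]; exact h5
  have ht : c * (x / 3) = 3 * (x / 3 + 1) * (x / 3 - 3) := by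
    linear_combination (1 / 3) * hx
  have hw' := mem_two_of w hw
  rcases hc with hc | hc
  · exact normTwoB h2 j c (x / 3) k h5' h3 ht w hc hj
  · obtain ⟨r, r', s, s', hrr, hss, hsum, hk, hcc, ht1, ht2⟩ :=
      RG.dictB h2 j c (x / 3) k h5' h3 ht
    obtain ⟨hn, h⟩ := potTwoB' j c (x / 3) k h5' h3 r r' s s' hrr hss hsum hk hcc ht1 ht2
      (thirdB h2 r r' s s' hrr hss hsum) w hw' hj
    have key : ∃ z : K, Algebra.norm ℚ z = 5 := by
      by_cases hsq : ∃ q : ℚ, s = q
      · exact fiveB h2 hrr hss hsum hsq hn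
      · rcases h with h | h
        · exact absurd h hsq
        · push Not at hsq
          exact noFiveB h2 hrr hss hsum hsq h
    obtain ⟨z, hz⟩ := key
    exact hc z hz

end CS87
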