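import Pool.Agent.Lib.MP_87c685_nt_CS.Unst

/-!
# If no split prime occurs, the set is stable under conjugation
-/

set_option autoImplicit false

open NumberField IsDedekindDomain

namespace CS87

variable {K : Type*} [Field K] [NumberField K]

theorem mem_under (w : HeightOneSpectrum (𝓞 K)) (n : ℤ) :
    n ∈ w.asIdeal.under ℤ ↔ w.valuation K (n : K) < 1 := by
  have e : (n : K) = algebraMap (𝓞 K) K (algebraMap ℤ (𝓞 K) n) := by simp
  rw [e, HeightOneSpectrum.valuation_lt_one_iff_mem]
  rfl

theorem conjStable_of_nonsplit (j : K)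
    (h : ∀ w w' : HeightOneSpectrum (𝓞 K), 1 < w.valuation K j →
      w'.asIdeal.under ℤ = w.asIdeal.under ℤ → w' = w) : ConjStable j := by
  refine ⟨?_, ?_⟩
  · intro σ w hw
    obtain ⟨w', hw'⟩ := exists_conj_prime σ w
    have e : w' = w := by
      apply h w w' hw
      ext n
      rw [mem_under, mem_under, hw', map_intCast]
    rw [← hw', e]
    exact hw
  · intro w w' hw h2 h2'
    apply h w w' hw
    have key : ∀ u : HeightOneSpectrum (𝓞 K), u.valuation K 2 < 1 →
        ∀ n : ℤ, u.valuation K (n : K) < 1 ↔ (2 : ℤ) ∣ n := by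
      intro u hu n
      have hu' : u.valuation K ((2 : ℤ) : K) < 1 := by exact_mod_cast hu
      constructor
      · intro hn
        by_contra hd
        have := v_coprime (u.valuation K) ((Prime.coprime_iff_not_dvd Int.prime_two).2 hd) hu'
        exact absurd this (ne_of_lt hn)
      · rintro ⟨m, rfl⟩
        push_cast
        rw [map_mul]
        exact lt_of_le_of_lt (mul_le_of_le_one_right' (RG.v_int _ m)) hu
    ext n
    rw [mem_under, mem_under, key w h2, key w' h2']

end CS87
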