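import Pool.Agent.Lib.MP_87c685_nt_CS.Stab
import Pool.Agent.Lib.MP_87c685_nt_RG.Final

/-!
# In the fourth family 5 is a norm
-/

set_option autoImplicit false
set_option linter.unusedSimpArgs false

open NumberField IsDedekindDomain

namespace CS87

variable {K : Type*} [Field K] [NumberField K]

theorem norm_conj (h2 : Module.finrank ℚ K = 2) (σ : K ≃ₐ[ℚ] K) (hσ : σ ≠ 1) (z : K) :
    ((Algebra.norm ℚ z : ℚ) : K) = z * σ z := by
  classical
  have : Algebra.IsQuadraticExtension ℚ K := ⟨h2⟩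
  have : IsGalois ℚ K := inferInstance
  have h := IsGalois.card_aut_eq_finrank ℚ K
  rw [h2, Nat.card_eq_fintype_card] at h
  have huniv : (Finset.univ : Finset (K ≃ₐ[ℚ] K)) = {1, σ} := by
    symm
    apply Finset.eq_univ_of_card
    rw [h, Finset.card_pair hσ.symm]
  have e := Algebra.norm_eq_prod_automorphisms ℚ z
  rw [huniv, Finset.prod_pair hσ.symm] at e
  have e0 : ((Algebra.norm ℚ z : ℚ) : K) = algebraMap ℚ K (Algebra.norm ℚ z) := by simp
  rw [e0, e]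
  rfl

theorem norm_five_of (h2 : Module.finrank ℚ K = 2) (σ : K ≃ₐ[ℚ] K) (hσ : σ ≠ 1) (z : K)
    (h : z * σ z = 5) : Algebra.norm ℚ z = 5 := by
  have e := norm_conj h2 σ hσ z
  rw [h] at e
  exact_mod_cast e

theorem noFiveA (h2 : Module.finrank ℚ K = 2) {r r' s s' : K} (hrr : r * r' = 9)
    (hss : s * s' = -1) (hsum : r + r' + s + s' + 5 = 0) (hs : ∀ q : ℚ, s ≠ q)
    (hx : ∃ ρ : ℚ, r * s + 4 = ρ * (s - 2)) : ∃ z : K, Algebra.norm ℚ z = 5 := by
  obtain ⟨σ, hσ⟩ := RG.exists_conj h2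
  obtain ⟨ρ, hρ⟩ := hx
  have hs2 : s - 2 ≠ 0 := by
    intro h
    exact hs 2 (by push_cast; linear_combination h)
  have hs0 : s ≠ 0 := by
    intro h
    exact hs 0 (by push_cast; exact h)
  have hc : (r * s + 9) * s ^ 2 + 5 * (r * s) * s + r * s * (r * s - 1) = 0 := by
    linear_combination (-s ^ 2 : K) * hrr - r * s * hss + r * s ^ 2 * hsum
  have hq : (ρ : K) * s ^ 2 + (ρ ^ 2 + 5 * ρ + 5) * s + (-((2 * ρ + 5) * (ρ + 2))) = 0 := by
    apply mul_left_cancel₀ hs2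
    rw [mul_zero, ← hc]
    linear_combination (-(s ^ 2) - 5 * s - (r * s) - ρ * (s - 2) + 5) * hρ
  obtain ⟨e1, e2⟩ := quad_conj h2 σ hσ s _ _ _ (by simp only [map_add, map_sub, map_mul, map_pow, map_neg, map_ratCast, map_ofNat, map_one])
    (by simp only [map_add, map_sub, map_mul, map_pow, map_neg, map_ratCast, map_ofNat, map_one])
    (by simp only [map_add, map_sub, map_mul, map_pow, map_neg, map_ratCast, map_ofNat, map_one]) hq hs
  have hρ0 : ρ ≠ 0 := by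
    rintro rfl
    norm_num at e1
  have hρK : (ρ : K) ≠ 0 := by exact_mod_cast hρ0
  have hσs0 : σ s ≠ 0 := (map_ne_zero σ).2 hs0
  have hm : (2 * ρ + 5 : ℚ) ≠ 0 := by
    intro h
    have hK : (2 * ρ + 5 : K) = 0 := by exact_mod_cast h
    rw [hK, zero_mul, neg_zero] at e2
    exact mul_ne_zero hρK (mul_ne_zero hs0 hσs0) e2
  have hmK : (3 * (2 * ρ + 5) : K) ≠ 0 := by
    have : (2 * ρ + 5 : K) ≠ 0 := by exact_mod_cast hm
    exact mul_ne_zero (by norm_num) this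
  refine ⟨(9 - 4 * (r * s)) / (3 * (2 * ρ + 5)), norm_five_of h2 σ hσ _ ?_⟩
  have hx1 : 9 - 4 * (r * s) = 25 - 4 * ρ * (s - 2) := by linear_combination -4 * hρ
  rw [hx1]
  have hσ1 : σ ((25 - 4 * ρ * (s - 2)) / (3 * (2 * ρ + 5))) =
      (25 - 4 * ρ * (σ s - 2)) / (3 * (2 * ρ + 5)) := by
    simp only [map_div₀, map_sub, map_mul, map_add, map_ratCast, map_ofNat]
  rw [hσ1, div_mul_div_comm, div_eq_iff (mul_ne_zero hmK hmK)]
  linear_combination (-4 * (25 + 8 * (ρ : K))) * e1 + 16 * ρ * e2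

theorem noFiveB (h2 : Module.finrank ℚ K = 2) {r r' s s' : K} (hrr : r * r' = 5)
    (hss : s * s' = 3) (hsum : r + r' + s + s' + 1 = 0) (hs : ∀ q : ℚ, s ≠ q)
    (hx : ∃ ρ : ℚ, r * s + 4 = ρ * (s - 2)) : ∃ z : K, Algebra.norm ℚ z = 5 := by
  obtain ⟨σ, hσ⟩ := RG.exists_conj h2
  obtain ⟨ρ, hρ⟩ := hx
  have hs2 : s - 2 ≠ 0 := by
    intro h
    exact hs 2 (by push_cast; linear_combination h)
  have hs0 : s ≠ 0 := by
    intro h
    exact hs 0 (by push_cast; exact h)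
  have hc : (r * s + 5) * s ^ 2 + (r * s) * s + r * s * (r * s + 3) = 0 := by
    linear_combination (-s ^ 2 : K) * hrr - r * s * hss + r * s ^ 2 * hsum
  have hq : (ρ : K) * s ^ 2 + (ρ ^ 2 + 1 * ρ + 1) * s + (-((2 * ρ + 1) * (ρ + 2))) = 0 := by
    apply mul_left_cancel₀ hs2
    rw [mul_zero, ← hc]
    linear_combination (-(s ^ 2) - s - (r * s) - ρ * (s - 2) + 1) * hρ
  obtain ⟨e1, e2⟩ := quad_conj h2 σ hσ s _ _ _ (by simp only [map_add, map_sub, map_mul, map_pow, map_neg, map_ratCast, map_ofNat, map_one])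
    (by simp only [map_add, map_sub, map_mul, map_pow, map_neg, map_ratCast, map_ofNat, map_one])
    (by simp only [map_add, map_sub, map_mul, map_pow, map_neg, map_ratCast, map_ofNat, map_one]) hq hs
  have hρ0 : ρ ≠ 0 := by
    rintro rfl
    norm_num at e1
  have hρK : (ρ : K) ≠ 0 := by exact_mod_cast hρ0
  have hσs0 : σ s ≠ 0 := (map_ne_zero σ).2 hs0
  have hm : (ρ + 2 : ℚ) ≠ 0 := by
    intro h
    have hK : (ρ + 2 : K) = 0 := by exact_mod_cast h
    rw [hK, mul_zero, neg_zero] at e2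
    exact mul_ne_zero hρK (mul_ne_zero hs0 hσs0) e2
  have hmK : (ρ + 2 : K) ≠ 0 := by exact_mod_cast hm
  refine ⟨(r * s) / (ρ + 2), norm_five_of h2 σ hσ _ ?_⟩
  have hx1 : r * s = ρ * (s - 2) - 4 := by linear_combination hρ
  rw [hx1]
  have hσ1 : σ ((ρ * (s - 2) - 4) / (ρ + 2)) = (ρ * (σ s - 2) - 4) / (ρ + 2) := by
    simp only [map_div₀, map_sub, map_mul, map_add, map_ratCast, map_ofNat]
  rw [hσ1, div_mul_div_comm, div_eq_iff (mul_ne_zero hmK hmK)]
  linear_combination (-(2 * (ρ : K) + 4)) * e1 + ρ * e2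

end CS87
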