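import Pool.Agent.Lib.MP_87c685_nt_RG.Good

/-!
# Primes of norm two: no points with potentially good reduction
-/

set_option autoImplicit false

open NumberField IsDedekindDomain

namespace CS87

variable {K : Type*} [Field K]

section val

variable {Γ₀ : Type*} [LinearOrderedCommGroupWithZero Γ₀] (v : Valuation K Γ₀)

theorem v_le_of_quad {x a b : K} (ha : v a ≤ 1) (hb : v b ≤ 1) (h : x ^ 2 + a * x + b = 0) :
    v x ≤ 1 := by
  by_contra hx
  push Not at hx
  have h1 := RG.v_quad v ha hb hx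
  rw [h, map_zero] at h1
  exact absurd h1 (ne_of_lt (pow_pos (lt_trans zero_lt_one hx) 2))

theorem v_int_all {r r' s s' a b c : K} (ha : v a ≤ 1) (hb : v b ≤ 1) (hc : v c ≤ 1)
    (hrr : r * r' = a) (hss : s * s' = b)
    (hsum : r + r' + s + s' + c = 0) (h1 : v (r * s) ≤ 1) (h2 : v (r' * s) ≤ 1)
    (h3 : v (r * s') ≤ 1) (h4 : v (r' * s') ≤ 1) :
    v r ≤ 1 ∧ v r' ≤ 1 ∧ v s ≤ 1 ∧ v s' ≤ 1 := by
  refine ⟨?_, ?_, ?_, ?_⟩
  · apply v_le_of_quad v hc (v.map_add_le ha (v.map_add_le h1 h3))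
    linear_combination r * hsum - hrr
  · apply v_le_of_quad v hc (v.map_add_le ha (v.map_add_le h2 h4))
    linear_combination r' * hsum - hrr
  · apply v_le_of_quad v hc (v.map_add_le hb (v.map_add_le h1 h2))
    linear_combination s * hsum - hss
  · apply v_le_of_quad v hc (v.map_add_le hb (v.map_add_le h3 h4))
    linear_combination s' * hsum - hss

theorem v_unit_of_mul {x y a : K} (h : x * y = a) (ha : v a = 1) (hx : v x ≤ 1) (hy : v y ≤ 1) :
    v x = 1 ∧ v y = 1 := by
  have e : v x * v y = 1 := by rw [← map_mul, h, ha]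
  constructor
  · apply le_antisymm hx
    by_contra hc
    push Not at hc
    have : v x * v y < 1 := by
      calc v x * v y ≤ v x * 1 := mul_le_mul_right hy _
        _ = v x := mul_one _
        _ < 1 := hc
    exact absurd e (ne_of_lt this)
  · apply le_antisymm hy
    by_contra hc
    push Not at hc
    have : v x * v y < 1 := by
      calc v x * v y ≤ 1 * v y := mul_le_mul_left hx _
        _ = v y := one_mul _
        _ < 1 := hc
    exact absurd e (ne_of_lt this)

/-- all units are congruent to one -/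
def Res2 : Prop := ∀ x : K, v x ≤ 1 → v x < 1 ∨ v (x - 1) < 1

theorem res_one (h : Res2 v) {x : K} (hx : v x = 1) : v (x - 1) < 1 := by
  rcases h x hx.le with h1 | h1
  · exact absurd hx (ne_of_lt h1)
  · exact h1

theorem sum_contra (h : Res2 v) {r r' s s' a b c d : K} (hc : d = c + 4)
    (ha : v a = 1) (hb : v b = 1) (hd : v d = 1)
    (hrr : r * r' = a) (hss : s * s' = b)
    (hsum : r + r' + s + s' + c = 0) (hr : v r ≤ 1) (hr' : v r' ≤ 1)
    (hs : v s ≤ 1) (hs' : v s' ≤ 1) : False := by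
  obtain ⟨e1, e2⟩ := v_unit_of_mul v hrr ha hr hr'
  obtain ⟨e3, e4⟩ := v_unit_of_mul v hss hb hs hs'
  have e : d = -((r - 1) + (r' - 1) + (s - 1) + (s' - 1)) := by
    rw [hc]; linear_combination hsum
  have : v d < 1 := by
    rw [e, Valuation.map_neg]
    exact v.map_add_lt (v.map_add_lt (v.map_add_lt (res_one v h e1) (res_one v h e2))
      (res_one v h e3)) (res_one v h e4)
  exact absurd hd (ne_of_lt this)

theorem v_oddN (h2 : v (2 : K) < 1) (n : ℕ) : v ((2 * n + 1 : ℕ) : K) = 1 := by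
  push_cast
  have h1 : v (2 * (n : K)) < v (1 : K) := by
    rw [map_mul, map_one]
    calc v 2 * v (n : K) ≤ v 2 * 1 := mul_le_mul_right (RG.v_nat v n) _
      _ = v 2 := mul_one _
      _ < 1 := h2
  rw [Valuation.map_add_eq_of_lt_right v h1, map_one]

end val

variable [NumberField K]

theorem two_lt (w : HeightOneSpectrum (𝓞 K)) (hw : Ideal.absNorm w.asIdeal = 2) :
    w.valuation K (2 : K) < 1 := by
  have h1 : (2 : 𝓞 K) ∈ w.asIdeal := by
    have := Ideal.absNorm_mem w.asIdeal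
    rw [hw] at this
    exact_mod_cast this
  have h2 : w.valuation K (algebraMap (𝓞 K) K 2) < 1 :=
    (HeightOneSpectrum.valuation_lt_one_iff_mem (K := K) w (2 : 𝓞 K)).2 h1
  rwa [map_ofNat] at h2

theorem res2 (w : HeightOneSpectrum (𝓞 K)) (hw : Ideal.absNorm w.asIdeal = 2) :
    Res2 (w.valuation K) := by
  intro x hx
  obtain ⟨a, ha⟩ := HeightOneSpectrum.exists_valuation_sub_lt_of_integer w hx 1
  rw [Units.val_one] at ha
  have hq : Nat.card (𝓞 K ⧸ w.asIdeal) = 2 := by
    rw [← hw]; rfl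
  have h01 : a ∈ w.asIdeal ∨ a - 1 ∈ w.asIdeal := by
    have : Finite (𝓞 K ⧸ w.asIdeal) := Nat.finite_of_card_ne_zero (by rw [hq]; norm_num)
    have := Fintype.ofFinite (𝓞 K ⧸ w.asIdeal)
    by_contra hcon
    push Not at hcon
    obtain ⟨c0, c1⟩ := hcon
    have : Nontrivial (𝓞 K ⧸ w.asIdeal) := by
      rw [← Finite.one_lt_card_iff_nontrivial, hq]; norm_num
    have e0 : (Ideal.Quotient.mk w.asIdeal a) ≠ 0 := by
      rw [Ne, Ideal.Quotient.eq_zero_iff_mem]; exact c0
    have e1 : (Ideal.Quotient.mk w.asIdeal a) ≠ 1 := by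
      intro h
      apply c1
      rw [← Ideal.Quotient.eq_zero_iff_mem, map_sub, h, map_one, sub_self]
    classical
    have h3 : ({0, 1, Ideal.Quotient.mk w.asIdeal a} : Finset (𝓞 K ⧸ w.asIdeal)).card = 3 :=
      Finset.card_eq_three.2 ⟨0, 1, _, zero_ne_one, e0.symm, e1.symm, rfl⟩
    have h4 := Finset.card_le_univ ({0, 1, Ideal.Quotient.mk w.asIdeal a} :
      Finset (𝓞 K ⧸ w.asIdeal))
    rw [h3, ← Nat.card_eq_fintype_card, hq] at h4
    omega
  rcases h01 with h | h
  · left
    have h2 := (HeightOneSpectrum.valuation_lt_one_iff_mem (K := K) w a).2 h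
    have e : x = algebraMap (𝓞 K) K a - (algebraMap (𝓞 K) K a - x) := by ring
    rw [e]
    exact Valuation.map_sub_lt _ h2 ha
  · right
    have h2 : w.valuation K (algebraMap (𝓞 K) K (a - 1)) < 1 :=
      (HeightOneSpectrum.valuation_lt_one_iff_mem (K := K) w (a - 1)).2 h
    rw [map_sub, map_one] at h2
    have e : x - 1 = (algebraMap (𝓞 K) K a - 1) - (algebraMap (𝓞 K) K a - x) := by ring
    rw [e]
    exact Valuation.map_sub_lt _ h2 ha

theorem normTwoA [IsTotallyComplex K] (h2 : Module.finrank ℚ K = 2) (j G k : K)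
    (h5 : k * j = (k ^ 2 + 10 * k + 5) ^ 3) (h3 : G * j = (G + 27) * (G + 3) ^ 3)
    (w : HeightOneSpectrum (𝓞 K)) (hw : Ideal.absNorm w.asIdeal = 2)
    (hj : w.valuation K j ≤ 1) : False := by
  obtain ⟨r, r', s, s', hrr, hss, hsum, hG, hs⟩ := RG.dictA h2 j G k h5 h3
  have hv2 := two_lt w hw
  have v9 : w.valuation K (9 : K) = 1 := by
    have := v_oddN (w.valuation K) hv2 4
    norm_num at this
    exact this
  have i1 : w.valuation K (r * s) ≤ 1 := by
    by_contra h
    exact absurd (RG.cuspA1 (w.valuation K) h3 h5 hrr hss hsum hG hs (not_le.1 h)).1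
      (not_lt.2 hj)
  have i2 : w.valuation K (r' * s) ≤ 1 := by
    by_contra h
    exact absurd (RG.cuspA2 (w.valuation K) h3 h5 hrr hss hsum hG hs (not_le.1 h)).1
      (not_lt.2 hj)
  have i3 : w.valuation K (r * s') ≤ 1 := by
    by_contra h
    exact absurd (RG.cuspA3 (w.valuation K) h3 hrr hss hsum hG hs (not_le.1 h)).1
      (not_lt.2 hj)
  have i4 : w.valuation K (r' * s') ≤ 1 := by
    by_contra h
    exact absurd (RG.cuspA4 (w.valuation K) h3 h5 hrr hss hsum hG hs (not_le.1 h)).1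
      (not_lt.2 hj)
  have v1 : w.valuation K (-1 : K) = 1 := by rw [Valuation.map_neg, map_one]
  obtain ⟨a1, a2, a3, a4⟩ := v_int_all (w.valuation K) v9.le v1.le (RG.v_ofNat _ 5) hrr hss hsum
    i1 i2 i3 i4
  exact sum_contra (w.valuation K) (res2 w hw) (d := 9) (c := 5) (by norm_num) v9 v1 v9 hrr hss
    hsum a1 a2 a3 a4

theorem normTwoB [IsTotallyComplex K] (h2 : Module.finrank ℚ K = 2) (j c t k : K)
    (h5 : k * j = (k ^ 2 + 10 * k + 5) ^ 3) (h3 : c ^ 3 = j)
    (ht : c * t = 3 * (t + 1) * (t - 3))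
    (w : HeightOneSpectrum (𝓞 K)) (hw : Ideal.absNorm w.asIdeal = 2)
    (hj : w.valuation K j ≤ 1) : False := by
  obtain ⟨r, r', s, s', hrr, hss, hsum, hk, hc, ht1, ht2⟩ := RG.dictB h2 j c t k h5 h3 ht
  have hv2 := two_lt w hw
  have v5 : w.valuation K (5 : K) = 1 := by
    have := v_oddN (w.valuation K) hv2 2
    norm_num at this
    exact this
  have v3 : w.valuation K (3 : K) = 1 := by
    have := v_oddN (w.valuation K) hv2 1
    norm_num at this
    exact this
  have i1 : w.valuation K (r * s) ≤ 1 := by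
    by_contra h
    exact absurd (RG.cuspB1 (w.valuation K) h5 hrr hss hsum hk ht2 (not_le.1 h)).1
      (not_lt.2 hj)
  have i2 : w.valuation K (r' * s) ≤ 1 := by
    by_contra h
    exact absurd (RG.cuspB2 (w.valuation K) hrr hss hsum hk h3 hc ht2 (not_le.1 h)).1
      (not_lt.2 hj)
  have i3 : w.valuation K (r * s') ≤ 1 := by
    by_contra h
    exact absurd (RG.cuspB3 (w.valuation K) h5 hrr hss hsum hk ht1 (not_le.1 h)).1
      (not_lt.2 hj)
  have i4 : w.valuation K (r' * s') ≤ 1 := by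
    by_contra h
    exact absurd (RG.cuspB4 (w.valuation K) hrr hss hsum hk h3 hc ht1 (not_le.1 h)).1
      (not_lt.2 hj)
  have v1 : w.valuation K (1 : K) = 1 := by rw [map_one]
  obtain ⟨a1, a2, a3, a4⟩ := v_int_all (w.valuation K) v5.le v3.le v1.le hrr hss hsum
    i1 i2 i3 i4
  exact sum_contra (w.valuation K) (res2 w hw) (d := 5) (c := 1) (by norm_num) v5 v3 v5 hrr hss
    hsum a1 a2 a3 a4

end CS87
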