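import Pool.Agent.Lib.MP_87c685_nt_X15.FinE1

/-!
# The rational points of two curves of conductor 15

`Y² = X(X+9)(X-16)` and `Y² = U(U+1)(U+16)`; finiteness is taken from the library on `X_0(15)`,
the list follows by doubling and the valuation at 2.
-/

set_option autoImplicit false

namespace CS87

theorem v_odd (n : ℤ) (h : ¬ (2 : ℤ) ∣ n) : padicValRat 2 (n : ℚ) = 0 := by
  rw [padicValRat.of_int, padicValInt.eq_zero_of_not_dvd (by exact_mod_cast h)]
  rfl

theorem v_int_nonneg (n : ℤ) : 0 ≤ padicValRat 2 (n : ℚ) := by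
  rw [padicValRat.of_int]; positivity

theorem v_two : padicValRat 2 (2 : ℚ) = 1 := by
  have := padicValRat.self (p := 2) (by norm_num)
  exact_mod_cast this

theorem v_two_mul (n : ℤ) (h : n ≠ 0) : 1 ≤ padicValRat 2 (2 * (n : ℚ)) := by
  rw [padicValRat.mul (by norm_num) (by exact_mod_cast h), v_two]
  have := v_int_nonneg n
  omega

theorem v_add (x y : ℚ) (hx : x ≠ 0) (hy : y ≠ 0) (h : padicValRat 2 x < padicValRat 2 y) :
    x + y ≠ 0 ∧ padicValRat 2 (x + y) = padicValRat 2 x := by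
  have h0 : x + y ≠ 0 := by
    intro h1
    have h2 : y = -x := by linear_combination h1
    rw [h2, padicValRat.neg] at h
    exact lt_irrefl _ h
  exact ⟨h0, padicValRat.add_eq_of_lt h0 hx hy h⟩

/-- the double of a point -/
theorem dbl (X Y : ℚ) (h : Y ^ 2 = X * (X + 9) * (X - 16)) (hY : Y ≠ 0) :
    ((X ^ 2 + 144) / (2 * Y)) ^ 2 + 9 = ((X ^ 2 + 18 * X - 144) / (2 * Y)) ^ 2 ∧
      ((X ^ 2 + 144) / (2 * Y)) ^ 2 - 16 = ((X ^ 2 - 32 * X - 144) / (2 * Y)) ^ 2 := by
  constructor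
  · field_simp
    linear_combination 36 * h
  · field_simp
    linear_combination -64 * h

theorem no_neg (X Y : ℚ) (h : Y ^ 2 = X * (X + 9) * (X - 16)) (hv : padicValRat 2 X < 0) :
    False := by
  have hfin := X15.finite_E1
  have hfin' : ({P : ℚ × ℚ | P.2 ^ 2 = P.1 * (P.1 + 9) * (P.1 - 16) ∧
      padicValRat 2 P.1 < 0}).Finite :=
    hfin.subset (fun P hP => hP.1)
  obtain ⟨⟨x, y⟩, ⟨hP, hPv⟩, hmin⟩ := Set.exists_min_image _ (fun P => padicValRat 2 P.1) hfin'
    ⟨(X, Y), h, hv⟩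
  simp only at hP hPv hmin
  have hx : x ≠ 0 := by
    rintro rfl
    simp at hPv
  have h9 : padicValRat 2 (9 : ℚ) = 0 := by
    have := v_odd 9 (by norm_num)
    rwa [Int.cast_ofNat] at this
  have h16 : 0 ≤ padicValRat 2 (-16 : ℚ) := by
    have := v_int_nonneg (-16)
    rwa [Int.cast_neg, Int.cast_ofNat] at this
  have h144 : 0 ≤ padicValRat 2 (144 : ℚ) := by
    have := v_int_nonneg 144
    rwa [Int.cast_ofNat] at this
  obtain ⟨a1, a2⟩ := v_add x 9 hx (by norm_num) (by rw [h9]; exact hPv)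
  obtain ⟨b1, b2⟩ := v_add x (-16) hx (by norm_num) (by omega)
  have b1' : x - 16 ≠ 0 := by rw [sub_eq_add_neg]; exact b1
  have b2' : padicValRat 2 (x - 16) = padicValRat 2 x := by rw [sub_eq_add_neg]; exact b2
  have hvx2 : padicValRat 2 (x ^ 2) = 2 * padicValRat 2 x := by
    rw [padicValRat.pow]; norm_num
  obtain ⟨c1, c2⟩ := v_add (x ^ 2) 144 (pow_ne_zero 2 hx) (by norm_num) (by rw [hvx2]; omega)
  have hy : y ≠ 0 := by
    rintro rfl
    have : x * (x + 9) * (x - 16) = 0 := by rw [← hP]; ring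
    exact (mul_ne_zero (mul_ne_zero hx a1) b1') this
  have hvy : 2 * padicValRat 2 y = 3 * padicValRat 2 x := by
    have e1 : padicValRat 2 (y ^ 2) = 2 * padicValRat 2 y := by
      rw [padicValRat.pow]; norm_num
    rw [← e1, hP, padicValRat.mul (mul_ne_zero hx a1) b1', padicValRat.mul hx a1, a2, b2']
    ring
  obtain ⟨d1, d2⟩ := dbl x y hP hy
  have hmem := hmin (((x ^ 2 + 144) / (2 * y)) ^ 2,
    (x ^ 2 + 144) / (2 * y) * ((x ^ 2 + 18 * x - 144) / (2 * y)) *
      ((x ^ 2 - 32 * x - 144) / (2 * y))) ?_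
  · have e1 : padicValRat 2 (((x ^ 2 + 144) / (2 * y)) ^ 2) = padicValRat 2 x - 2 := by
      rw [padicValRat.pow, padicValRat.div c1 (mul_ne_zero two_ne_zero hy),
        padicValRat.mul two_ne_zero hy, v_two, c2, hvx2]
      push_cast
      omega
    rw [e1] at hmem
    omega
  · refine ⟨?_, ?_⟩
    · change ((x ^ 2 + 144) / (2 * y) * ((x ^ 2 + 18 * x - 144) / (2 * y)) *
        ((x ^ 2 - 32 * x - 144) / (2 * y))) ^ 2 = ((x ^ 2 + 144) / (2 * y)) ^ 2 *
        (((x ^ 2 + 144) / (2 * y)) ^ 2 + 9) * (((x ^ 2 + 144) / (2 * y)) ^ 2 - 16)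
      rw [d1, d2]; ring
    · change padicValRat 2 (((x ^ 2 + 144) / (2 * y)) ^ 2) < 0
      rw [padicValRat.pow, padicValRat.div c1 (mul_ne_zero two_ne_zero hy),
        padicValRat.mul two_ne_zero hy, v_two, c2, hvx2]
      push_cast
      omega

theorem rat_int (q : ℚ) (M : ℤ) (h : q ^ 2 = M) : ∃ n : ℤ, q = n := by
  have h1 : IsIntegral ℤ q := by
    refine ⟨Polynomial.X ^ 2 - Polynomial.C M, Polynomial.monic_X_pow_sub_C M (by norm_num), ?_⟩
    rw [Polynomial.eval₂_sub, Polynomial.eval₂_X_pow, Polynomial.eval₂_C, h]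
    simp
  obtain ⟨n, hn⟩ := IsIntegrallyClosed.isIntegral_iff.1 h1
  exact ⟨n, hn.symm⟩

theorem par {a d b c : ℤ} (hd : ¬ (2 : ℤ) ∣ d) (h1 : a ^ 2 + 9 * d ^ 2 = b ^ 2)
    (h2 : a ^ 2 - 16 * d ^ 2 = c ^ 2) : (4 : ℤ) ∣ a ∧ (4 : ℤ) ∣ c ∧ ¬ (2 : ℤ) ∣ b := by
  have hd2 : d % 2 = 1 := by omega
  have sq8 : ∀ n : ℤ, n ^ 2 % 16 = 0 ∨ n ^ 2 % 16 = 4 ∨ n ^ 2 % 8 = 1 := by
    intro n
    have h : n % 4 = 0 ∨ n % 4 = 1 ∨ n % 4 = 2 ∨ n % 4 = 3 := by omega
    obtain ⟨m, hm⟩ : ∃ m, n = 4 * m + n % 4 := ⟨n / 4, by omega⟩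
    rcases h with h | h | h | h <;> rw [h] at hm
    · left
      have : n ^ 2 = 16 * m ^ 2 := by rw [hm]; ring
      omega
    · right; right
      have : n ^ 2 = 8 * (2 * m ^ 2 + m) + 1 := by rw [hm]; ring
      omega
    · right; left
      have : n ^ 2 = 16 * (m ^ 2 + m) + 4 := by rw [hm]; ring
      omega
    · right; right
      have : n ^ 2 = 8 * (2 * m ^ 2 + 3 * m + 1) + 1 := by rw [hm]; ring
      omega
  have par4 : ∀ n : ℤ, n ^ 2 % 16 = 0 → (4 : ℤ) ∣ n := by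
    intro n hn
    have h : n % 4 = 0 ∨ n % 4 = 1 ∨ n % 4 = 2 ∨ n % 4 = 3 := by omega
    obtain ⟨m, hm⟩ : ∃ m, n = 4 * m + n % 4 := ⟨n / 4, by omega⟩
    rcases h with h | h | h | h <;> rw [h] at hm
    · omega
    · have : n ^ 2 = 8 * (2 * m ^ 2 + m) + 1 := by rw [hm]; ring
      omega
    · have : n ^ 2 = 16 * (m ^ 2 + m) + 4 := by rw [hm]; ring
      omega
    · have : n ^ 2 = 8 * (2 * m ^ 2 + 3 * m + 1) + 1 := by rw [hm]; ring
      omega
  have hdd : d ^ 2 % 8 = 1 := by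
    obtain ⟨m, hm⟩ : ∃ m, d = 2 * m + 1 := ⟨d / 2, by omega⟩
    have h5 : d ^ 2 = 4 * (m * (m + 1)) + 1 := by rw [hm]; ring
    have h6 : m * (m + 1) % 2 = 0 := Int.even_iff.1 (Int.even_mul_succ_self m)
    omega
  have ha := sq8 a
  have hb := sq8 b
  have hc := sq8 c
  have ha16 : a ^ 2 % 16 = 0 := by omega
  have hc16 : c ^ 2 % 16 = 0 := by omega
  refine ⟨par4 a ha16, par4 c hc16, ?_⟩
  rintro ⟨m, hm⟩
  have : b ^ 2 = 4 * m ^ 2 := by rw [hm]; ring
  omega

/-- no rational point is twice a point, apart from `O` and `(16, 0)` -/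
theorem no_triple (t b c : ℚ) (h1 : t ^ 2 + 9 = b ^ 2) (h2 : t ^ 2 - 16 = c ^ 2) (hc : c ≠ 0) :
    False := by
  have ht : t ≠ 0 := by
    rintro rfl
    nlinarith [sq_nonneg c]
  have hb : b ≠ 0 := by
    rintro rfl
    nlinarith [sq_nonneg t]
  have hY : t * b * c ≠ 0 := mul_ne_zero (mul_ne_zero ht hb) hc
  have hE : (t * b * c) ^ 2 = t ^ 2 * (t ^ 2 + 9) * (t ^ 2 - 16) := by rw [h1, h2]; ring
  have hd0 : (t.den : ℤ) ≠ 0 := by exact_mod_cast t.den_nz
  have hdq : (t.den : ℚ) ≠ 0 := by exact_mod_cast t.den_nz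
  have htn : t = (t.num : ℚ) / (t.den : ℚ) := (Rat.num_div_den t).symm
  have hn0 : t.num ≠ 0 := Rat.num_ne_zero.2 ht
  by_cases hd : (2 : ℤ) ∣ (t.den : ℤ)
  · apply no_neg (t ^ 2) (t * b * c) hE
    have hn : ¬ (2 : ℤ) ∣ t.num := by
      intro hn
      have h5 := t.reduced
      have h6 : 2 ∣ t.num.natAbs := by
        have := Int.natAbs_dvd_natAbs.2 hn
        simpa using this
      have h7 : 2 ∣ t.den := by exact_mod_cast hd
      have := Nat.dvd_gcd h6 h7
      rw [h5] at this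
      norm_num at this
    have e1 : padicValRat 2 t < 0 := by
      rw [htn, padicValRat.div (by exact_mod_cast hn0) hdq, v_odd _ hn]
      obtain ⟨m, hm⟩ := hd
      have hm0 : m ≠ 0 := by
        rintro rfl; exact hd0 (by rw [hm]; ring)
      have e2 : ((t.den : ℕ) : ℚ) = 2 * (m : ℚ) := by exact_mod_cast hm
      rw [e2]
      have := v_two_mul m hm0
      omega
    rw [padicValRat.pow]
    push_cast
    omega
  · obtain ⟨b', hb'⟩ := rat_int (b * t.den) (t.num ^ 2 + 9 * (t.den : ℤ) ^ 2) (by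
      push_cast
      rw [mul_pow, ← h1]
      have : (t.num : ℚ) = t * t.den := by
        rw [eq_comm]; exact Rat.mul_den_eq_num t
      rw [this]; ring)
    obtain ⟨c', hc'⟩ := rat_int (c * t.den) (t.num ^ 2 - 16 * (t.den : ℤ) ^ 2) (by
      push_cast
      rw [mul_pow, ← h2]
      have : (t.num : ℚ) = t * t.den := by
        rw [eq_comm]; exact Rat.mul_den_eq_num t
      rw [this]; ring)
    have htd : (t.num : ℚ) = t * t.den := by
      rw [eq_comm]; exact Rat.mul_den_eq_num t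
    have i1 : t.num ^ 2 + 9 * (t.den : ℤ) ^ 2 = b' ^ 2 := by
      have : ((t.num ^ 2 + 9 * (t.den : ℤ) ^ 2 : ℤ) : ℚ) = ((b' ^ 2 : ℤ) : ℚ) := by
        push_cast
        rw [← hb', htd]
        linear_combination (t.den : ℚ) ^ 2 * h1
      exact_mod_cast this
    have i2 : t.num ^ 2 - 16 * (t.den : ℤ) ^ 2 = c' ^ 2 := by
      have : ((t.num ^ 2 - 16 * (t.den : ℤ) ^ 2 : ℤ) : ℚ) = ((c' ^ 2 : ℤ) : ℚ) := by
        push_cast
        rw [← hc', htd]
        linear_combination (t.den : ℚ) ^ 2 * h2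
      exact_mod_cast this
    obtain ⟨⟨a1, ha1⟩, ⟨c1, hc1⟩, hbo⟩ := par hd i1 i2
    obtain ⟨d1, d2⟩ := dbl (t ^ 2) (t * b * c) hE hY
    have hc10 : c1 ≠ 0 := by
      rintro rfl
      apply mul_ne_zero hc hdq
      rw [hc', hc1]; simp
    have ha10 : a1 ≠ 0 := by
      rintro rfl
      apply hn0
      rw [ha1]; ring
    have hb0 : b' ≠ 0 := by
      rintro rfl; exact hbo (dvd_zero _)
    have key : ((t ^ 2) ^ 2 + 144) / (2 * (t * b * c)) =
        ((16 * a1 ^ 4 + 9 * (t.den : ℤ) ^ 4 : ℤ) : ℚ) /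
          (2 * ((a1 * t.den * b' * c1 : ℤ) : ℚ)) := by
      have ea : t = 4 * a1 / t.den := by
        rw [eq_div_iff hdq, ← htd, ha1]; push_cast; ring
      have eb : b = b' / t.den := by rw [eq_div_iff hdq, hb']
      have ec : c = 4 * c1 / t.den := by
        rw [eq_div_iff hdq, hc', hc1]; push_cast; ring
      have hb0q : (b' : ℚ) ≠ 0 := by exact_mod_cast hb0
      have hc0q : (c1 : ℚ) ≠ 0 := by exact_mod_cast hc10
      have ha0q : (a1 : ℚ) ≠ 0 := by exact_mod_cast ha10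
      have hbq : b ≠ 0 := hb
      rw [div_eq_div_iff (mul_ne_zero two_ne_zero hY) (by
        push_cast
        exact mul_ne_zero two_ne_zero
          (mul_ne_zero (mul_ne_zero (mul_ne_zero ha0q hdq) hb0q) hc0q))]
      push_cast
      rw [eb, ec]
      generalize (t.den : ℚ) = D at *
      rw [ea]
      field_simp
      ring
    apply no_neg (((t ^ 2) ^ 2 + 144) / (2 * (t * b * c)) ^ 1 |> fun z => z ^ 2)
      (((t ^ 2) ^ 2 + 144) / (2 * (t * b * c)) *
        (((t ^ 2) ^ 2 + 18 * t ^ 2 - 144) / (2 * (t * b * c))) *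
        (((t ^ 2) ^ 2 - 32 * t ^ 2 - 144) / (2 * (t * b * c))))
    · simp only [pow_one]
      rw [d1, d2]; ring
    · simp only [pow_one]
      rw [key, padicValRat.pow]
      have n1 : ¬ (2 : ℤ) ∣ (16 * a1 ^ 4 + 9 * (t.den : ℤ) ^ 4) := by
        intro h5
        have h6 : (2 : ℤ) ∣ 9 * (t.den : ℤ) ^ 4 := by
          have : 9 * (t.den : ℤ) ^ 4 = (16 * a1 ^ 4 + 9 * (t.den : ℤ) ^ 4) - 2 * (8 * a1 ^ 4) := by
            ring
          rw [this]
          exact dvd_sub h5 (dvd_mul_right _ _)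
        rcases Int.prime_two.dvd_or_dvd h6 with h7 | h7
        · norm_num at h7
        · exact hd (Int.prime_two.dvd_of_dvd_pow h7)
      have n0 : (16 * a1 ^ 4 + 9 * (t.den : ℤ) ^ 4) ≠ 0 := by
        intro h5; exact n1 (by rw [h5]; exact dvd_zero _)
      have m0 : (a1 * t.den * b' * c1 : ℤ) ≠ 0 :=
        mul_ne_zero (mul_ne_zero (mul_ne_zero ha10 hd0) hb0) hc10
      rw [padicValRat.div (by exact_mod_cast n0) (mul_ne_zero two_ne_zero (by exact_mod_cast m0)),
        v_odd _ n1]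
      have := v_two_mul _ m0
      push_cast at this ⊢
      omega

theorem ratA (X Y : ℚ) (h : Y ^ 2 = X * (X + 9) * (X - 16)) :
    X = 0 ∨ X = -9 ∨ X = 16 ∨ X = 36 ∨ X = -4 := by
  by_cases hY : Y = 0
  · rw [hY] at h
    have h1 : X * (X + 9) * (X - 16) = 0 := by rw [← h]; ring
    rcases mul_eq_zero.1 h1 with h1 | h1
    · rcases mul_eq_zero.1 h1 with h1 | h1
      · exact Or.inl h1
      · exact Or.inr (Or.inl (by linarith))
    · exact Or.inr (Or.inr (Or.inl (by linarith)))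
  · obtain ⟨d1, d2⟩ := dbl X Y h hY
    by_cases hc : X ^ 2 - 32 * X - 144 = 0
    · have : (X - 36) * (X + 4) = 0 := by linear_combination hc
      rcases mul_eq_zero.1 this with h1 | h1
      · exact Or.inr (Or.inr (Or.inr (Or.inl (by linarith))))
      · exact Or.inr (Or.inr (Or.inr (Or.inr (by linarith))))
    · exact (no_triple _ _ _ d1 d2 (div_ne_zero hc (mul_ne_zero two_ne_zero hY))).elim

theorem no_sqrt5 (q : ℚ) (h : q ^ 2 = 5) : False := by
  obtain ⟨n, hn⟩ := rat_int q 5 (by rw [h]; norm_num)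
  rw [hn] at h
  have h1 : n ^ 2 = 5 := by exact_mod_cast h
  have h2 : n < 3 := by nlinarith
  have h3 : -3 < n := by nlinarith
  interval_cases n <;> omega

theorem ratB (U Y : ℚ) (h : Y ^ 2 = U * (U + 1) * (U + 16)) :
    U = 0 ∨ U = -1 ∨ U = -16 ∨ U = 4 ∨ U = -4 := by
  by_cases hU : U = 0
  · exact Or.inl hU
  · have h1 := ratA ((U + 4) ^ 2 / U) ((U ^ 2 - 16) * Y / U ^ 2) (by
      field_simp
      linear_combination (U ^ 2 - 16) ^ 2 * h)
    right
    rcases h1 with h1 | h1 | h1 | h1 | h1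
    · right; right; right
      rw [div_eq_iff hU] at h1
      have : (U + 4) ^ 2 = 0 := by linear_combination h1
      have := pow_eq_zero_iff (two_ne_zero) |>.1 this
      linarith
    · rw [div_eq_iff hU] at h1
      have : (U + 1) * (U + 16) = 0 := by linear_combination h1
      rcases mul_eq_zero.1 this with h2 | h2
      · exact Or.inl (by linarith)
      · exact Or.inr (Or.inl (by linarith))
    · right; right; left
      rw [div_eq_iff hU] at h1
      have : (U - 4) ^ 2 = 0 := by linear_combination h1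
      have := pow_eq_zero_iff (two_ne_zero) |>.1 this
      linarith
    · rw [div_eq_iff hU] at h1
      exact (no_sqrt5 ((U - 14) / 6) (by linear_combination (1 / 36) * h1)).elim
    · rw [div_eq_iff hU] at h1
      exact (no_sqrt5 ((U + 6) / 2) (by linear_combination (1 / 4) * h1)).elim

end CS87
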