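import Pool.Agent.Lib.MP_87c685_nt_CS.Loc4
import Pool.Agent.Lib.MP_87c685_nt_CS.Third
import Pool.Agent.Lib.MP_87c685_nt_RG.Main
import Pool.Agent.Lib.MP_87c685_nt_RG.Conj

/-!
# Points whose primes of non-integrality are stable under conjugation
-/

set_option autoImplicit false
set_option linter.unusedSimpArgs false
set_option linter.unusedSectionVars false

open NumberField IsDedekindDomain

namespace CS87

/-! ### rational numbers at a prime -/

section disc

variable {K : Type*} [Field K] [CharZero K] {Γ₀ : Type*} [LinearOrderedCommGroupWithZero Γ₀]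
  (v : Valuation K Γ₀)

omit [CharZero K] in
theorem v_coprime {p n : ℤ} (h : IsCoprime p n) (hp : v (p : K) < 1) : v (n : K) = 1 := by
  apply le_antisymm (RG.v_int v n)
  by_contra hn
  push Not at hn
  obtain ⟨a, b, hab⟩ := h
  have e : (1 : K) = a * p + b * n := by
    have := congrArg (fun t : ℤ => (t : K)) hab
    push_cast at this
    exact this.symm
  have : v (1 : K) < 1 := by
    rw [e]
    apply v.map_add_lt
    · rw [map_mul]; exact lt_of_le_of_lt (mul_le_of_le_one_left' (RG.v_int v a)) hp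
    · rw [map_mul]; exact lt_of_le_of_lt (mul_le_of_le_one_left' (RG.v_int v b)) hn
  rw [map_one] at this
  exact lt_irrefl _ this

theorem disc_q {p : ℕ} (hp : p.Prime) (hv : v (p : K) < 1) (q : ℚ) (hq : v (q : K) < 1) :
    v (q : K) ≤ v (p : K) := by
  have hp' : Prime (p : ℤ) := Nat.prime_iff_prime_int.1 hp
  have hvp : v (((p : ℤ)) : K) < 1 := by exact_mod_cast hv
  have hd0 : ((q.den : ℤ) : K) ≠ 0 := by
    have := q.den_nz
    exact_mod_cast this
  have e : (q : K) * ((q.den : ℤ) : K) = ((q.num : ℤ) : K) := by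
    have h := Rat.mul_den_eq_num q
    exact_mod_cast congrArg (fun t : ℚ => (t : K)) h
  have ev : v (q : K) * v ((q.den : ℤ) : K) = v ((q.num : ℤ) : K) := by rw [← map_mul, e]
  have hcop : IsCoprime (q.num : ℤ) (q.den : ℤ) := by
    rw [Int.isCoprime_iff_gcd_eq_one]
    exact q.reduced
  have cop : ∀ n : ℤ, ¬ (p : ℤ) ∣ n → IsCoprime (p : ℤ) n := fun n hn =>
    (Prime.coprime_iff_not_dvd hp').2 hn
  by_cases hd : (p : ℤ) ∣ (q.den : ℤ)
  · exfalso
    have hn : ¬ (p : ℤ) ∣ q.num := by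
      intro hn
      exact hp'.not_isUnit (hcop.isUnit_of_dvd' hn hd)
    rw [v_coprime v (cop _ hn) hvp] at ev
    have : v (q : K) * v ((q.den : ℤ) : K) < 1 :=
      mul_lt_one_of_lt_of_le hq (RG.v_int v _)
    exact absurd ev (ne_of_lt this)
  · rw [v_coprime v (cop _ hd) hvp, mul_one] at ev
    have hn : (p : ℤ) ∣ q.num := by
      by_contra hn
      rw [v_coprime v (cop _ hn) hvp] at ev
      exact absurd ev (ne_of_lt hq)
    obtain ⟨m, hm⟩ := hn
    rw [ev, hm]
    push_cast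
    rw [map_mul]
    exact mul_le_of_le_one_right' (RG.v_int v m)

end disc

variable {K : Type*} [Field K] [NumberField K]

theorem not_mult_int {r r' s s' a b c : K} (ha : ∀ w : HeightOneSpectrum (𝓞 K), w.valuation K a ≤ 1)
    (hb : ∀ w : HeightOneSpectrum (𝓞 K), w.valuation K b ≤ 1)
    (hc : ∀ w : HeightOneSpectrum (𝓞 K), w.valuation K c ≤ 1)
    (hrr : r * r' = a) (hss : s * s' = b) (hsum : r + r' + s + s' + c = 0)
    (h : ∀ w : HeightOneSpectrum (𝓞 K), ¬ Mult (w.valuation K) r r' s s') :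
    IsIntegral ℤ r ∧ IsIntegral ℤ r' ∧ IsIntegral ℤ s ∧ IsIntegral ℤ s' := by
  have key : ∀ w : HeightOneSpectrum (𝓞 K), w.valuation K r ≤ 1 ∧ w.valuation K r' ≤ 1 ∧
      w.valuation K s ≤ 1 ∧ w.valuation K s' ≤ 1 := by
    intro w
    by_contra hw
    exact h w (mult_of (w.valuation K) (ha w) (hb w) (hc w) hrr hss hsum hw)
  exact ⟨RG.int_of_val r fun w => (key w).1, RG.int_of_val r' fun w => (key w).2.1,
    RG.int_of_val s fun w => (key w).2.2.1, RG.int_of_val s' fun w => (key w).2.2.2⟩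

/-- roots of a rational quadratic and the conjugation -/
theorem quad_conj (h2 : Module.finrank ℚ K = 2) (σ : K ≃ₐ[ℚ] K) (hσ : σ ≠ 1) (s A B C : K)
    (hA : σ A = A) (hB : σ B = B) (hC : σ C = C) (h : A * s ^ 2 + B * s + C = 0)
    (hs : ∀ q : ℚ, s ≠ q) : A * (s + σ s) = -B ∧ A * (s * σ s) = C := by
  have h' : A * (σ s) ^ 2 + B * σ s + C = 0 := by
    have e := congrArg σ h
    simp only [map_add, map_mul, map_pow, hA, hB, hC, map_zero] at e
    exact e
  have hne : s - σ s ≠ 0 := by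
    intro h0
    obtain ⟨q, hq⟩ := RG.fix_rat h2 σ hσ s (sub_eq_zero.1 h0).symm
    exact hs q hq
  have e1 : A * (s + σ s) = -B := by
    apply mul_left_cancel₀ hne
    linear_combination h - h'
  exact ⟨e1, by linear_combination s * e1 - h⟩

section A

variable [IsTotallyComplex K] (h2 : Module.finrank ℚ K = 2) (σ : K ≃ₐ[ℚ] K) (hσ : σ ≠ 1)

include h2 hσ

/-- `r s` rational -/
theorem caseA2 {r r' s s' : K} (hrr : r * r' = 9) (hss : s * s' = -1)
    (hsum : r + r' + s + s' + 5 = 0) (hs : ∀ q : ℚ, s ≠ q) (hx : ∃ q : ℚ, r * s = q)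
    (hM : ∀ w : HeightOneSpectrum (𝓞 K), Mult (w.valuation K) r r' s s' →
      Mult (w.valuation K) (σ r) (σ r') (σ s) (σ s'))
    (hT : ∀ w : HeightOneSpectrum (𝓞 K), Mult (w.valuation K) r r' s s' →
      w.valuation K 2 < 1 → ∀ z : K, w.valuation K z < 1 ↔ w.valuation K (σ z) < 1) :
    IsIntegral ℤ (r * s') ∧ IsIntegral ℤ (r' * s) := by
  obtain ⟨q, hq⟩ := hx
  have hc : ((q : K) + 9) * s ^ 2 + (5 * q) * s + q * (q - 1) = 0 := by
    rw [← hq]
    linear_combination (-s ^ 2 : K) * hrr - r * s * hss + r * s ^ 2 * hsum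
  obtain ⟨e1, e2⟩ := quad_conj h2 σ hσ s _ _ _ (by simp only [map_add, map_sub, map_mul, map_pow, map_neg, map_ratCast, map_ofNat, map_one])
    (by simp only [map_add, map_sub, map_mul, map_pow, map_neg, map_ratCast, map_ofNat, map_one])
    (by simp only [map_add, map_sub, map_mul, map_pow, map_neg, map_ratCast, map_ofNat, map_one]) hc hs
  have h9 : (q : K) + 9 ≠ 0 := by
    intro h
    rw [h, zero_mul] at e1
    have : (45 : K) = 0 := by linear_combination 5 * h - e1
    norm_num at this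
  have key : ∀ w : HeightOneSpectrum (𝓞 K), w.valuation K (r * s') ≤ 1 ∧
      w.valuation K (r' * s) ≤ 1 := by
    intro w
    by_cases hm : Mult (w.valuation K) r r' s s'
    · refine locA2 (w.valuation K) hrr hss hsum (R := σ r) (R' := σ r') (S := σ s) (S' := σ s')
        ?_ ?_ ?_ hq ?_ ?_ ?_ h9 (hM w) (fun h22 => hT w hm h22 s)
      · rw [← map_mul, hrr, map_ofNat]
      · rw [← map_mul, hss, map_neg, map_one]
      · have e := congrArg σ hsum
        simp only [map_add, map_ofNat, map_one, map_zero] at e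
        exact e
      · rw [← map_mul, hq, map_ratCast]
      · rw [e1]; ring
      · rw [e2]
    · refine ⟨?_, ?_⟩
      · by_contra h; exact hm (Or.inr (Or.inl (not_le.1 h)))
      · by_contra h; exact hm (Or.inr (Or.inr (Or.inl (not_le.1 h))))
  exact ⟨RG.int_of_val _ fun w => (key w).1, RG.int_of_val _ fun w => (key w).2⟩

/-- the last family -/
theorem caseA1 {r r' s s' : K} (hrr : r * r' = 9) (hss : s * s' = -1)
    (hsum : r + r' + s + s' + 5 = 0) (hs : ∀ q : ℚ, s ≠ q)
    (hx : ∃ ρ : ℚ, r * s + 4 = ρ * (s - 2))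
    (hM : ∀ w : HeightOneSpectrum (𝓞 K), Mult (w.valuation K) r r' s s' →
      Mult (w.valuation K) (σ r) (σ r') (σ s) (σ s'))
    (hT : ∀ w : HeightOneSpectrum (𝓞 K), Mult (w.valuation K) r r' s s' →
      w.valuation K 2 < 1 → ∀ z : K, w.valuation K z < 1 ↔ w.valuation K (σ z) < 1) :
    IsIntegral ℤ r ∧ IsIntegral ℤ r' ∧ IsIntegral ℤ s ∧ IsIntegral ℤ s' := by
  obtain ⟨ρ, hρ⟩ := hx
  have hs2 : s - 2 ≠ 0 := by
    intro h
    exact hs 2 (by push_cast; linear_combination h)
  have hc : (r * s + 9) * s ^ 2 + 5 * (r * s) * s + r * s * (r * s - 1) = 0 := by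
    linear_combination (-s ^ 2 : K) * hrr - r * s * hss + r * s ^ 2 * hsum
  have hq : (ρ : K) * s ^ 2 + (ρ ^ 2 + 5 * ρ + 5) * s + (-((2 * ρ + 5) * (ρ + 2))) = 0 := by
    apply mul_left_cancel₀ hs2
    rw [mul_zero, ← hc]
    linear_combination (-(s ^ 2) - 5 * s - (r * s) - ρ * (s - 2) + 5) * hρ
  obtain ⟨e1, e2⟩ := quad_conj h2 σ hσ s _ _ _ (by simp only [map_add, map_sub, map_mul, map_pow, map_neg, map_ratCast, map_ofNat, map_one])
    (by simp only [map_add, map_sub, map_mul, map_pow, map_neg, map_ratCast, map_ofNat, map_one])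
    (by simp only [map_add, map_sub, map_mul, map_pow, map_neg, map_ratCast, map_ofNat, map_one]) hq hs
  apply not_mult_int (fun w => RG.v_ofNat (w.valuation K) 9)
    (fun w => by rw [Valuation.map_neg, map_one]) (fun w => RG.v_ofNat (w.valuation K) 5)
    hrr hss hsum
  intro w hm
  refine locA1 (w.valuation K) hrr hss hsum (R := σ r) (R' := σ r') (S := σ s) (S' := σ s')
    ?_ ?_ ?_ hρ ?_ e1 e2 ?_ hm (hM w hm) (fun h22 => ⟨hT w hm h22 r, hT w hm h22 s⟩)
  · rw [← map_mul, hrr, map_ofNat]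
  · rw [← map_mul, hss, map_neg, map_one]
  · have e := congrArg σ hsum
    simp only [map_add, map_ofNat, map_one, map_zero] at e
    exact e
  · have e := congrArg σ hρ
    simp only [map_add, map_mul, map_sub, map_ratCast, map_ofNat] at e
    exact e
  · intro h5 h
    have := disc_q (w.valuation K) (p := 5) (by norm_num) (by exact_mod_cast h5) ρ h
    exact_mod_cast this

theorem stabA {r r' s s' : K} (hrr : r * r' = 9) (hss : s * s' = -1)
    (hsum : r + r' + s + s' + 5 = 0)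
    (hM : ∀ w : HeightOneSpectrum (𝓞 K), Mult (w.valuation K) r r' s s' →
      Mult (w.valuation K) (σ r) (σ r') (σ s) (σ s'))
    (hT : ∀ w : HeightOneSpectrum (𝓞 K), Mult (w.valuation K) r r' s s' →
      w.valuation K 2 < 1 → ∀ z : K, w.valuation K z < 1 ↔ w.valuation K (σ z) < 1) :
    (∃ q : ℚ, s = q) ∨ RG.PA (s + s') := by
  by_cases hs : ∃ q : ℚ, s = q
  · exact Or.inl hs
  push Not at hs
  apply RG.A_two h2 r r' s s' hrr hss hsum
  rcases thirdA h2 r r' s s' hrr hss hsum with ⟨q, hq⟩ | hx | hx | hx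
  · exact absurd hq (hs q)
  · obtain ⟨i1, i2⟩ := caseA2 h2 σ hσ hrr hss hsum hs hx hM hT
    exact Or.inr (Or.inr (Or.inr (Or.inl ⟨i2, i1⟩)))
  · have hs' : ∀ q : ℚ, s' ≠ q := by
      intro q hq
      have hs0 : s' ≠ 0 := by
        intro h; rw [h, mul_zero] at hss; norm_num at hss
      apply hs (-1 / q)
      push_cast
      rw [← hq, eq_div_iff hs0]; exact hss
    obtain ⟨i1, i2⟩ := caseA2 h2 σ hσ hrr (show s' * s = -1 by rw [mul_comm]; exact hss)
      (by linear_combination hsum) hs' hx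
      (fun w hw => (hM w hw.swap).swap) (fun w hw => hT w hw.swap)
    exact Or.inr (Or.inr (Or.inl ⟨i1, i2⟩))
  · obtain ⟨i1, i2, i3, i4⟩ := caseA1 h2 σ hσ hrr hss hsum hs hx hM hT
    exact Or.inl ⟨i1.mul i3, i2.mul i3⟩

end A

section B

variable [IsTotallyComplex K] (h2 : Module.finrank ℚ K = 2) (σ : K ≃ₐ[ℚ] K) (hσ : σ ≠ 1)

include h2 hσ

theorem caseB2 {r r' s s' : K} (hrr : r * r' = 5) (hss : s * s' = 3)
    (hsum : r + r' + s + s' + 1 = 0) (hs : ∀ q : ℚ, s ≠ q) (hx : ∃ q : ℚ, r * s = q)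
    (hM : ∀ w : HeightOneSpectrum (𝓞 K), Mult (w.valuation K) r r' s s' →
      Mult (w.valuation K) (σ r) (σ r') (σ s) (σ s'))
    (hT : ∀ w : HeightOneSpectrum (𝓞 K), Mult (w.valuation K) r r' s s' →
      w.valuation K 2 < 1 → ∀ z : K, w.valuation K z < 1 ↔ w.valuation K (σ z) < 1) :
    IsIntegral ℤ (r * s') ∧ IsIntegral ℤ (r' * s) := by
  obtain ⟨q, hq⟩ := hx
  have hc : ((q : K) + 5) * s ^ 2 + q * s + q * (q + 3) = 0 := by
    rw [← hq]
    linear_combination (-s ^ 2 : K) * hrr - r * s * hss + r * s ^ 2 * hsum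
  obtain ⟨e1, e2⟩ := quad_conj h2 σ hσ s _ _ _ (by simp only [map_add, map_sub, map_mul, map_pow, map_neg, map_ratCast, map_ofNat, map_one])
    (by simp only [map_add, map_sub, map_mul, map_pow, map_neg, map_ratCast, map_ofNat, map_one])
    (by simp only [map_add, map_sub, map_mul, map_pow, map_neg, map_ratCast, map_ofNat, map_one]) hc hs
  have h5 : (q : K) + 5 ≠ 0 := by
    intro h
    rw [h, zero_mul] at e1
    have : (5 : K) = 0 := by linear_combination h - e1
    norm_num at this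
  have key : ∀ w : HeightOneSpectrum (𝓞 K), w.valuation K (r * s') ≤ 1 ∧
      w.valuation K (r' * s) ≤ 1 := by
    intro w
    by_cases hm : Mult (w.valuation K) r r' s s'
    · refine locB2 (w.valuation K) hrr hss hsum (R := σ r) (R' := σ r') (S := σ s) (S' := σ s')
        ?_ ?_ ?_ hq ?_ ?_ ?_ h5 (hM w) (fun h22 => hT w hm h22 s)
      · rw [← map_mul, hrr, map_ofNat]
      · rw [← map_mul, hss, map_ofNat]
      · have e := congrArg σ hsum
        simp only [map_add, map_ofNat, map_one, map_zero] at e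
        exact e
      · rw [← map_mul, hq, map_ratCast]
      · rw [e1]
      · rw [e2]
    · refine ⟨?_, ?_⟩
      · by_contra h; exact hm (Or.inr (Or.inl (not_le.1 h)))
      · by_contra h; exact hm (Or.inr (Or.inr (Or.inl (not_le.1 h))))
  exact ⟨RG.int_of_val _ fun w => (key w).1, RG.int_of_val _ fun w => (key w).2⟩

theorem caseB1 {r r' s s' : K} (hrr : r * r' = 5) (hss : s * s' = 3)
    (hsum : r + r' + s + s' + 1 = 0) (hs : ∀ q : ℚ, s ≠ q)
    (hx : ∃ ρ : ℚ, r * s + 4 = ρ * (s - 2))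
    (hM : ∀ w : HeightOneSpectrum (𝓞 K), Mult (w.valuation K) r r' s s' →
      Mult (w.valuation K) (σ r) (σ r') (σ s) (σ s'))
    (hT : ∀ w : HeightOneSpectrum (𝓞 K), Mult (w.valuation K) r r' s s' →
      w.valuation K 2 < 1 → ∀ z : K, w.valuation K z < 1 ↔ w.valuation K (σ z) < 1) :
    IsIntegral ℤ r ∧ IsIntegral ℤ r' ∧ IsIntegral ℤ s ∧ IsIntegral ℤ s' := by
  obtain ⟨ρ, hρ⟩ := hx
  have hs2 : s - 2 ≠ 0 := by
    intro h
    exact hs 2 (by push_cast; linear_combination h)
  have hc : (r * s + 5) * s ^ 2 + (r * s) * s + r * s * (r * s + 3) = 0 := by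
    linear_combination (-s ^ 2 : K) * hrr - r * s * hss + r * s ^ 2 * hsum
  have hq : (ρ : K) * s ^ 2 + (ρ ^ 2 + 1 * ρ + 1) * s + (-((2 * ρ + 1) * (ρ + 2))) = 0 := by
    apply mul_left_cancel₀ hs2
    rw [mul_zero, ← hc]
    linear_combination (-(s ^ 2) - s - (r * s) - ρ * (s - 2) + 1) * hρ
  obtain ⟨e1, e2⟩ := quad_conj h2 σ hσ s _ _ _ (by simp only [map_add, map_sub, map_mul, map_pow, map_neg, map_ratCast, map_ofNat, map_one])
    (by simp only [map_add, map_sub, map_mul, map_pow, map_neg, map_ratCast, map_ofNat, map_one])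
    (by simp only [map_add, map_sub, map_mul, map_pow, map_neg, map_ratCast, map_ofNat, map_one]) hq hs
  apply not_mult_int (fun w => RG.v_ofNat (w.valuation K) 5)
    (fun w => RG.v_ofNat (w.valuation K) 3) (fun w => by rw [map_one]) hrr hss hsum
  intro w hm
  refine locB1 (w.valuation K) hrr hss hsum (R := σ r) (R' := σ r') (S := σ s) (S' := σ s')
    ?_ ?_ ?_ hρ ?_ e1 e2 ?_ hm (hM w hm) (fun h22 => ⟨hT w hm h22 r, hT w hm h22 s⟩)
  · rw [← map_mul, hrr, map_ofNat]
  · rw [← map_mul, hss, map_ofNat]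
  · have e := congrArg σ hsum
    simp only [map_add, map_ofNat, map_one, map_zero] at e
    exact e
  · have e := congrArg σ hρ
    simp only [map_add, map_mul, map_sub, map_ratCast, map_ofNat] at e
    exact e
  · intro h h3
    have := disc_q (w.valuation K) (p := 3) (by norm_num) (by exact_mod_cast h3) (ρ - 1)
      (by push_cast; exact h)
    push_cast at this
    exact this

theorem stabB {r r' s s' : K} (hrr : r * r' = 5) (hss : s * s' = 3)
    (hsum : r + r' + s + s' + 1 = 0)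
    (hM : ∀ w : HeightOneSpectrum (𝓞 K), Mult (w.valuation K) r r' s s' →
      Mult (w.valuation K) (σ r) (σ r') (σ s) (σ s'))
    (hT : ∀ w : HeightOneSpectrum (𝓞 K), Mult (w.valuation K) r r' s s' →
      w.valuation K 2 < 1 → ∀ z : K, w.valuation K z < 1 ↔ w.valuation K (σ z) < 1) :
    (∃ q : ℚ, s = q) ∨ RG.PB (s + s') := by
  by_cases hs : ∃ q : ℚ, s = q
  · exact Or.inl hs
  push Not at hs
  apply RG.B_two h2 r r' s s' hrr hss hsum
  rcases thirdB h2 r r' s s' hrr hss hsum with ⟨q, hq⟩ | hx | hx | hx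
  · exact absurd hq (hs q)
  · obtain ⟨i1, i2⟩ := caseB2 h2 σ hσ hrr hss hsum hs hx hM hT
    exact Or.inr (Or.inr (Or.inr (Or.inl ⟨i2, i1⟩)))
  · have hs' : ∀ q : ℚ, s' ≠ q := by
      intro q hq
      have hs0 : s' ≠ 0 := by
        intro h; rw [h, mul_zero] at hss; norm_num at hss
      apply hs (3 / q)
      push_cast
      rw [← hq, eq_div_iff hs0]; exact hss
    obtain ⟨i1, i2⟩ := caseB2 h2 σ hσ hrr (show s' * s = 3 by rw [mul_comm]; exact hss)
      (by linear_combination hsum) hs' hx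
      (fun w hw => (hM w hw.swap).swap) (fun w hw => hT w hw.swap)
    exact Or.inr (Or.inr (Or.inl ⟨i1, i2⟩))
  · obtain ⟨i1, i2, i3, i4⟩ := caseB1 h2 σ hσ hrr hss hsum hs hx hM hT
    exact Or.inl ⟨i1.mul i3, i2.mul i3⟩

end B

end CS87
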