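import Pool.Agent.Lib.MP_87c685_nt_CS.NormTwo

/-!
# Primes above two with potentially good reduction: two of the families are impossible
-/

set_option autoImplicit false

open NumberField IsDedekindDomain

namespace CS87

variable {K : Type*} [Field K]

section val

variable {Γ₀ : Type*} [LinearOrderedCommGroupWithZero Γ₀] (v : Valuation K Γ₀)

theorem v_odd_int (h2 : v (2 : K) < 1) (n : ℤ) (hn : ¬ (2 : ℤ) ∣ n) : v (n : K) = 1 := by
  obtain ⟨m, hm⟩ : ∃ m, n = 2 * m + 1 := ⟨(n - 1) / 2, by omega⟩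
  rw [hm]
  push_cast
  have h1 : v (2 * (m : K)) < v (1 : K) := by
    rw [map_mul, map_one]
    calc v 2 * v (m : K) ≤ v 2 * 1 := mul_le_mul_right (RG.v_int v m) _
      _ = v 2 := mul_one _
      _ < 1 := h2
  rw [Valuation.map_add_eq_of_lt_right v h1, map_one]

theorem v_even_int (h2 : v (2 : K) < 1) (n : ℤ) (hn : (2 : ℤ) ∣ n) : v (n : K) < 1 := by
  obtain ⟨m, hm⟩ := hn
  rw [hm]
  push_cast
  rw [map_mul]
  calc v 2 * v (m : K) ≤ v 2 * 1 := mul_le_mul_right (RG.v_int v m) _
      _ = v 2 := mul_one _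
      _ < 1 := h2

theorem v_rat_unit [CharZero K] (h2 : v (2 : K) < 1) (q : ℚ) (hq : v (q : K) = 1) :
    v ((q : K) - 1) < 1 := by
  have hden : (q.den : K) ≠ 0 := by exact_mod_cast q.den_nz
  have e : (q : K) * (q.den : ℤ) = (q.num : K) := by
    have h1 : (q : ℚ) * (q.den : ℚ) = q.num := Rat.mul_den_eq_num q
    have h3 : ((q * (q.den : ℚ) : ℚ) : K) = ((q.num : ℚ) : K) := by rw [h1]
    push_cast at h3
    push_cast
    exact h3
  have ev : v ((q.den : ℤ) : K) = v (q.num : K) := by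
    rw [← e, map_mul, hq, one_mul]
  have hcop : ¬ ((2 : ℤ) ∣ q.num ∧ (2 : ℤ) ∣ (q.den : ℤ)) := by
    rintro ⟨h, h'⟩
    have h3 : (2 : ℤ) ∣ Int.gcd q.num q.den := Int.dvd_coe_gcd h h'
    have h4 : Int.gcd q.num q.den = 1 := q.reduced
    rw [h4] at h3
    norm_num at h3
  have hnum : ¬ (2 : ℤ) ∣ q.num := by
    intro h
    have hd : ¬ (2 : ℤ) ∣ (q.den : ℤ) := fun h' => hcop ⟨h, h'⟩
    have h3 := v_even_int v h2 _ h
    rw [← ev, v_odd_int v h2 _ hd] at h3
    exact lt_irrefl _ h3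
  have hd : ¬ (2 : ℤ) ∣ (q.den : ℤ) := by
    intro h
    have h3 := v_even_int v h2 _ h
    rw [ev, v_odd_int v h2 _ hnum] at h3
    exact lt_irrefl _ h3
  have h5 : v (((q : K) - 1) * ((q.den : ℤ) : K)) < 1 := by
    have : ((q : K) - 1) * ((q.den : ℤ) : K) = ((q.num - q.den : ℤ) : K) := by
      rw [sub_mul, e]; push_cast; ring
    rw [this]
    exact v_even_int v h2 _ (by omega)
  rw [map_mul, v_odd_int v h2 _ hd, mul_one] at h5
  exact h5

theorem no_R1 [CharZero K] (h2 : v (2 : K) < 1) {r r' s s' a b c : K}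
    (ha : v (a - 1) < 1) (hb : v (b - 1) < 1) (hc : v c = 1)
    (hrr : r * r' = a) (hss : s * s' = b) (hsum : r + r' + s + s' + c = 0)
    (hr : v r = 1) (hr' : v r' = 1) (hs : v s = 1) (q : ℚ) (hq : r * s = q) :
    False := by
  have h1 : v (r * s - 1) < 1 := by
    rw [hq]
    apply v_rat_unit v h2
    rw [← hq, map_mul, hr, hs, one_mul]
  have h3 : v (s - r') < 1 := by
    have e : r * (s - r') = (r * s - 1) - (a - 1) := by rw [← hrr]; ring
    have : v (r * (s - r')) < 1 := by rw [e]; exact Valuation.map_sub_lt v h1 ha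
    rwa [map_mul, hr, one_mul] at this
  have h4 : v (s' - r) < 1 := by
    have e : s * (s' - r) = (b - 1) - (r * s - 1) := by rw [← hss]; ring
    have : v (s * (s' - r)) < 1 := by rw [e]; exact Valuation.map_sub_lt v hb h1
    rwa [map_mul, hs, one_mul] at this
  have h5 : v (2 * (r + r')) < 1 := by
    rw [map_mul]
    calc v 2 * v (r + r') ≤ v 2 * 1 := mul_le_mul_right (v.map_add_le hr.le hr'.le) _
      _ = v 2 := mul_one _
      _ < 1 := h2
  have e : c = -(2 * (r + r') + (s - r') + (s' - r)) := by linear_combination hsum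
  have h6 : v c < 1 := by
    rw [e, Valuation.map_neg]
    exact v.map_add_lt (v.map_add_lt h5 h3) h4
  exact absurd hc (ne_of_lt h6)

end val

end CS87
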