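import Pool.Agent.Lib.MP_87c685_nt_CS.Stab
import Pool.Agent.Lib.MP_87c685_nt_CS.ConjPrime
import Pool.Agent.Lib.MP_87c685_nt_RG.Final
import Pool.Agent.Lib.MP_87c685_nt_RG.Good

/-!
# The exceptional `j`-invariants and the conjugation
-/

set_option autoImplicit false
set_option linter.unusedSimpArgs false

open NumberField IsDedekindDomain

namespace CS87

/-- The set of the primes at which `j` is not integral is stable under the conjugation of `K`, and
it contains a prime above 2 only if this is the only one. -/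
def ConjStable {K : Type*} [Field K] [NumberField K] (j : K) : Prop :=
  (∀ (σ : K ≃ₐ[ℚ] K) (w : HeightOneSpectrum (𝓞 K)), 1 < w.valuation K j →
    1 < w.valuation K (σ j)) ∧
  ∀ w w' : HeightOneSpectrum (𝓞 K), 1 < w.valuation K j → w.valuation K 2 < 1 →
    w'.valuation K 2 < 1 → w' = w

variable {K : Type*} [Field K] [NumberField K]

theorem exists_above (l : ℕ) (hl : l.Prime) :
    ∃ w : HeightOneSpectrum (𝓞 K), w.valuation K (l : K) < 1 := by
  by_contra h
  push Not at h
  have hl0 : (l : K) ≠ 0 := by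
    have := hl.ne_zero
    exact_mod_cast this
  have h1 : IsIntegral ℤ ((l : K)⁻¹) := by
    apply RG.int_of_val
    intro w
    rw [map_inv₀]
    exact inv_le_one_of_one_le₀ (h w)
  obtain ⟨n, hn⟩ := RG.int_rat _ h1 ((l : ℚ)⁻¹) (by push_cast; rfl)
  have h3 : (n : K) * l = 1 := by rw [← hn]; exact inv_mul_cancel₀ hl0
  have h4 : n * (l : ℤ) = 1 := by exact_mod_cast h3
  have h5 : (l : ℤ) ∣ 1 := ⟨n, by rw [← h4]; ring⟩
  have h6 : l ∣ 1 := by exact_mod_cast h5
  exact hl.one_lt.ne' (Nat.dvd_one.1 h6)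

/-- stability, both ways -/
theorem stable_symm (σ : K ≃ₐ[ℚ] K) {j : K}
    (h : ∀ w : HeightOneSpectrum (𝓞 K), 1 < w.valuation K j → 1 < w.valuation K (σ j))
    (hσσ : σ (σ j) = j) (w : HeightOneSpectrum (𝓞 K)) (hw : 1 < w.valuation K (σ j)) :
    1 < w.valuation K j := by
  obtain ⟨w', hw'⟩ := exists_conj_prime σ w
  have h1 := h w' (by rw [hw']; exact hw)
  rw [hw', hσσ] at h1
  exact h1

theorem conj_pair (h2 : Module.finrank ℚ K = 2) (σ : K ≃ₐ[ℚ] K) (hσ : σ ≠ 1) (j : K)
    (hj : ∀ q : ℚ, j ≠ q) (p q r : ℤ) (h : (p : K) * j ^ 2 + q * j + r = 0) :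
    (p : K) * (j + σ j) = -q ∧ (p : K) * (j * σ j) = r :=
  quad_conj h2 σ hσ j _ _ _ (map_intCast σ p) (map_intCast σ q) (map_intCast σ r) h hj

theorem σσ (h2 : Module.finrank ℚ K = 2) (σ : K ≃ₐ[ℚ] K) (hσ : σ ≠ 1) (j : K)
    (hj : ∀ q : ℚ, j ≠ q) (p q r : ℤ) (hp : p ≠ 0) (h : (p : K) * j ^ 2 + q * j + r = 0) :
    σ (σ j) = j := by
  obtain ⟨e1, -⟩ := conj_pair h2 σ hσ j hj p q r h
  have e := congrArg σ e1
  simp only [map_mul, map_add, map_neg, map_intCast] at e
  have hp' : (p : K) ≠ 0 := by exact_mod_cast hp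
  apply mul_left_cancel₀ hp'
  linear_combination e - e1

theorem unstable1 (h2 : Module.finrank ℚ K = 2) (j : K) (hS : ConjStable j)
    (hj : ∀ q : ℚ, j ≠ q) (p q r : ℤ) (hp0 : p ≠ 0) (l : ℕ) (hl : l.Prime) (hp : (l : ℤ) ∣ p)
    (hq : ¬ (l : ℤ) ∣ q) (h : (p : K) * j ^ 2 + q * j + r = 0) : False := by
  obtain ⟨σ, hσ⟩ := RG.exists_conj h2
  obtain ⟨e1, e2⟩ := conj_pair h2 σ hσ j hj p q r h
  obtain ⟨w, hw⟩ := exists_above (K := K) l hl
  have hl' : Prime (l : ℤ) := Nat.prime_iff_prime_int.1 hl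
  have hwl : w.valuation K ((l : ℤ) : K) < 1 := by exact_mod_cast hw
  have vq : w.valuation K (q : K) = 1 :=
    v_coprime (w.valuation K) ((Prime.coprime_iff_not_dvd hl').2 hq) hwl
  have vp : w.valuation K (p : K) < 1 := by
    obtain ⟨m, hm⟩ := hp
    rw [hm]; push_cast
    rw [map_mul]
    exact lt_of_le_of_lt (mul_le_of_le_one_right' (RG.v_int _ m)) (by exact_mod_cast hwl)
  have vr : w.valuation K (r : K) ≤ 1 := RG.v_int _ r
  have k1 : w.valuation K (p : K) * w.valuation K (j + σ j) = 1 := by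
    rw [← map_mul, e1, Valuation.map_neg, vq]
  have k2 : w.valuation K (p : K) * (w.valuation K j * w.valuation K (σ j)) ≤ 1 := by
    rw [← map_mul, ← map_mul, e2]; exact vr
  have hiff : 1 < w.valuation K j ↔ 1 < w.valuation K (σ j) :=
    ⟨hS.1 σ w, stable_symm σ (hS.1 σ) (σσ h2 σ hσ j hj p q r hp0 h) w⟩
  have key : ∀ a b : K, w.valuation K (a + b) ≤ w.valuation K a →
      w.valuation K (p : K) * w.valuation K (a + b) = 1 →
      w.valuation K (p : K) * (w.valuation K a * w.valuation K b) ≤ 1 →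
      1 < w.valuation K a ∧ w.valuation K b ≤ 1 := by
    intro a b hab h1 h3
    have h4 : 1 ≤ w.valuation K (p : K) * w.valuation K a := by
      rw [← h1]; exact mul_le_mul_right hab _
    refine ⟨?_, ?_⟩
    · by_contra h5
      have : w.valuation K (p : K) * w.valuation K a < 1 :=
        mul_lt_one_of_lt_of_le vp (not_lt.1 h5)
      exact absurd h4 (not_le.2 this)
    · rw [← mul_assoc] at h3
      by_contra h5
      have : 1 < w.valuation K (p : K) * w.valuation K a * w.valuation K b := by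
        have h6 := not_le.1 h5
        calc 1 < w.valuation K b := h6
          _ = 1 * w.valuation K b := (one_mul _).symm
          _ ≤ _ := mul_le_mul_left h4 _
      exact absurd h3 (not_le.2 this)
  rcases le_total (w.valuation K (σ j)) (w.valuation K j) with hle | hle
  · obtain ⟨a1, a2⟩ := key j (σ j) ((w.valuation K).map_add_le le_rfl hle) k1 k2
    exact absurd (hiff.1 a1) (not_lt.2 a2)
  · obtain ⟨a1, a2⟩ := key (σ j) j (by
      rw [add_comm]; exact (w.valuation K).map_add_le hle le_rfl)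
      (by rw [add_comm]; exact k1) (by rw [mul_comm (w.valuation K (σ j))]; exact k2)
    exact absurd (hiff.2 a1) (not_lt.2 a2)

theorem unstable2 (h2 : Module.finrank ℚ K = 2) (j : K) (hS : ConjStable j)
    (hj : ∀ q : ℚ, j ≠ q) (p q r : ℤ) (a b : ℕ) (p' q' : ℤ) (hp : p = 2 ^ a * p')
    (hq : q = 2 ^ b * q') (hp' : ¬ (2 : ℤ) ∣ p') (hq' : ¬ (2 : ℤ) ∣ q') (hr : ¬ (2 : ℤ) ∣ r)
    (hab : 2 * b < a) (h : (p : K) * j ^ 2 + q * j + r = 0) : False := by
  obtain ⟨σ, hσ⟩ := RG.exists_conj h2
  obtain ⟨e1, e2⟩ := conj_pair h2 σ hσ j hj p q r h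
  obtain ⟨w, hw⟩ := exists_above (K := K) 2 Nat.prime_two
  have hw2 : w.valuation K ((2 : ℤ) : K) < 1 := by exact_mod_cast hw
  have hw2' : w.valuation K (2 : K) < 1 := by exact_mod_cast hw
  have two0 : w.valuation K (2 : K) ≠ 0 := (Valuation.ne_zero_iff _).2 two_ne_zero
  have cop : ∀ n : ℤ, ¬ (2 : ℤ) ∣ n → w.valuation K (n : K) = 1 := fun n hn =>
    v_coprime (w.valuation K) ((Prime.coprime_iff_not_dvd Int.prime_two).2 hn) hw2
  have hp0 : p ≠ 0 := by
    rintro rfl
    rcases mul_eq_zero.1 hp.symm with h5 | h5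
    · exact pow_ne_zero a two_ne_zero h5
    · exact hp' (by rw [h5]; exact dvd_zero _)
  have vp : w.valuation K (p : K) = w.valuation K 2 ^ a := by
    rw [hp]; push_cast
    rw [map_mul, map_pow, cop p' hp', mul_one]
  have vq : w.valuation K (q : K) = w.valuation K 2 ^ b := by
    rw [hq]; push_cast
    rw [map_mul, map_pow, cop q' hq', mul_one]
  have k1 : w.valuation K (p : K) * w.valuation K (j + σ j) = w.valuation K (q : K) := by
    rw [← map_mul, e1, Valuation.map_neg]
  have k2 : w.valuation K (p : K) * (w.valuation K j * w.valuation K (σ j)) = 1 := by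
    rw [← map_mul, ← map_mul, e2]; exact cop r hr
  have vp1 : w.valuation K (p : K) < 1 := by
    rw [vp]; exact pow_lt_one' hw2' (by omega)
  have hσσ := σσ h2 σ hσ j hj p q r hp0 h
  have hiff : 1 < w.valuation K j ↔ 1 < w.valuation K (σ j) :=
    ⟨hS.1 σ w, stable_symm σ (hS.1 σ) hσσ w⟩
  have hj1 : 1 < w.valuation K j := by
    by_contra h5
    have h6 : ¬ 1 < w.valuation K (σ j) := fun h7 => h5 (hiff.2 h7)
    have : w.valuation K (p : K) * (w.valuation K j * w.valuation K (σ j)) < 1 :=
      mul_lt_one_of_lt_of_le vp1 (mul_le_one' (not_lt.1 h5) (not_lt.1 h6))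
    exact absurd k2 (ne_of_lt this)
  have hfix := fixed_of_only σ w hw2' (fun w' hw' => hS.2 w w' hj1 hw2' hw')
  rw [hfix j] at k2
  have k3 : w.valuation K (j + σ j) ≤ w.valuation K j :=
    (w.valuation K).map_add_le le_rfl (hfix j).le
  have k4 : w.valuation K (q : K) * w.valuation K (q : K) ≤ w.valuation K (p : K) := by
    have h5 : w.valuation K (q : K) ≤ w.valuation K (p : K) * w.valuation K j := by
      rw [← k1]; exact mul_le_mul_right k3 _
    calc w.valuation K (q : K) * w.valuation K (q : K) ≤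
        (w.valuation K (p : K) * w.valuation K j) * (w.valuation K (p : K) * w.valuation K j) :=
          mul_le_mul' h5 h5
      _ = w.valuation K (p : K) *
        (w.valuation K (p : K) * (w.valuation K j * w.valuation K j)) := by
          rw [mul_assoc, mul_left_comm (w.valuation K j)]
      _ = w.valuation K (p : K) := by rw [k2, mul_one]
  rw [vp, vq, ← pow_add] at k4
  have k5 : w.valuation K (2 : K) ^ a < w.valuation K (2 : K) ^ (b + b) :=
    pow_lt_pow_right_of_lt_one₀ (zero_lt_iff.2 two0) hw2' (by omega)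
  exact absurd k4 (not_le.2 k5)

theorem drop_exc (h2 : Module.finrank ℚ K = 2) (j : K) (hS : ConjStable j)
    (hj : ∀ q : ℚ, j ≠ q)
    (h : ∃ p ∈ RG.exceptions, (p.1 : K) * j ^ 2 + (p.2.1 : K) * j + (p.2.2 : K) = 0) :
    ∃ p ∈ RG.exceptions.take 4, (p.1 : K) * j ^ 2 + (p.2.1 : K) * j + (p.2.2 : K) = 0 := by
  obtain ⟨p, hp, he⟩ := h
  rw [← List.take_append_drop 4 RG.exceptions, List.mem_append] at hp
  rcases hp with hp | hp
  · exact ⟨p, hp, he⟩
  · exfalso
    simp only [RG.exceptions, List.drop, List.mem_cons, List.not_mem_nil, or_false] at hp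
    rcases hp with rfl | rfl | rfl | rfl | rfl | rfl | rfl | rfl | rfl | rfl | rfl | rfl | rfl |
      rfl | rfl | rfl | rfl | rfl | rfl | rfl
    · exact unstable1 h2 j hS hj _ _ _ (by norm_num) 7 (by norm_num) (by norm_num) (by norm_num) he
    · exact unstable1 h2 j hS hj _ _ _ (by norm_num) 7 (by norm_num) (by norm_num) (by norm_num) he
    · exact unstable1 h2 j hS hj _ _ _ (by norm_num) 7 (by norm_num) (by norm_num) (by norm_num) he
    · exact unstable1 h2 j hS hj _ _ _ (by norm_num) 7 (by norm_num) (by norm_num) (by norm_num) he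
    · exact unstable2 h2 j hS hj _ _ _ 5 2 1 (-240003) (by norm_num) (by norm_num) (by norm_num)
        (by norm_num) (by norm_num) (by norm_num) he
    · exact unstable2 h2 j hS hj _ _ _ 35 5 1 (-131940637007904 / 32) (by norm_num) (by norm_num)
        (by norm_num) (by norm_num) (by norm_num) (by norm_num) he
    · exact unstable2 h2 j hS hj _ _ _ 25 10 1 (114874356169728 / 1024) (by norm_num) (by norm_num)
        (by norm_num) (by norm_num) (by norm_num) (by norm_num) he
    · exact unstable2 h2 j hS hj _ _ _ 7 1 1 (-711234 / 2) (by norm_num) (by norm_num)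
        (by norm_num) (by norm_num) (by norm_num) (by norm_num) he
    · exact unstable1 h2 j hS hj _ _ _ (by norm_num) 3 (by norm_num) (by norm_num) (by norm_num) he
    · exact unstable1 h2 j hS hj _ _ _ (by norm_num) 3 (by norm_num) (by norm_num) (by norm_num) he
    · exact unstable1 h2 j hS hj _ _ _ (by norm_num) 3 (by norm_num) (by norm_num) (by norm_num) he
    · exact unstable1 h2 j hS hj _ _ _ (by norm_num) 3 (by norm_num) (by norm_num) (by norm_num) he
    · exact unstable2 h2 j hS hj _ _ _ 10 1 1 (-86839516886 / 2) (by norm_num) (by norm_num)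
        (by norm_num) (by norm_num) (by norm_num) (by norm_num) he
    · exact unstable2 h2 j hS hj _ _ _ 50 5 1 (49809492452645167264 / 32) (by norm_num)
        (by norm_num) (by norm_num) (by norm_num) (by norm_num) (by norm_num) he
    · exact unstable2 h2 j hS hj _ _ _ 24 9 1 (5425081893376 / 512) (by norm_num)
        (by norm_num) (by norm_num) (by norm_num) (by norm_num) (by norm_num) he
    · exact unstable2 h2 j hS hj _ _ _ 48 3 1 (169491000700854065896 / 8) (by norm_num)
        (by norm_num) (by norm_num) (by norm_num) (by norm_num) (by norm_num) he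
    · exact unstable1 h2 j hS hj _ _ _ (by norm_num) 3 (by norm_num) (by norm_num) (by norm_num) he
    · exact unstable1 h2 j hS hj _ _ _ (by norm_num) 3 (by norm_num) (by norm_num) (by norm_num) he
    · exact unstable1 h2 j hS hj _ _ _ (by norm_num) 3 (by norm_num) (by norm_num) (by norm_num) he
    · exact unstable1 h2 j hS hj _ _ _ (by norm_num) 3 (by norm_num) (by norm_num) (by norm_num) he

end CS87
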